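import Pool.Agent.Helper9.TM2Sim
import Pool.Agent.Helper72.Defs

/-!
Deciders given by Turing machines of Mathlib as programs of the internal language.
-/

namespace Pool.Agent.Helper9.TM2Sim

open Function Turing Computability StateTransition Pool.Agent.Helper72

/-! ### letterwise conversion -/

/-- move the content of `a` onto `b`, replacing the letter `x` by the word `g x` -/
def conv (a b : ℕ) (g : Bool → List Bool) : Cmd :=
  .loop a (Cmd.pushL b (g false)) (Cmd.pushL b (g true))

theorem conv_loop {a b : ℕ} (g : Bool → List Bool) (hab : a ≠ b)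
    (p : Bool → St → Prop) (hp : ∀ b s, p b s) :
    ∀ (l : List Bool) (s : St), s a = l →
    loopEval (fun x => if x then (Cmd.pushL b (g true)).eval else (Cmd.pushL b (g false)).eval) a l s
      = update (update s a []) b (l.reverse.flatMap g ++ s b) ∧
    loopLB (fun x => if x then (Cmd.pushL b (g true)).eval else (Cmd.pushL b (g false)).eval)
      p a l s
  | [], s, h => by
    constructor
    · funext r
      by_cases h1 : r = b
      · subst h1; simp [loopEval]
      · by_cases h2 : r = a
        · subst h2; simp [loopEval, h1, h]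
        · simp [loopEval, h1, h2]
    · trivial
  | x :: l, s, h => by
    have hb : (if x = true then (Cmd.pushL b (g true)).eval else (Cmd.pushL b (g false)).eval)
      (update s a l) = update (update s a l) b (g x ++ s b) := by
      cases x <;> simp [hab.symm]
    obtain ⟨h1, h2⟩ := conv_loop g hab p hp l (update (update s a l) b (g x ++ s b))
      (by simp [hab])
    constructor
    · rw [loopEval, hb, h1]
      funext r
      by_cases h1 : r = b
      · subst h1; simp
      · by_cases h2 : r = a
        · subst h2; simp [hab]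
        · simp [h1, h2]
    · refine ⟨hp _ _, ?_⟩
      show loopLB _ _ _ _ ((if x = true then (Cmd.pushL b (g true)).eval
        else (Cmd.pushL b (g false)).eval) (update s a l))
      rw [hb]; exact h2

theorem eval_conv {a b : ℕ} (g : Bool → List Bool) (hab : a ≠ b) (s : St) :
    (conv a b g).eval s = update (update s a []) b ((s a).reverse.flatMap g ++ s b) :=
  (conv_loop g hab (fun _ _ => True) (fun _ _ => trivial) _ s rfl).1

theorem LB_conv {a b L : ℕ} (g : Bool → List Bool) (hab : a ≠ b) {s : St}
    (h : (s a).length ≤ L) : (conv a b g).LB L s :=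
  ⟨h, (conv_loop g hab _ (fun b s => by cases b <;> simp) _ s rfl).2⟩

theorem wr_conv {a b x : ℕ} (g : Bool → List Bool) (ha : x ≠ a) (hb : x ≠ b) :
    (conv a b g).wr x = false := by
  simp [conv, Cmd.wr, ha, Cmd.wr_pushL _ hb]

theorem ok_conv {a b : ℕ} (g : Bool → List Bool) (hab : a ≠ b) : (conv a b g).ok = true := by
  simp [conv, Cmd.ok, Cmd.wr_pushL _ hab]

/-! ### repeating a program polynomially often -/

/-- run `body` `n ^ D` times, where `n` is the length of register `N`; the loop registers are
`x, x + 1, ..., x + D - 1`, and `t` is a scratch register -/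
def rep (N t : ℕ) (body : Cmd) : ℕ → ℕ → Cmd
  | 0, _ => body
  | D + 1, x => .seq (Cmd.copy N x t)
      (.loop x (rep N t body D (x + 1)) (rep N t body D (x + 1)))

theorem wr_rep {N t : ℕ} {body : Cmd} {r : ℕ} (hN : r ≠ N) (ht : r ≠ t)
    (hb : body.wr r = false) : ∀ (D x : ℕ), r < x → (rep N t body D x).wr r = false
  | 0, _, _ => hb
  | D + 1, x, hx => by
    have h1 := wr_rep hN ht hb D (x + 1) (by omega)
    have h2 : r ≠ x := by omega
    simp [rep, Cmd.wr, Cmd.copy, Cmd.mv, Cmd.mv2, h1, hN, ht, h2]

theorem ok_rep {N t : ℕ} {body : Cmd} {x0 : ℕ} (hNt : N ≠ t) (hN : N < x0) (ht : t < x0)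
    (hb : body.ok = true) (hwr : ∀ r, x0 ≤ r → body.wr r = false) :
    ∀ (D x : ℕ), x0 ≤ x → (rep N t body D x).ok = true
  | 0, _, _ => hb
  | D + 1, x, hx => by
    have h1 := ok_rep hNt hN ht hb hwr D (x + 1) (by omega)
    have h2 : (rep N t body D (x + 1)).wr x = false :=
      wr_rep (by omega) (by omega) (hwr x hx) D (x + 1) (by omega)
    have h3 : (Cmd.copy N x t).ok = true := Cmd.ok_copy hNt (by omega)
    simp [rep, Cmd.ok, h1, h2, h3]

theorem rep_run {N t : ℕ} {body : Cmd} {L : ℕ} {Inv : ℕ → St → Prop} {n : ℕ} {w : List Bool}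
    {x0 : ℕ} (hNt : N ≠ t) (hw : w.length = n) (hnL : n ≤ L) (hN : N < x0) (ht : t < x0)
    (hInv : ∀ j s, Inv j s → s N = w ∧ s t = [])
    (hstab : ∀ j s r l, x0 ≤ r → Inv j s → Inv j (update s r l))
    (hbody : ∀ j s, Inv j s → Inv (j + 1) (body.eval s) ∧ body.LB L s)
    (hwr : ∀ r, x0 ≤ r → body.wr r = false) :
    ∀ (D x j : ℕ) (s : St), x0 ≤ x → Inv j s → (∀ r, x ≤ r → s r = []) →
      (rep N t body D x).LB L s ∧ Inv (j + n ^ D) ((rep N t body D x).eval s) ∧
        ∀ r, x ≤ r → (rep N t body D x).eval s r = []
  | 0, x, j, s, hx, hj, hs => by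
    obtain ⟨h1, h2⟩ := hbody j s hj
    refine ⟨h2, by rw [pow_zero]; exact h1, fun r hr => ?_⟩
    show body.eval s r = []
    rw [Cmd.frame (hwr r (hx.trans hr)), hs r hr]
  | D + 1, x, j, s, hx, hj, hs => by
    obtain ⟨hsN, hst⟩ := hInv j s hj
    have hNx : N ≠ x := by omega
    have hxt : x ≠ t := by omega
    have hcopy : (Cmd.copy N x t).eval s = update s x w := by
      rw [Cmd.eval_copy hNx hNt hxt hst, hs x le_rfl, hsN, List.append_nil]
    have hLBc : (Cmd.copy N x t).LB L s :=
      Cmd.LB_copy hNx hNt hxt hst (by rw [hsN, hw]; exact hnL)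
    set bd := rep N t body D (x + 1) with hbd
    have hbdx : bd.wr x = false :=
      wr_rep (by omega) (by omega) (hwr x hx) D (x + 1) (by omega)
    have key := loop_inv (f := fun b => if b then bd.eval else bd.eval)
      (p := fun b => if b then bd.LB L else bd.LB L) (r := x)
      (Inv := fun l s => s x = l ∧ l.length ≤ n ∧ Inv (j + (n - l.length) * n ^ D) s ∧
        ∀ r, x + 1 ≤ r → s r = [])
      (by
        rintro b l s ⟨h1, h2, h3, h4⟩
        have h2' : l.length + 1 ≤ n := by simpa using h2
        have ih := rep_run hNt hw hnL hN ht hInv hstab hbody hwr D (x + 1)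
          (j + (n - (b :: l).length) * n ^ D) (update s x l) (by omega)
          (hstab _ _ _ _ hx h3)
          (fun r hr => by rw [update_of_ne (by omega)]; exact h4 r hr)
        obtain ⟨i1, i2, i3⟩ := ih
        have e1 : j + (n - (b :: l).length) * n ^ D + n ^ D = j + (n - l.length) * n ^ D := by
          have : n - l.length = (n - (b :: l).length) + 1 := by
            simp only [List.length_cons]; omega
          rw [this]; ring
        rw [e1] at i2
        have e2 : bd.eval (update s x l) x = l := by
          rw [Cmd.frame hbdx, update_self]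
        constructor
        · cases b
          · exact i1
          · exact i1
        · cases b
          · exact ⟨e2, by omega, i2, i3⟩
          · exact ⟨e2, by omega, i2, i3⟩)
      w (update s x w)
      ⟨by simp, hw.le, by
        rw [hw]; simpa using hstab _ _ _ _ hx hj, fun r hr => by
        rw [update_of_ne (by omega)]; exact hs r (by omega)⟩
    obtain ⟨k1, k2, k3, k4, k5⟩ := key
    have hev : (rep N t body (D + 1) x).eval s =
        loopEval (fun b => if b then bd.eval else bd.eval) x w (update s x w) := by
      show (Cmd.seq (Cmd.copy N x t) (Cmd.loop x bd bd)).eval s = _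
      rw [Cmd.eval_seq, hcopy]
      show loopEval _ _ ((update s x w) x) _ = _
      rw [update_self]
    refine ⟨⟨hLBc, ?_⟩, ?_, ?_⟩
    · rw [hcopy]
      refine ⟨by rw [update_self, hw]; exact hnL, ?_⟩
      rw [update_self]
      exact k1
    · rw [hev]
      have : j + (n - ([] : List Bool).length) * n ^ D = j + n ^ (D + 1) := by
        simp only [List.length_nil, Nat.sub_zero]; ring
      rw [← this]
      exact k4
    · intro r hr
      rw [hev]
      rcases Nat.eq_or_lt_of_le hr with rfl | hr
      · exact k2
      · exact k5 r hr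

/-! ### runs -/

theorem iter_none {α : Type} (f : α → Option α) (n : ℕ) :
    (flip bind f)^[n] none = none := by
  induction n with
  | zero => rfl
  | succ n ih => rw [iterate_succ_apply]; exact ih

theorem run_getD {α : Type} (f : α → Option α) : ∀ (n : ℕ) (c c' : α),
    (flip bind f)^[n] (some c) = some c' → (fun c => (f c).getD c)^[n] c = c'
  | 0, c, c', h => by simpa using h
  | n + 1, c, c', h => by
    have h1 : (flip bind f)^[n + 1] (some c) = (flip bind f)^[n] (f c) := iterate_succ_apply _ _ _
    rw [h1] at h
    rw [iterate_succ_apply]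
    rcases hc : f c with _ | d
    · rw [hc, iter_none] at h
      exact absurd h (by simp)
    · rw [hc] at h
      have := run_getD f n d c' h
      exact this

section

variable {K : Type} {Γ : K → Type} {Λ σ : Type} [DecidableEq K]

theorem tstep_iter_halt (m : Λ → TM2.Stmt Γ Λ σ) {c : TM2.Cfg Γ Λ σ} (h : c.l = none) (n : ℕ) :
    (tstep m)^[n] c = c := by
  induction n with
  | zero => rfl
  | succ n ih =>
    rw [iterate_succ_apply', ih]
    obtain ⟨l, v, S⟩ := c
    subst h
    rfl

theorem tstep_iter_of_le (m : Λ → TM2.Stmt Γ Λ σ) {c c' : TM2.Cfg Γ Λ σ} {n N : ℕ}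
    (h : (tstep m)^[n] c = c') (h' : c'.l = none) (hn : n ≤ N) : (tstep m)^[N] c = c' := by
  obtain ⟨d, rfl⟩ := Nat.exists_eq_add_of_le hn
  rw [add_comm, iterate_add_apply, h, tstep_iter_halt m h']

end

/-! ### bundled machines -/

/-- number of stacks -/
def cardK (tm : FinTM2) : ℕ := @Fintype.card tm.K tm.kFin

/-- encoding data for a machine, with the state in register `b` and the stacks in the registers
following it -/
theorem exists_enc (tm : FinTM2) (b : ℕ) : ∃ e : Enc tm.Γ tm.Λ tm.σ, e.st = b ∧
    (∀ k, b < e.reg k ∧ e.reg k < b + 1 + cardK tm) ∧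
    (∀ r, b < r → r < b + 1 + cardK tm → ∃ k, e.reg k = r) ∧
    (∀ l, ∀ p ∈ syms (tm.m l), p ∈ e.L) ∧
    ∀ x : tm.Γ tm.k₀, (⟨tm.k₀, x⟩ : Σ k, tm.Γ k) ∈ e.L := by
  have := tm.ΛFin
  have := tm.σFin
  have := tm.Γk₀Fin
  have hk : Nonempty (tm.K ≃ Fin (cardK tm)) := ⟨@Fintype.equivFin tm.K tm.kFin⟩
  obtain ⟨ek⟩ := hk
  have hfin : ((⋃ l, syms (tm.m l)) ∪
      Set.range (fun x : tm.Γ tm.k₀ => (⟨tm.k₀, x⟩ : Σ k, tm.Γ k))).Finite :=
    (Set.finite_iUnion fun l => syms_finite _).union (Set.finite_range _)
  refine ⟨{ st := b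
            reg := fun k => b + 1 + (ek k).val
            inj := ?_
            ne := ?_
            L := hfin.toFinset.toList
            N := Fintype.card (tm.Λ × tm.σ)
            eqv := Fintype.equivFin _ }, rfl, ?_, ?_, ?_, ?_⟩
  · intro x y h
    have : ek x = ek y := Fin.ext (by simpa using h)
    exact ek.injective this
  · intro k; omega
  · intro k
    have := (ek k).isLt
    simp only
    omega
  · intro r h1 h2
    refine ⟨ek.symm ⟨r - (b + 1), by omega⟩, ?_⟩
    simp only [Equiv.apply_symm_apply]
    omega
  · intro l p hp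
    rw [Finset.mem_toList, Set.Finite.mem_toFinset]
    exact Or.inl (Set.mem_iUnion.2 ⟨l, hp⟩)
  · intro x
    rw [Finset.mem_toList, Set.Finite.mem_toFinset]
    exact Or.inr ⟨x, rfl⟩

theorem initList_stk_self (tm : FinTM2) (l : List (tm.Γ tm.k₀)) :
    (initList tm l).stk tm.k₀ = l := by
  simp [initList]

theorem initList_stk_ne (tm : FinTM2) (l : List (tm.Γ tm.k₀)) {k : tm.K} (h : k ≠ tm.k₀) :
    (initList tm l).stk k = [] := by
  simp [initList, h]

theorem haltList_stk_self (tm : FinTM2) (l : List (tm.Γ tm.k₁)) :
    (haltList tm l).stk tm.k₁ = l := by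
  simp [haltList]

theorem haltList_stk_ne (tm : FinTM2) (l : List (tm.Γ tm.k₁)) {k : tm.K} (h : k ≠ tm.k₁) :
    (haltList tm l).stk k = [] := by
  simp [haltList, h]

/-- a polynomial is bounded by some `(n + A) ^ D` -/
theorem poly_le (p : Polynomial ℕ) : ∃ A D : ℕ, ∀ n, p.eval n ≤ (n + A) ^ D := by
  obtain ⟨a, d, h⟩ := PB.poly p
  refine ⟨a + 1, d + 1, fun n => (h n).trans ?_⟩
  calc a * (n + 1) ^ d ≤ (n + (a + 1)) * (n + (a + 1)) ^ d :=
        Nat.mul_le_mul (by omega) (Nat.pow_le_pow_left (by omega) d)
    _ = (n + (a + 1)) ^ (d + 1) := by rw [pow_succ, mul_comm]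

theorem exists_decCmd {α : Type} (ea : α → List Bool) (χ : α → Bool)
    (h : Nonempty (TM2ComputableInPolyTime ea encodeBool χ)) (base : ℕ) :
    ∃ (c : Cmd) (T : ℕ → ℕ), PB T ∧ Monotone T ∧ c.ok = true ∧ (∀ x < base, c.wr x = false) ∧
      ∀ (a : α) (s : St), (∀ r, base < r → s r = []) → s base = ea a →
        c.LB (T (ea a).length) s ∧ c.eval s = update s base (if χ a then [true] else []) := by
  obtain ⟨M⟩ := h
  set tm := M.tm with htm
  obtain ⟨A, D, hAD⟩ := poly_le M.time
  obtain ⟨e, est, ereg, esurj, esyms, ein⟩ := exists_enc tm (base + 3)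
  set κ := cardK tm with hκ
  -- registers
  set N := base + 1 with hN
  set t := base + 2 with ht
  set x0 := base + 4 + κ with hx0
  have regne : ∀ k r, (r ≤ base + 3 ∨ x0 ≤ r) → e.reg k ≠ r := by
    intro k r hr
    have := ereg k
    omega
  have hstepwr : ∀ r, (r < base + 3 ∨ x0 ≤ r) → (stepCmd e tm.m).wr r = false := by
    intro r hr
    refine wr_stepCmd e (by rw [est]; omega) (fun k => ?_) _
    have := ereg k
    omega
  set g : Bool → List Bool := fun b => blk (e.idx tm.k₀ (M.inputAlphabet.invFun b)) with hg
  set out : Cmd := symTree (e.reg tm.k₁) (e.L.map fun p =>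
    open Classical in
    if dec tm.k₁ p = some (M.outputAlphabet.invFun true) then Cmd.push base true else Cmd.nop)
    with hout
  set i0 := e.ei (some tm.main) tm.initialState with hi0
  have hNt : N ≠ t := by omega
  have hoknl : noLoop out = true := by
    apply noLoop_symTree
    intro c hc
    obtain ⟨p, -, rfl⟩ := List.mem_map.1 hc
    split <;> rfl
  have houtwr : ∀ x < base, out.wr x = false := by
    intro x hx
    apply wr_symTree (regne _ _ (Or.inl (by omega))).symm
    intro c hc
    obtain ⟨p, -, rfl⟩ := List.mem_map.1 hc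
    split
    · simp [Cmd.wr]; omega
    · rfl
  refine ⟨.seq (Cmd.mv2 base N t) (.seq (Cmd.pushL N (un A)) (.seq (conv t (e.reg tm.k₀) g)
    (.seq (Cmd.pushL e.st (un i0)) (.seq (rep N t (stepCmd e tm.m) D x0)
    (.seq (Cmd.clear N) out))))), fun n => n + A, PB.id.add (PB.const A),
    fun a b hab => by simpa using hab, ?_, ?_, ?_⟩
  · -- ok
    have h1 : (Cmd.mv2 base N t).ok = true := Cmd.ok_mv2.2 ⟨by omega, by omega⟩
    have h2 : (conv t (e.reg tm.k₀) g).ok = true :=
      ok_conv g (regne _ _ (Or.inl (by omega))).symm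
    have h3 : (rep N t (stepCmd e tm.m) D x0).ok = true :=
      ok_rep hNt (by omega) (by omega) (noLoop_ok (noLoop_stepCmd e _))
        (fun r hr => hstepwr r (Or.inr hr)) D x0 le_rfl
    simp [Cmd.ok, h1, h2, h3, noLoop_ok hoknl]
  · -- writes
    intro x hx
    have h1 : (Cmd.mv2 base N t).wr x = false := by
      simp [Cmd.mv2, Cmd.wr]; omega
    have h2 : (conv t (e.reg tm.k₀) g).wr x = false :=
      wr_conv g (by omega) (regne _ _ (Or.inl (by omega))).symm
    have h3 : (rep N t (stepCmd e tm.m) D x0).wr x = false :=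
      wr_rep (by omega) (by omega) (hstepwr x (Or.inl (by omega))) D x0 (by omega)
    have h4 : (Cmd.pushL N (un A)).wr x = false := Cmd.wr_pushL _ (by omega)
    have h5 : (Cmd.pushL e.st (un i0)).wr x = false := Cmd.wr_pushL _ (by omega)
    have h6 : (Cmd.clear N).wr x = false := by simp [Cmd.clear, Cmd.wr]; omega
    simp [Cmd.wr, h1, h2, h3, h4, h5, h6, houtwr x hx]
  · intro a s hs hsb
    set X := ea a with hX
    set L := X.length + A with hL
    have sN : s N = [] := hs _ (by omega)
    have st' : s t = [] := hs _ (by omega)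
    have e1 : (Cmd.mv2 base N t).eval s =
        update (update (update s base []) N X.reverse) t X.reverse := by
      rw [Cmd.eval_mv2 (by omega) (by omega) hNt, sN, st', hsb, List.append_nil]
    have l1 : (Cmd.mv2 base N t).LB L s :=
      Cmd.LB_mv2 (by omega) (by omega) hNt (by rw [hsb]; omega)
    set s1 := update (update (update s base []) N X.reverse) t X.reverse with hs1
    set w := un A ++ X.reverse with hw
    have hwl : w.length = X.length + A := by simp [hw, add_comm]
    have e2 : (Cmd.pushL N (un A)).eval s1 = update s1 N w := by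
      rw [Cmd.eval_pushL, hs1, update_of_ne hNt, update_self]
    set s2 := update s1 N w with hs2
    have s2t : s2 t = X.reverse := by rw [hs2, update_of_ne hNt.symm, hs1, update_self]
    have htk : t ≠ e.reg tm.k₀ := (regne _ _ (Or.inl (by omega))).symm
    have s2k : ∀ k, s2 (e.reg k) = [] := by
      intro k
      have := ereg k
      rw [hs2, update_of_ne (by omega), hs1, update_of_ne (by omega), update_of_ne (by omega),
        update_of_ne (by omega)]
      exact hs _ (by omega)
    have e3 : (conv t (e.reg tm.k₀) g).eval s2 =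
        update (update s2 t []) (e.reg tm.k₀) (X.flatMap g) := by
      rw [eval_conv g htk, s2t, List.reverse_reverse, s2k, List.append_nil]
    have l3 : (conv t (e.reg tm.k₀) g).LB L s2 := LB_conv g htk (by rw [s2t]; simp [hL])
    set s3 := update (update s2 t []) (e.reg tm.k₀) (X.flatMap g) with hs3
    have s3st : s3 e.st = [] := by
      rw [hs3, update_of_ne (e.ne _).symm, est, update_of_ne (by omega), hs2,
        update_of_ne (by omega), hs1, update_of_ne (by omega), update_of_ne (by omega),
        update_of_ne (by omega)]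
      exact hs _ (by omega)
    have e4 : (Cmd.pushL e.st (un i0)).eval s3 = update s3 e.st (un i0) := by
      rw [Cmd.eval_pushL, s3st, List.append_nil]
    set s4 := update s3 e.st (un i0) with hs4
    -- properties of s4
    have s4N : s4 N = w := by
      rw [hs4, update_of_ne (by omega), hs3,
        update_of_ne (regne _ _ (Or.inl (by omega))).symm, update_of_ne hNt, hs2, update_self]
    have s4t : s4 t = [] := by
      rw [hs4, update_of_ne (by omega), hs3, update_of_ne htk, update_self]
    have s4b : s4 base = [] := by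
      rw [hs4, update_of_ne (by omega), hs3,
        update_of_ne (regne _ _ (Or.inl (by omega))).symm, update_of_ne (by omega), hs2,
        update_of_ne (by omega), hs1, update_of_ne (by omega), update_of_ne (by omega),
        update_self]
    have s4lt : ∀ r < base, s4 r = s r := by
      intro r hr
      rw [hs4, update_of_ne (by omega), hs3,
        update_of_ne (regne _ _ (Or.inl (by omega))).symm, update_of_ne (by omega), hs2,
        update_of_ne (by omega), hs1, update_of_ne (by omega), update_of_ne (by omega),
        update_of_ne (by omega)]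
    have s4ge : ∀ r, x0 ≤ r → s4 r = [] := by
      intro r hr
      rw [hs4, update_of_ne (by omega), hs3,
        update_of_ne (regne _ _ (Or.inr hr)).symm, update_of_ne (by omega), hs2,
        update_of_ne (by omega), hs1, update_of_ne (by omega), update_of_ne (by omega),
        update_of_ne (by omega)]
      exact hs _ (by omega)
    set c0 : TM2.Cfg tm.Γ tm.Λ tm.σ := initList tm (X.map M.inputAlphabet.invFun) with hc0
    have s4rel : e.Rel c0 s4 := by
      refine ⟨by rw [hs4, update_self]; rfl, fun k => ?_⟩
      rw [hs4, update_of_ne (e.ne _), hs3]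
      by_cases hk : k = tm.k₀
      · subst hk
        rw [update_self]
        have h1 : c0.stk tm.k₀ = X.map M.inputAlphabet.invFun :=
          initList_stk_self tm (X.map M.inputAlphabet.invFun)
        rw [h1]
        refine ⟨?_, fun x _ => ein x⟩
        rw [Enc.stk, List.flatMap_map]
      · have h1 : c0.stk k = [] := initList_stk_ne tm _ hk
        rw [h1, update_of_ne (e.inj.ne hk), update_of_ne (by
          have := ereg k; omega), s2k k]
        exact ⟨rfl, by simp⟩
    -- the run
    obtain ⟨⟨⟨steps, hsteps⟩, hle⟩⟩ : Nonempty (TM2OutputsInTime tm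
      (List.map M.inputAlphabet.invFun X)
      (some (List.map M.outputAlphabet.invFun (encodeBool (χ a)))) (M.time.eval X.length)) :=
      ⟨M.outputsFun a⟩
    set c1 : TM2.Cfg tm.Γ tm.Λ tm.σ :=
      haltList tm (List.map M.outputAlphabet.invFun (encodeBool (χ a))) with hc1
    have hrun : (tstep tm.m)^[steps] c0 = c1 := run_getD (TM2.step tm.m) steps c0 c1 hsteps
    have hrun2 : (tstep tm.m)^[(X.length + A) ^ D] c0 = c1 :=
      tstep_iter_of_le tm.m hrun rfl (hle.trans (hAD _))
    have hrep := rep_run (N := N) (t := t) (body := stepCmd e tm.m) (L := L)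
      (Inv := fun j s => e.Rel ((tstep tm.m)^[j] c0) s ∧ s N = w ∧ s t = [])
      (n := X.length + A) (w := w) (x0 := x0) hNt hwl le_rfl (by omega) (by omega)
      (fun j s h => h.2)
      (by
        rintro j s r l hr ⟨⟨h1, h2⟩, h3, h4⟩
        refine ⟨⟨?_, fun k => ?_⟩, ?_, ?_⟩
        · rw [update_of_ne (by omega)]; exact h1
        · rw [update_of_ne (regne _ _ (Or.inr hr))]; exact h2 k
        · rw [update_of_ne (by omega)]; exact h3
        · rw [update_of_ne (by omega)]; exact h4)
      (by
        rintro j s ⟨h1, h2, h3⟩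
        refine ⟨⟨?_, ?_, ?_⟩, noLoop_LB (noLoop_stepCmd e _) _ _⟩
        · rw [iterate_succ_apply']
          exact stepCmd_rel e tm.m esyms _ _ h1
        · rw [Cmd.frame (hstepwr N (Or.inl (by omega))), h2]
        · rw [Cmd.frame (hstepwr t (Or.inl (by omega))), h3])
      (fun r hr => hstepwr r (Or.inr hr)) D x0 0 s4 le_rfl ⟨s4rel, s4N, s4t⟩ s4ge
    obtain ⟨l5, ⟨hrel, s5N, s5t⟩, s5ge⟩ := hrep
    set s5 := (rep N t (stepCmd e tm.m) D x0).eval s4 with hs5
    rw [zero_add, hrun2] at hrel
    have s5lt : ∀ r, r ≤ base → s5 r = s4 r := fun r hr =>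
      Cmd.frame (wr_rep (by omega) (by omega) (hstepwr r (Or.inl (by omega))) D x0 (by omega)) _
    have s5st : s5 e.st = [] := hrel.1
    have s5k1 : s5 (e.reg tm.k₁) = blk (e.idx tm.k₁ (M.outputAlphabet.invFun (χ a))) ++ [] := by
      have h1 := (hrel.2 tm.k₁).1
      have h2 : c1.stk tm.k₁ = [M.outputAlphabet.invFun (χ a)] :=
        haltList_stk_self tm _
      rw [h1, h2]
      simp [Enc.stk]
    have hmem : (⟨tm.k₁, M.outputAlphabet.invFun (χ a)⟩ : Σ k, tm.Γ k) ∈ e.L := by
      have h1 := (hrel.2 tm.k₁).2
      have h2 : c1.stk tm.k₁ = [M.outputAlphabet.invFun (χ a)] :=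
        haltList_stk_self tm _
      exact h1 _ (by rw [h2]; simp)
    have s5k : ∀ k, k ≠ tm.k₁ → s5 (e.reg k) = [] := by
      intro k hk
      have h1 := (hrel.2 k).1
      have h2 : c1.stk k = [] := haltList_stk_ne tm _ hk
      rw [h1, h2]; rfl
    have l6 : (Cmd.clear N).LB L s5 := Cmd.LB_clear (by rw [s5N, hwl])
    have e6 : (Cmd.clear N).eval s5 = update s5 N [] := Cmd.eval_clear _ _
    set s6 := update s5 N [] with hs6
    have s6k1 : s6 (e.reg tm.k₁) = blk (e.idx tm.k₁ (M.outputAlphabet.invFun (χ a))) ++ [] := by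
      rw [hs6, update_of_ne (regne _ _ (Or.inl (by omega))), s5k1]
    have e7 : out.eval s6 =
        if χ a then update (update s6 (e.reg tm.k₁) []) base [true]
        else update s6 (e.reg tm.k₁) [] := by
      have h1 := eval_symTree (e.reg tm.k₁) (e.L.map fun p =>
        open Classical in
        if dec tm.k₁ p = some (M.outputAlphabet.invFun true) then Cmd.push base true
        else Cmd.nop)
        (e.idx tm.k₁ (M.outputAlphabet.invFun (χ a))) _ _ s6
        (by rw [List.getElem?_map, e.get_idx hmem]; rfl) s6k1
      rw [hout, h1]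
      dsimp only
      rw [dec_self]
      have hb : (update s6 (e.reg tm.k₁) []) base = [] := by
        rw [update_of_ne (regne _ _ (Or.inl (by omega))).symm, hs6, update_of_ne (by omega),
          s5lt base le_rfl, s4b]
      cases hχ : χ a
      · have : some (M.outputAlphabet.invFun false) ≠ some (M.outputAlphabet.invFun true) := by
          intro h
          have := M.outputAlphabet.symm.injective (Option.some.inj h)
          exact absurd this (by simp)
        rw [if_neg this]
        simp
      · rw [if_pos rfl]
        simp [hb]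
    refine ⟨⟨l1, ?_⟩, ?_⟩
    · rw [e1]
      refine ⟨Cmd.LB_pushL _ _ _ _, ?_⟩
      rw [e2]
      refine ⟨l3, ?_⟩
      rw [e3]
      refine ⟨Cmd.LB_pushL _ _ _ _, ?_⟩
      rw [e4]
      refine ⟨l5, ?_⟩
      exact ⟨l6, noLoop_LB hoknl _ _⟩
    · rw [Cmd.eval_seq, e1, Cmd.eval_seq, e2, Cmd.eval_seq, e3, Cmd.eval_seq, e4,
        Cmd.eval_seq, ← hs5, Cmd.eval_seq, e6, e7]
      have base_eq : update s6 (e.reg tm.k₁) [] = update s base [] := by
        funext r
        rcases lt_trichotomy r base with hr | hr | hr
        · rw [update_of_ne (regne _ _ (Or.inl (by omega))).symm, hs6, update_of_ne (by omega),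
            s5lt r hr.le, s4lt r hr, update_of_ne (by omega)]
        · subst hr
          rw [update_of_ne (regne _ _ (Or.inl (by omega))).symm, hs6, update_of_ne (by omega),
            s5lt r le_rfl, s4b, update_self]
        · rw [update_of_ne (by omega : r ≠ base), hs r hr]
          by_cases hk : r = e.reg tm.k₁
          · rw [hk, update_self]
          · rw [update_of_ne hk, hs6]
            by_cases hrN : r = N
            · rw [hrN, update_self]
            · rw [update_of_ne hrN]
              by_cases hrt : r = t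
              · rw [hrt]; exact s5t
              · by_cases hrs : r = e.st
                · rw [hrs]; exact s5st
                · by_cases hrx : x0 ≤ r
                  · exact s5ge r hrx
                  · obtain ⟨k, rfl⟩ := esurj r (by omega) (by omega)
                    exact s5k k (fun h => hk (by rw [h]))
      rw [base_eq]
      cases χ a
      · rfl
      · simp

end Pool.Agent.Helper9.TM2Sim
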