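import Pool.Agent.Helper9.FlatSim

/-!
Polynomial time functions given by Turing machines of Mathlib as programs of the internal
language.
-/

namespace Pool.Agent.Helper9.TM2Sim

open Function Turing Computability StateTransition Pool.Agent.Helper72

theorem eval_length {c : Cmd} (hok : c.ok = true) (s : St) (r : ℕ) :
    (c.eval s r).length ≤ (s r).length + c.time s := by
  have h1 := Cmd.comp_run (P := c.comp 0 c.size) (a := 0) (e := c.size) hok (codeAt_self _) s
  have h2 := fstep_iter_length (c.comp 0 c.size) (c.time s) (0, s) r
  rw [h1] at h2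
  exact h2

theorem wr_decodeCmd {K : Type} {Γ : K → Type} {Λ σ : Type} (e : Enc Γ Λ σ) {R C V x : ℕ} {k : K}
    (x1 : Γ k) (h0 : x ≠ R) (h1 : x ≠ C) (h2 : x ≠ V) : (decodeCmd e R C V k x1).wr x = false := by
  simp [decodeCmd, Cmd.wr, wr_symOut e k x1 h1 h2, h0, h1]

theorem exists_funCmd {α : Type} (ea : α → List Bool) (h : α → List Bool)
    (H : Nonempty (TM2ComputableInPolyTime ea (id : List Bool → List Bool) h)) (base : ℕ) :
    ∃ (c : Cmd) (T : ℕ → ℕ), PB T ∧ Monotone T ∧ c.ok = true ∧ (∀ x < base, c.wr x = false) ∧
      ∀ (a : α) (s : St), (∀ r, base < r → s r = []) → s base = ea a →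
        c.LB (T (ea a).length) s ∧ c.eval s = update s base (h a) := by
  obtain ⟨M⟩ := H
  set tm := M.tm with htm
  obtain ⟨A, D, hAD⟩ := poly_le M.time
  obtain ⟨e, est, ereg, esurj, esyms, ein⟩ := exists_enc tm (base + 3)
  set κ := cardK tm with hκ
  -- registers
  set N := base + 1 with hN
  set t := base + 2 with ht
  set x0 := base + 4 + κ with hx0
  have regne : ∀ k r, (r ≤ base + 3 ∨ x0 ≤ r) → e.reg k ≠ r := by
    intro k r hr
    have := ereg k
    omega
  have hstepwr : ∀ r, (r < base + 3 ∨ x0 ≤ r) → (stepCmd e tm.m).wr r = false := by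
    intro r hr
    refine wr_stepCmd e (by rw [est]; omega) (fun k => ?_) _
    have := ereg k
    omega
  set g : Bool → List Bool := fun b => blk (e.idx tm.k₀ (M.inputAlphabet.invFun b)) with hg
  set R := e.reg tm.k₁ with hR
  have hRN : R ≠ N := regne _ _ (Or.inl (by omega))
  have hRt : R ≠ t := regne _ _ (Or.inl (by omega))
  have hRb : R ≠ base := regne _ _ (Or.inl (by omega))
  set out : Cmd := .seq (decodeCmd e R N t tm.k₁ (M.outputAlphabet.symm true)) (Cmd.mv t base)
    with hout
  set i0 := e.ei (some tm.main) tm.initialState with hi0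
  have hNt : N ≠ t := by omega
  have hrepok : (rep N t (stepCmd e tm.m) D x0).ok = true :=
      ok_rep hNt (by omega) (by omega) (noLoop_ok (noLoop_stepCmd e _))
        (fun r hr => hstepwr r (Or.inr hr)) D x0 le_rfl
  have houtok : out.ok = true := by
    have h1 : (decodeCmd e R N t tm.k₁ (M.outputAlphabet.symm true)).ok = true :=
      ok_decodeCmd e _ hRN hRt
    have h2 : (Cmd.mv t base).ok = true := Cmd.ok_mv.2 (by omega)
    simp only [hout, Cmd.ok, h1, h2, Bool.and_self]
  have houtwr : ∀ x < base, out.wr x = false := by
    intro x hx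
    have h1 : (decodeCmd e R N t tm.k₁ (M.outputAlphabet.symm true)).wr x = false :=
      wr_decodeCmd e _ (regne _ _ (Or.inl (by omega))).symm (by omega) (by omega)
    have h2 : (Cmd.mv t base).wr x = false := by simp [Cmd.mv, Cmd.wr]; omega
    simp only [hout, Cmd.wr, h1, h2, Bool.or_self]
  set Cg := (g false).length + (g true).length with hCg
  set rp := rep N t (stepCmd e tm.m) D x0 with hrp
  set T : ℕ → ℕ := fun n => n * Cg + (n + A) + rp.tb (n + A) with hT
  refine ⟨.seq (Cmd.mv2 base N t) (.seq (Cmd.pushL N (un A)) (.seq (conv t (e.reg tm.k₀) g)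
    (.seq (Cmd.pushL e.st (un i0)) (.seq rp
    (.seq (Cmd.clear N) out))))), T, ?_, ?_, ?_, ?_, ?_⟩
  · exact ((PB.id.mul (PB.const Cg)).add (PB.id.add (PB.const A))).add
      ((PB.tb rp).comp (PB.id.add (PB.const A)))
  · intro a b hab
    have h1 := rp.tb_mono (Nat.add_le_add_right hab A)
    have h2 : a * Cg ≤ b * Cg := Nat.mul_le_mul_right _ hab
    simp only [hT]
    omega
  · -- ok
    have h1 : (Cmd.mv2 base N t).ok = true := Cmd.ok_mv2.2 ⟨by omega, by omega⟩
    have h2 : (conv t (e.reg tm.k₀) g).ok = true :=
      ok_conv g (regne _ _ (Or.inl (by omega))).symm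
    simp [Cmd.ok, h1, h2, hrepok, houtok]
  · -- writes
    intro x hx
    have h1 : (Cmd.mv2 base N t).wr x = false := by
      simp [Cmd.mv2, Cmd.wr]; omega
    have h2 : (conv t (e.reg tm.k₀) g).wr x = false :=
      wr_conv g (by omega) (regne _ _ (Or.inl (by omega))).symm
    have h3 : rp.wr x = false :=
      wr_rep (by omega) (by omega) (hstepwr x (Or.inl (by omega))) D x0 (by omega)
    have h4 : (Cmd.pushL N (un A)).wr x = false := Cmd.wr_pushL _ (by omega)
    have h5 : (Cmd.pushL e.st (un i0)).wr x = false := Cmd.wr_pushL _ (by omega)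
    have h6 : (Cmd.clear N).wr x = false := by simp [Cmd.clear, Cmd.wr]; omega
    simp only [Cmd.wr, h1, h2, h3, h4, h5, h6, houtwr x hx, Bool.or_self]
  · intro a s hs hsb
    set X := ea a with hX
    set Y := h a with hY
    set L := T X.length with hL
    have hLn : X.length + A ≤ L := by simp only [hL, hT]; omega
    have sN : s N = [] := hs _ (by omega)
    have st' : s t = [] := hs _ (by omega)
    have e1 : (Cmd.mv2 base N t).eval s =
        update (update (update s base []) N X.reverse) t X.reverse := by
      rw [Cmd.eval_mv2 (by omega) (by omega) hNt, sN, st', hsb, List.append_nil]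
    have l1 : (Cmd.mv2 base N t).LB L s :=
      Cmd.LB_mv2 (by omega) (by omega) hNt (by rw [hsb]; omega)
    set s1 := update (update (update s base []) N X.reverse) t X.reverse with hs1
    set w := un A ++ X.reverse with hw
    have hwl : w.length = X.length + A := by simp [hw, add_comm]
    have e2 : (Cmd.pushL N (un A)).eval s1 = update s1 N w := by
      rw [Cmd.eval_pushL, hs1, update_of_ne hNt, update_self]
    set s2 := update s1 N w with hs2
    have s2t : s2 t = X.reverse := by rw [hs2, update_of_ne hNt.symm, hs1, update_self]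
    have htk : t ≠ e.reg tm.k₀ := (regne _ _ (Or.inl (by omega))).symm
    have s2k : ∀ k, s2 (e.reg k) = [] := by
      intro k
      have := ereg k
      rw [hs2, update_of_ne (by omega), hs1, update_of_ne (by omega), update_of_ne (by omega),
        update_of_ne (by omega)]
      exact hs _ (by omega)
    have e3 : (conv t (e.reg tm.k₀) g).eval s2 =
        update (update s2 t []) (e.reg tm.k₀) (X.flatMap g) := by
      rw [eval_conv g htk, s2t, List.reverse_reverse, s2k, List.append_nil]
    have l3 : (conv t (e.reg tm.k₀) g).LB L s2 :=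
      LB_conv g htk (by rw [s2t, List.length_reverse]; omega)
    set s3 := update (update s2 t []) (e.reg tm.k₀) (X.flatMap g) with hs3
    have s3st : s3 e.st = [] := by
      rw [hs3, update_of_ne (e.ne _).symm, est, update_of_ne (by omega), hs2,
        update_of_ne (by omega), hs1, update_of_ne (by omega), update_of_ne (by omega),
        update_of_ne (by omega)]
      exact hs _ (by omega)
    have e4 : (Cmd.pushL e.st (un i0)).eval s3 = update s3 e.st (un i0) := by
      rw [Cmd.eval_pushL, s3st, List.append_nil]
    set s4 := update s3 e.st (un i0) with hs4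
    -- properties of s4
    have s4N : s4 N = w := by
      rw [hs4, update_of_ne (by omega), hs3,
        update_of_ne (regne _ _ (Or.inl (by omega))).symm, update_of_ne hNt, hs2, update_self]
    have s4t : s4 t = [] := by
      rw [hs4, update_of_ne (by omega), hs3, update_of_ne htk, update_self]
    have s4b : s4 base = [] := by
      rw [hs4, update_of_ne (by omega), hs3,
        update_of_ne (regne _ _ (Or.inl (by omega))).symm, update_of_ne (by omega), hs2,
        update_of_ne (by omega), hs1, update_of_ne (by omega), update_of_ne (by omega),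
        update_self]
    have s4lt : ∀ r < base, s4 r = s r := by
      intro r hr
      rw [hs4, update_of_ne (by omega), hs3,
        update_of_ne (regne _ _ (Or.inl (by omega))).symm, update_of_ne (by omega), hs2,
        update_of_ne (by omega), hs1, update_of_ne (by omega), update_of_ne (by omega),
        update_of_ne (by omega)]
    have s4ge : ∀ r, x0 ≤ r → s4 r = [] := by
      intro r hr
      rw [hs4, update_of_ne (by omega), hs3,
        update_of_ne (regne _ _ (Or.inr hr)).symm, update_of_ne (by omega), hs2,
        update_of_ne (by omega), hs1, update_of_ne (by omega), update_of_ne (by omega),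
        update_of_ne (by omega)]
      exact hs _ (by omega)
    have s4R : (s4 R).length ≤ X.length * Cg := by
      have hflat : (X.flatMap g).length ≤ X.length * Cg := by
        rw [List.length_flatMap]
        have h2 : ∀ l : List Bool, (l.map fun x => (g x).length).sum ≤ l.length * Cg := by
          intro l
          induction l with
          | nil => simp
          | cons z l ih =>
            have h3 : (g z).length ≤ Cg := by
              cases z <;> simp [hCg]
            simp only [List.length_cons, List.map_cons, List.sum_cons]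
            rw [add_mul, one_mul]
            omega
        exact h2 X
      rw [hs4, update_of_ne (e.ne _), hs3]
      by_cases hk : tm.k₁ = tm.k₀
      · rw [hk, update_self]
        exact hflat
      · rw [update_of_ne (e.inj.ne hk), update_of_ne hRt, s2k]
        simp
    set c0 : TM2.Cfg tm.Γ tm.Λ tm.σ := initList tm (X.map M.inputAlphabet.invFun) with hc0
    have s4rel : e.Rel c0 s4 := by
      refine ⟨by rw [hs4, update_self]; rfl, fun k => ?_⟩
      rw [hs4, update_of_ne (e.ne _), hs3]
      by_cases hk : k = tm.k₀
      · subst hk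
        rw [update_self]
        have h1 : c0.stk tm.k₀ = X.map M.inputAlphabet.invFun :=
          initList_stk_self tm (X.map M.inputAlphabet.invFun)
        rw [h1]
        refine ⟨?_, fun x _ => ein x⟩
        rw [Enc.stk, List.flatMap_map]
      · have h1 : c0.stk k = [] := initList_stk_ne tm _ hk
        rw [h1, update_of_ne (e.inj.ne hk), update_of_ne (by
          have := ereg k; omega), s2k k]
        exact ⟨rfl, by simp⟩
    -- the run
    obtain ⟨⟨⟨steps, hsteps⟩, hle⟩⟩ : Nonempty (TM2OutputsInTime tm
      (List.map M.inputAlphabet.invFun X)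
      (some (List.map M.outputAlphabet.invFun Y)) (M.time.eval X.length)) :=
      ⟨M.outputsFun a⟩
    set c1 : TM2.Cfg tm.Γ tm.Λ tm.σ :=
      haltList tm (List.map M.outputAlphabet.invFun Y) with hc1
    have hrun : (tstep tm.m)^[steps] c0 = c1 := run_getD (TM2.step tm.m) steps c0 c1 hsteps
    have hrun2 : (tstep tm.m)^[(X.length + A) ^ D] c0 = c1 :=
      tstep_iter_of_le tm.m hrun rfl (hle.trans (hAD _))
    have hrep := fun L' (hL' : X.length + A ≤ L') =>
      rep_run (N := N) (t := t) (body := stepCmd e tm.m) (L := L')
      (Inv := fun j s => e.Rel ((tstep tm.m)^[j] c0) s ∧ s N = w ∧ s t = [])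
      (n := X.length + A) (w := w) (x0 := x0) hNt hwl hL' (by omega) (by omega)
      (fun j s h => h.2)
      (by
        rintro j s r l hr ⟨⟨h1, h2⟩, h3, h4⟩
        refine ⟨⟨?_, fun k => ?_⟩, ?_, ?_⟩
        · rw [update_of_ne (by omega)]; exact h1
        · rw [update_of_ne (regne _ _ (Or.inr hr))]; exact h2 k
        · rw [update_of_ne (by omega)]; exact h3
        · rw [update_of_ne (by omega)]; exact h4)
      (by
        rintro j s ⟨h1, h2, h3⟩
        refine ⟨⟨?_, ?_, ?_⟩, noLoop_LB (noLoop_stepCmd e _) _ _⟩
        · rw [iterate_succ_apply']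
          exact stepCmd_rel e tm.m esyms _ _ h1
        · rw [Cmd.frame (hstepwr N (Or.inl (by omega))), h2]
        · rw [Cmd.frame (hstepwr t (Or.inl (by omega))), h3])
      (fun r hr => hstepwr r (Or.inr hr)) D x0 0 s4 le_rfl ⟨s4rel, s4N, s4t⟩ s4ge
    obtain ⟨l5', -⟩ := hrep (X.length + A) le_rfl
    obtain ⟨l5, ⟨hrel, s5N, s5t⟩, s5ge⟩ := hrep L hLn
    rw [← hrp] at l5' l5 hrel s5N s5t s5ge
    set s5 := rp.eval s4 with hs5
    rw [zero_add, hrun2] at hrel
    have s5lt : ∀ r, r ≤ base → s5 r = s4 r := fun r hr =>
      Cmd.frame (wr_rep (by omega) (by omega) (hstepwr r (Or.inl (by omega))) D x0 (by omega)) _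
    have s5st : s5 e.st = [] := hrel.1
    have hk1 : c1.stk tm.k₁ = Y.map M.outputAlphabet.symm := haltList_stk_self tm _
    have s5k1 : s5 R = e.stk tm.k₁ (Y.map M.outputAlphabet.symm) := by
      have h1 := (hrel.2 tm.k₁).1
      rw [hk1] at h1
      exact h1
    have hmem : ∀ z ∈ Y.map M.outputAlphabet.symm, (⟨tm.k₁, z⟩ : Σ k, tm.Γ k) ∈ e.L := by
      have h1 := (hrel.2 tm.k₁).2
      rw [hk1] at h1
      exact h1
    have s5k : ∀ k, k ≠ tm.k₁ → s5 (e.reg k) = [] := by
      intro k hk
      have h1 := (hrel.2 k).1
      have h2 : c1.stk k = [] := haltList_stk_ne tm _ hk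
      rw [h1, h2]; rfl
    have s5Rlen : (s5 R).length ≤ L := by
      have h1 := eval_length hrepok s4 R
      have h2 : rp.time s4 ≤ rp.tb (X.length + A) := Cmd.time_le_tb l5'
      rw [← hs5] at h1
      simp only [hL, hT]
      omega
    have hYlen : Y.length ≤ (s5 R).length := by
      rw [s5k1, Enc.stk, List.length_flatMap]
      have h2 : ∀ l : List (tm.Γ tm.k₁), l.length ≤
          (l.map fun x => (blk (e.idx tm.k₁ x)).length).sum := by
        intro l
        induction l with
        | nil => simp
        | cons z l ih =>
          have h3 : 1 ≤ (blk (e.idx tm.k₁ z)).length := by simp [blk]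
          simp only [List.length_cons, List.map_cons, List.sum_cons]
          omega
      have := h2 (Y.map M.outputAlphabet.symm)
      simpa using this
    have l6 : (Cmd.clear N).LB L s5 := Cmd.LB_clear (by rw [s5N, hwl]; exact hLn)
    have e6 : (Cmd.clear N).eval s5 = update s5 N [] := Cmd.eval_clear _ _
    set s6 := update s5 N [] with hs6
    have s6R : s6 R = e.stk tm.k₁ (Y.map M.outputAlphabet.symm) := by
      rw [hs6, update_of_ne hRN, s5k1]
    have s6N : s6 N = [] := by rw [hs6, update_self]
    have s6t : s6 t = [] := by rw [hs6, update_of_ne hNt.symm, s5t]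
    have e7 : (decodeCmd e R N t tm.k₁ (M.outputAlphabet.symm true)).eval s6 =
        update (update s6 R []) t Y.reverse := by
      rw [eval_decodeCmd e M.outputAlphabet hRN hRt hNt Y s6 s6N s6R hmem, s6t, List.append_nil]
    have e8 : out.eval s6 = update (update s6 R []) base Y := by
      rw [hout, Cmd.eval_seq, e7, Cmd.eval_mv (by omega)]
      rw [update_self, List.reverse_reverse, update_of_ne (by omega : base ≠ t),
        update_of_ne hRb.symm]
      have h1 : s6 base = [] := by
        rw [hs6, update_of_ne (by omega), s5lt base le_rfl, s4b]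
      rw [h1, List.append_nil]
      funext r
      by_cases h2 : r = base
      · subst h2; simp
      · rw [update_of_ne h2, update_of_ne h2]
        by_cases h3 : r = t
        · subst h3
          rw [update_self, update_of_ne hRt.symm, s6t]
        · rw [update_of_ne h3, update_of_ne h3]
    have l7 : out.LB L s6 := by
      refine ⟨LB_decodeCmd e _ (by rw [s6R, ← s5k1]; exact s5Rlen), ?_⟩
      rw [e7]
      refine Cmd.LB_mv (by omega) ?_
      rw [update_self, List.length_reverse]
      omega
    refine ⟨⟨l1, ?_⟩, ?_⟩
    · rw [e1]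
      refine ⟨Cmd.LB_pushL _ _ _ _, ?_⟩
      rw [e2]
      refine ⟨l3, ?_⟩
      rw [e3]
      refine ⟨Cmd.LB_pushL _ _ _ _, ?_⟩
      rw [e4]
      refine ⟨l5, ?_⟩
      refine ⟨l6, ?_⟩
      rw [← hs5, e6]
      exact l7
    · rw [Cmd.eval_seq, e1, Cmd.eval_seq, e2, Cmd.eval_seq, e3, Cmd.eval_seq, e4,
        Cmd.eval_seq, ← hs5, Cmd.eval_seq, e6, e8]
      funext r
      rcases lt_trichotomy r base with hr | hr | hr
      · have hrb : r ≠ base := by omega
        have hrR : r ≠ R := (regne _ _ (Or.inl (by omega))).symm
        rw [update_of_ne hrb, update_of_ne hrR, hs6, update_of_ne (by omega : r ≠ N),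
          s5lt r hr.le, s4lt r hr, update_of_ne hrb]
      · subst hr
        rw [update_self, update_self]
      · rw [update_of_ne (by omega : r ≠ base), update_of_ne (by omega : r ≠ base), hs r hr]
        by_cases hk : r = R
        · rw [hk, update_self]
        · rw [update_of_ne hk, hs6]
          by_cases hrN : r = N
          · rw [hrN, update_self]
          · rw [update_of_ne hrN]
            by_cases hrt : r = t
            · rw [hrt]; exact s5t
            · by_cases hrs : r = e.st
              · rw [hrs]; exact s5st
              · by_cases hrx : x0 ≤ r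
                · exact s5ge r hrx
                · obtain ⟨k, rfl⟩ := esurj r (by omega) (by omega)
                  exact s5k k (fun h => hk (by rw [h]))

end Pool.Agent.Helper9.TM2Sim
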