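import Pool.Agent.Helper9.DecCmd
import Pool.Agent.Helper72.Flat

/-!
Every Turing machine of Mathlib is simulated by flat code with polynomial overhead.
-/

namespace Pool.Agent.Helper9.TM2Sim

open Function Turing Computability StateTransition Pool.Agent.Helper72

theorem loopLB_of_forall {f : Bool → St → St} {p : Bool → St → Prop} {r : ℕ}
    (hp : ∀ b s, p b s) : ∀ (l : List Bool) (s : St), loopLB f p r l s
  | [], _ => trivial
  | _ :: l, _ => ⟨hp _ _, loopLB_of_forall hp l _⟩

/-! ### lengths -/

theorem fstep_length (P : List Instr) (c : ℕ × St) (r : ℕ) :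
    ((fstep P c).2 r).length ≤ (c.2 r).length + 1 := by
  unfold fstep
  split
  · omega
  · next i _ =>
    cases i with
    | push r' b n =>
      simp only [Instr.exec]
      by_cases h : r = r'
      · subst h; simp
      · rw [update_of_ne h]; omega
    | pop r' n =>
      simp only [Instr.exec]
      by_cases h : r = r'
      · subst h; simp; omega
      · rw [update_of_ne h]; omega
    | test r' n0 n1 n2 =>
      simp only [Instr.exec]; omega

theorem fstep_iter_length (P : List Instr) (n : ℕ) (c : ℕ × St) (r : ℕ) :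
    (((fstep P)^[n] c).2 r).length ≤ (c.2 r).length + n := by
  induction n with
  | zero => simp
  | succ n ih =>
    rw [iterate_succ_apply']
    have := fstep_length P ((fstep P)^[n] c) r
    omega

/-! ### decoding the output -/

section

variable {K : Type} {Γ : K → Type} {Λ σ : Type} (e : Enc Γ Λ σ)

/-- decode the symbol whose number is in the register `C` and push the letter onto `V` -/
noncomputable def symOut (C V : ℕ) (k : K) (x1 : Γ k) : Cmd :=
  stTree C (e.L.map fun p =>
    open Classical in if dec k p = some x1 then Cmd.push V true else Cmd.push V false)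

theorem noLoop_symOut (C V : ℕ) (k : K) (x1 : Γ k) : noLoop (symOut e C V k x1) = true := by
  apply noLoop_stTree
  intro c hc
  obtain ⟨p, -, rfl⟩ := List.mem_map.1 hc
  split <;> rfl

theorem wr_symOut {C V x : ℕ} (k : K) (x1 : Γ k) (h1 : x ≠ C) (h2 : x ≠ V) :
    (symOut e C V k x1).wr x = false := by
  apply wr_stTree h1
  intro c hc
  obtain ⟨p, -, rfl⟩ := List.mem_map.1 hc
  split <;> simp [Cmd.wr, h2]

theorem eval_symOut {C V : ℕ} {k : K} (out : Γ k ≃ Bool) (hCV : C ≠ V) {s : St} {b : Bool}
    (hmem : (⟨k, out.symm b⟩ : Σ k, Γ k) ∈ e.L) (hs : s C = un (e.idx k (out.symm b))) :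
    (symOut e C V k (out.symm true)).eval s = update (update s C []) V (b :: s V) := by
  have h1 := eval_stTree C (e.L.map fun p =>
    open Classical in if dec k p = some (out.symm true) then Cmd.push V true else Cmd.push V false)
    (e.idx k (out.symm b)) _ s (by rw [List.getElem?_map, e.get_idx hmem]; rfl) hs
  rw [symOut, h1]
  dsimp only
  rw [dec_self]
  cases b
  · have : some (out.symm false) ≠ some (out.symm true) := by
      intro h
      have := out.symm.injective (Option.some.inj h)
      exact absurd this (by simp)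
    rw [if_neg this, Cmd.eval_push, update_of_ne hCV.symm]
  · rw [if_pos rfl, Cmd.eval_push, update_of_ne hCV.symm]

/-- decode the stack in register `R`, pushing the letters onto `V` -/
noncomputable def decodeCmd (R C V : ℕ) (k : K) (x1 : Γ k) : Cmd :=
  .loop R (symOut e C V k x1) (Cmd.push C true)

theorem decode_block {R C V : ℕ} (k : K) (x1 : Γ k) (hRC : R ≠ C) :
    ∀ (i : ℕ) (rest : List Bool) (s : St) (j : ℕ), s C = un j →
    loopEval (fun b => if b then (Cmd.push C true).eval else (symOut e C V k x1).eval) R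
      (un i ++ false :: rest) s =
    loopEval (fun b => if b then (Cmd.push C true).eval else (symOut e C V k x1).eval) R rest
      ((symOut e C V k x1).eval (update (update s C (un (i + j))) R rest))
  | 0, rest, s, j, hs => by
    have h1 : update s C (un (0 + j)) = s := by
      rw [zero_add, ← hs, update_eq_self]
    rw [h1]
    rfl
  | i + 1, rest, s, j, hs => by
    have h0 : un (i + 1) ++ false :: rest = true :: (un i ++ false :: rest) := rfl
    rw [h0, loopEval]
    simp only [if_true]
    rw [Cmd.eval_push, update_of_ne hRC.symm, hs]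
    rw [decode_block k x1 hRC i rest _ (j + 1) (by rw [update_self]; rfl)]
    congr 2
    funext r
    by_cases h1 : r = R
    · subst h1; simp
    · by_cases h2 : r = C
      · subst h2
        rw [update_of_ne h1, update_self, update_of_ne h1, update_self]
        congr 1
        omega
      · simp [h1, h2]

theorem decode_loop {R C V : ℕ} {k : K} (out : Γ k ≃ Bool) (hRC : R ≠ C) (hRV : R ≠ V)
    (hCV : C ≠ V) : ∀ (x : List Bool) (s : St), s C = [] →
    s R = e.stk k (x.map out.symm) → (∀ y ∈ x.map out.symm, (⟨k, y⟩ : Σ k, Γ k) ∈ e.L) →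
    loopEval (fun b => if b then (Cmd.push C true).eval
      else (symOut e C V k (out.symm true)).eval) R (e.stk k (x.map out.symm)) s =
      update (update s R []) V (x.reverse ++ s V)
  | [], s, hC, hR, _ => by
    have h1 : s R = [] := hR
    show s = _
    have h2 : update s R [] = s := by rw [← h1, update_eq_self]
    rw [h2]
    simp
  | b :: x, s, hC, hR, hL => by
    have hmem : (⟨k, out.symm b⟩ : Σ k, Γ k) ∈ e.L := hL _ (by simp)
    rw [List.map_cons, e.stk_cons]
    have h0 : blk (e.idx k (out.symm b)) ++ e.stk k (x.map out.symm) =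
        un (e.idx k (out.symm b)) ++ false :: e.stk k (x.map out.symm) := by simp [blk]
    rw [h0, decode_block e k _ hRC _ _ s 0 hC]
    have h3 : (update (update s C (un (e.idx k (out.symm b) + 0))) R (e.stk k (x.map out.symm))) C
        = un (e.idx k (out.symm b)) := by
      rw [update_of_ne hRC.symm, update_self]; simp
    rw [eval_symOut e out hCV hmem h3]
    rw [decode_loop out hRC hRV hCV x _ (by
        rw [update_of_ne hCV, update_self]) (by
        rw [update_of_ne hRV, update_of_ne hRC, update_self])
        (fun y hy => hL y (by simp only [List.map_cons, List.mem_cons]; exact Or.inr hy))]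
    funext r
    by_cases h1 : r = V
    · subst h1
      simp [hRV.symm, hCV.symm]
    · by_cases h2 : r = R
      · subst h2; simp [hRV]
      · by_cases h4 : r = C
        · subst h4; simp [h1, h2, hC]
        · simp [h1, h2, h4]

theorem eval_decodeCmd {R C V : ℕ} {k : K} (out : Γ k ≃ Bool) (hRC : R ≠ C) (hRV : R ≠ V)
    (hCV : C ≠ V) (x : List Bool) (s : St) (hC : s C = [])
    (hR : s R = e.stk k (x.map out.symm))
    (hL : ∀ y ∈ x.map out.symm, (⟨k, y⟩ : Σ k, Γ k) ∈ e.L) :
    (decodeCmd e R C V k (out.symm true)).eval s = update (update s R []) V (x.reverse ++ s V) := by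
  rw [decodeCmd, Cmd.eval, hR]
  exact decode_loop e out hRC hRV hCV x s hC hR hL

theorem LB_decodeCmd {R C V L : ℕ} {k : K} (x1 : Γ k) {s : St} (h : (s R).length ≤ L) :
    (decodeCmd e R C V k x1).LB L s := by
  refine ⟨h, loopLB_of_forall (fun b s => ?_) _ _⟩
  cases b
  · exact noLoop_LB (noLoop_symOut e C V k x1) L s
  · trivial

theorem ok_decodeCmd {R C V : ℕ} {k : K} (x1 : Γ k) (hRC : R ≠ C) (hRV : R ≠ V) :
    (decodeCmd e R C V k x1).ok = true := by
  simp [decodeCmd, Cmd.ok, wr_symOut e k x1 hRC hRV, Cmd.wr, hRC,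
    noLoop_ok (noLoop_symOut e C V k x1)]

/-! ### the main loop -/

variable [DecidableEq K]

/-- the main loop of the simulation, as flat code -/
theorem main_loop {P : List Instr} {a a3 : ℕ} (m : Λ → TM2.Stmt Γ Λ σ)
    (hm : ∀ l, ∀ p ∈ syms (m l), p ∈ e.L)
    (htest : P[a]? = some (.test e.st a3 (a + 1) (a + 1)))
    (hstep : CodeAt P (a + 1) ((stepCmd e m).comp (a + 1) a)) :
    ∀ (n : ℕ) (cfg : TM2.Cfg Γ Λ σ) (s : St), e.Rel cfg s →
      ((tstep m)^[n] cfg).l = none →
      ∃ T ≤ n * (1 + (stepCmd e m).tb 0) + 1, ∃ s', (fstep P)^[T] (a, s) = (a3, s') ∧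
        e.Rel ((tstep m)^[n] cfg) s' ∧ ∀ r, r ≠ e.st → (∀ k, r ≠ e.reg k) → s' r = s r := by
  intro n
  induction n with
  | zero =>
    intro cfg s hrel hl
    refine ⟨1, by omega, s, ?_, hrel, fun r _ _ => rfl⟩
    have h1 : s e.st = [] := by
      rw [hrel.1]
      simp only [iterate_zero, id_eq] at hl
      rw [hl]; rfl
    rw [iterate_one, fstep_some htest]
    simp [Instr.exec, h1]
  | succ n ih =>
    intro cfg s hrel hl
    obtain ⟨l, v, S⟩ := cfg
    cases l with
    | none =>
      refine ⟨1, by omega, s, ?_, ?_, fun r _ _ => rfl⟩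
      · have h1 : s e.st = [] := hrel.1
        rw [iterate_one, fstep_some htest]
        simp [Instr.exec, h1]
      · rw [tstep_iter_halt m rfl]
        exact hrel
    | some l =>
      have h1 : s e.st = true :: un (e.eqv (l, v)).val := hrel.1
      have hrel' := stepCmd_rel e m hm _ s hrel
      rw [iterate_succ_apply] at hl
      obtain ⟨T, hT, s', hrun, hr', hfr⟩ := ih _ _ hrel' hl
      have ht : (stepCmd e m).time s ≤ (stepCmd e m).tb 0 :=
        Cmd.time_le_tb (noLoop_LB (noLoop_stepCmd e m) 0 s)
      refine ⟨T + (stepCmd e m).time s + 1, ?_, s', ?_, ?_, ?_⟩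
      · have : (n + 1) * (1 + (stepCmd e m).tb 0) =
          n * (1 + (stepCmd e m).tb 0) + (1 + (stepCmd e m).tb 0) := by ring
        rw [this]
        omega
      · rw [iterate_add_apply, iterate_one, fstep_some htest, iterate_add_apply]
        have h2 : Instr.exec (.test e.st a3 (a + 1) (a + 1)) s = (a + 1, s) := by
          simp [Instr.exec, h1]
        rw [h2, Cmd.comp_run (noLoop_ok (noLoop_stepCmd e m)) hstep s]
        exact hrun
      · rw [iterate_succ_apply]
        exact hr'
      · intro r h3 h4
        rw [hfr r h3 h4, Cmd.frame (wr_stepCmd e h3 h4 m)]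

end

/-- Every Turing machine of Mathlib is simulated by flat code, with polynomial overhead. -/
theorem exists_flat (M : TM2ComputableAux Bool Bool) :
    ∃ (P : List Instr) (c : ℕ), ∀ y x t, Outputs M y x t →
      ∃ T ≤ c * (t + y.length + 1) ^ c,
        (fstep P)^[T] (0, initSt 0 y) = (P.length, initSt 1 x) := by
  set tm := M.tm with htm
  obtain ⟨e, est, ereg, esurj, esyms, ein⟩ := exists_enc tm 4
  have regne : ∀ k r, r ≤ 4 → e.reg k ≠ r := by
    intro k r hr
    have := ereg k
    omega
  set g : Bool → List Bool := fun b => blk (e.idx tm.k₀ (M.inputAlphabet.invFun b)) with hg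
  set i0 := e.ei (some tm.main) tm.initialState with hi0
  set R := e.reg tm.k₁ with hR
  have hR4 : 4 < R := (ereg _).1
  set ini : Cmd := .seq (Cmd.mv 0 2) (.seq (conv 2 (e.reg tm.k₀) g) (Cmd.pushL e.st (un i0)))
    with hini
  set fin : Cmd := .seq (decodeCmd e R 3 2 tm.k₁ (M.outputAlphabet.symm true)) (Cmd.mv 2 1)
    with hfin
  have okini : ini.ok = true := by
    have h1 : (Cmd.mv 0 2).ok = true := Cmd.ok_mv.2 (by omega)
    have h2 : (conv 2 (e.reg tm.k₀) g).ok = true := ok_conv g (regne _ _ (by omega)).symm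
    simp [hini, Cmd.ok, h1, h2]
  have okfin : fin.ok = true := by
    have h1 : (Cmd.mv 2 1).ok = true := Cmd.ok_mv.2 (by omega)
    have h2 : (decodeCmd e R 3 2 tm.k₁ (M.outputAlphabet.symm true)).ok = true :=
      ok_decodeCmd e (M.outputAlphabet.symm true) (by omega) (by omega)
    simp only [hfin, Cmd.ok, h1, h2, Bool.and_self]
  set a1 := ini.size with ha1
  set stp := stepCmd e tm.m with hstp
  set a3 := a1 + 1 + stp.size with ha3
  set P : List Instr := ini.comp 0 a1 ++ (.test e.st a3 (a1 + 1) (a1 + 1) ::
    (stp.comp (a1 + 1) a1 ++ fin.comp a3 (a3 + fin.size))) with hP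
  have hlen : P.length = a3 + fin.size := by
    simp [hP, ha3, ← ha1]; omega
  have c0 : CodeAt P 0 (ini.comp 0 a1) := (codeAt_self P).left
  have c1' : CodeAt P (0 + (ini.comp 0 a1).length) _ := (codeAt_self P).right
  rw [Cmd.comp_length, zero_add, ← ha1] at c1'
  have ctest := c1'.head
  have cstep := c1'.tail.left
  have cfin := c1'.tail.right
  rw [Cmd.comp_length, show a1 + 1 + stp.size = a3 from rfl] at cfin
  -- the time bound
  set F : ℕ → ℕ := fun n => ini.tb n + (n * (1 + stp.tb 0) + 1) with hF
  set G : ℕ → ℕ := fun n => F n + fin.tb (n + F n) with hG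
  have hFPB : PB F := (PB.tb ini).add ((PB.id.mul (PB.const _)).add (PB.const 1))
  have hGPB : PB G := hFPB.add ((PB.tb fin).comp (PB.id.add hFPB))
  obtain ⟨a, d, had⟩ := hGPB
  refine ⟨P, a + d + 1, ?_⟩
  intro y x t hout
  obtain ⟨⟨⟨steps, hsteps⟩, hle⟩⟩ := hout
  have hle' : steps ≤ t := hle
  set cf0 : TM2.Cfg tm.Γ tm.Λ tm.σ := initList tm (y.map M.inputAlphabet.invFun) with hcf0
  set cf1 : TM2.Cfg tm.Γ tm.Λ tm.σ := haltList tm (x.map M.outputAlphabet.invFun) with hcf1
  have hrun : (tstep tm.m)^[steps] cf0 = cf1 := run_getD (TM2.step tm.m) steps cf0 cf1 hsteps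
  -- initialisation
  set s0 := initSt 0 y with hs0
  have s0ne : ∀ r, r ≠ 0 → s0 r = [] := by
    intro r hr; simp [hs0, initSt, hr]
  have s00 : s0 0 = y := by simp [hs0, initSt]
  have e1 : (Cmd.mv 0 2).eval s0 = update (update s0 0 []) 2 y.reverse := by
    rw [Cmd.eval_mv (by omega), s00, s0ne 2 (by omega), List.append_nil]
  set s1 := update (update s0 0 []) 2 y.reverse with hs1
  have h2k : (2 : ℕ) ≠ e.reg tm.k₀ := (regne _ _ (by omega)).symm
  have s1k : ∀ k, s1 (e.reg k) = [] := by
    intro k
    rw [hs1, update_of_ne (regne _ _ (by omega)), update_of_ne (regne _ _ (by omega))]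
    exact s0ne _ (regne _ _ (by omega))
  have e2 : (conv 2 (e.reg tm.k₀) g).eval s1 =
      update (update s1 2 []) (e.reg tm.k₀) (y.flatMap g) := by
    rw [eval_conv g h2k, s1k, List.append_nil, hs1, update_self, List.reverse_reverse]
  set s2 := update (update s1 2 []) (e.reg tm.k₀) (y.flatMap g) with hs2
  have s2st : s2 e.st = [] := by
    rw [hs2, update_of_ne (e.ne _).symm, est, update_of_ne (by omega), hs1,
      update_of_ne (by omega), update_of_ne (by omega)]
    exact s0ne _ (by omega)
  have e3 : (Cmd.pushL e.st (un i0)).eval s2 = update s2 e.st (un i0) := by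
    rw [Cmd.eval_pushL, s2st, List.append_nil]
  set s3 := update s2 e.st (un i0) with hs3
  have eini : ini.eval s0 = s3 := by
    rw [hini, Cmd.eval_seq, e1, Cmd.eval_seq, e2, e3]
  have LBini : ini.LB y.length s0 := by
    refine ⟨Cmd.LB_mv (by omega) (by rw [s00]), ?_⟩
    rw [e1]
    refine ⟨LB_conv g h2k (by rw [hs1, update_self]; simp), Cmd.LB_pushL _ _ _ _⟩
  have s3rel : e.Rel cf0 s3 := by
    refine ⟨by rw [hs3, update_self]; rfl, fun k => ?_⟩
    rw [hs3, update_of_ne (e.ne _), hs2]
    by_cases hk : k = tm.k₀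
    · subst hk
      rw [update_self]
      have h1 : cf0.stk tm.k₀ = y.map M.inputAlphabet.invFun :=
        initList_stk_self tm (y.map M.inputAlphabet.invFun)
      rw [h1]
      refine ⟨?_, fun x _ => ein x⟩
      rw [Enc.stk, List.flatMap_map]
    · have h1 : cf0.stk k = [] := initList_stk_ne tm _ hk
      rw [h1, update_of_ne (e.inj.ne hk), update_of_ne (regne _ _ (by omega)), s1k k]
      exact ⟨rfl, by simp⟩
  have s3other : ∀ r, r ≠ e.st → (∀ k, r ≠ e.reg k) → s3 r = [] := by
    intro r h1 h2
    rw [hs3, update_of_ne h1, hs2, update_of_ne (h2 _)]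
    by_cases h3 : r = 2
    · rw [h3, update_self]
    · rw [update_of_ne h3, hs1, update_of_ne h3]
      by_cases h4 : r = 0
      · rw [h4, update_self]
      · rw [update_of_ne h4, s0ne r h4]
  have run1 : (fstep P)^[ini.time s0] (0, s0) = (a1, s3) := by
    rw [Cmd.comp_run okini c0, eini]
  have time1 : ini.time s0 ≤ ini.tb y.length := Cmd.time_le_tb LBini
  -- main loop
  obtain ⟨T2, hT2, s4, run2, hrel4, hfr4⟩ := main_loop e tm.m esyms ctest cstep steps cf0 s3
    s3rel (by rw [hrun]; rfl)
  rw [hrun] at hrel4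
  have run12 : (fstep P)^[T2 + ini.time s0] (0, s0) = (a3, s4) := by
    rw [iterate_add_apply, run1, run2]
  have s4other : ∀ r, r ≠ e.st → (∀ k, r ≠ e.reg k) → s4 r = [] := by
    intro r h1 h2
    rw [hfr4 r h1 h2, s3other r h1 h2]
  have s4le : ∀ r, r ≤ 3 → s4 r = [] := fun r hr =>
    s4other r (by omega) (fun k => (regne _ _ (by omega)).symm)
  have s4st : s4 e.st = [] := hrel4.1
  have hk1 : cf1.stk tm.k₁ = x.map M.outputAlphabet.symm := haltList_stk_self tm _
  have s4R : s4 R = e.stk tm.k₁ (x.map M.outputAlphabet.symm) := by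
    have h1 := (hrel4.2 tm.k₁).1
    rw [hk1] at h1
    exact h1
  have hL : ∀ z ∈ x.map M.outputAlphabet.symm, (⟨tm.k₁, z⟩ : Σ k, tm.Γ k) ∈ e.L := by
    have h1 := (hrel4.2 tm.k₁).2
    rw [hk1] at h1
    exact h1
  have s4k : ∀ k, k ≠ tm.k₁ → s4 (e.reg k) = [] := by
    intro k hk
    have h1 := (hrel4.2 k).1
    have h2 : cf1.stk k = [] := haltList_stk_ne tm _ hk
    rw [h1, h2]; rfl
  have e5 : (decodeCmd e R 3 2 tm.k₁ (M.outputAlphabet.symm true)).eval s4 =
      update (update s4 R []) 2 x.reverse := by
    rw [eval_decodeCmd e M.outputAlphabet (by omega) (by omega) (by omega) x s4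
      (s4le 3 (by omega)) s4R hL, s4le 2 (by omega), List.append_nil]
  have e6 : fin.eval s4 = initSt 1 x := by
    rw [hfin, Cmd.eval_seq, e5, Cmd.eval_mv (by omega)]
    funext r
    have h21 : (2 : ℕ) ≠ 1 := by omega
    by_cases h1 : r = 1
    · subst h1
      rw [update_self, update_self, update_of_ne (by omega), update_of_ne (by omega),
        s4le 1 (by omega), List.reverse_reverse, List.append_nil]
      simp [initSt]
    · rw [update_of_ne h1]
      have h0 : initSt 1 x r = [] := by simp [initSt, h1]
      rw [h0]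
      by_cases h2 : r = 2
      · rw [h2, update_self]
      · rw [update_of_ne h2, update_of_ne h2]
        by_cases h3 : r = R
        · rw [h3, update_self]
        · rw [update_of_ne h3]
          by_cases h4 : r = e.st
          · rw [h4, s4st]
          · by_cases h5 : ∃ k, r = e.reg k
            · obtain ⟨k, rfl⟩ := h5
              exact s4k k (fun h => h3 (by rw [h]))
            · exact s4other r h4 (fun k h => h5 ⟨k, h⟩)
  set T1 := T2 + ini.time s0 with hT1
  set m := t + y.length with hm
  have hT1le : T1 ≤ F m := by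
    have h1 : ini.tb y.length ≤ ini.tb m := ini.tb_mono (by omega)
    have h2 : steps * (1 + stp.tb 0) ≤ m * (1 + stp.tb 0) :=
      Nat.mul_le_mul_right _ (by omega)
    have hT2' : T2 ≤ steps * (1 + stp.tb 0) + 1 := hT2
    simp only [hF]
    omega
  have hlen4 : (s4 R).length ≤ m + F m := by
    have h1 := fstep_iter_length P T1 (0, s0) R
    rw [run12] at h1
    simp only at h1
    rw [s0ne R (by omega)] at h1
    simp only [List.length_nil] at h1
    omega
  have LBfin : fin.LB (m + F m) s4 := by
    refine ⟨LB_decodeCmd e _ hlen4, ?_⟩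
    rw [e5]
    refine Cmd.LB_mv (by omega) ?_
    rw [update_self, List.length_reverse]
    have h1 : x.length ≤ (s4 R).length := by
      rw [s4R, Enc.stk, List.length_flatMap]
      have h2 : ∀ l : List (tm.Γ tm.k₁), l.length ≤
          (l.map fun x => (blk (e.idx tm.k₁ x)).length).sum := by
        intro l
        induction l with
        | nil => simp
        | cons z l ih =>
          have h3 : 1 ≤ (blk (e.idx tm.k₁ z)).length := by simp [blk]
          simp only [List.length_cons, List.map_cons, List.sum_cons]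
          omega
      have := h2 (x.map M.outputAlphabet.symm)
      simpa using this
    omega
  have run3 : (fstep P)^[fin.time s4] (a3, s4) = (P.length, initSt 1 x) := by
    rw [Cmd.comp_run okfin cfin, e6, hlen]
  have time3 : fin.time s4 ≤ fin.tb (m + F m) := Cmd.time_le_tb LBfin
  refine ⟨fin.time s4 + T1, ?_, ?_⟩
  · have h1 : fin.time s4 + T1 ≤ G m := by
      simp only [hG]; omega
    refine h1.trans ((had m).trans ?_)
    exact Nat.mul_le_mul (by omega) (Nat.pow_le_pow_right (by omega) (by omega))
  · rw [iterate_add_apply, run12, run3]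

end Pool.Agent.Helper9.TM2Sim
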