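import Mathlib

/-!
Programs with an oracle, Kleene's `O` relative to a real, and functionals clarifying the
class of countable well-orderings.  Reals are elements of the Cantor space `ℕ → Bool`.
-/

namespace Pool.Agent.Helper9.Clar

/-- Cantor space -/
abbrev Cantor := ℕ → Bool

/-- programs for partial functions with an oracle (the programs `Nat.Partrec.Code` of Mathlib
together with a program `oracle` for asking the oracle) -/
inductive OCode
  | zero
  | succ
  | left
  | right
  | oracle
  | pair (f g : OCode)
  | comp (f g : OCode)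
  | prec (f g : OCode)
  | rfind' (f : OCode)

/-- the partial function computed by a program with oracle `x` -/
def OCode.eval (x : Cantor) : OCode → ℕ →. ℕ
  | zero => pure 0
  | succ => Nat.succ
  | left => ↑fun n : ℕ => n.unpair.1
  | right => ↑fun n : ℕ => n.unpair.2
  | oracle => ↑fun n : ℕ => (x n).toNat
  | pair f g => fun n => Nat.pair <$> f.eval x n <*> g.eval x n
  | comp f g => fun n => g.eval x n >>= f.eval x
  | prec f g =>
    Nat.unpaired fun a n =>
      n.rec (f.eval x a) fun y IH => do
        let i ← IH
        g.eval x (Nat.pair a (Nat.pair y i))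
  | rfind' f =>
    Nat.unpaired fun a m =>
      (Nat.rfind fun n => (fun m => m = 0) <$> f.eval x (Nat.pair a (n + m))).map (· + m)

/-- the index (Gödel number) of a program -/
def OCode.index : OCode → ℕ
  | zero => 0
  | succ => 1
  | left => 2
  | right => 3
  | oracle => 4
  | pair f g => 4 * Nat.pair f.index g.index + 5
  | comp f g => 4 * Nat.pair f.index g.index + 6
  | prec f g => 4 * Nat.pair f.index g.index + 7
  | rfind' f => 4 * f.index + 8

mutual

/-- membership in Kleene's `O` relative to the real `x` -/
inductive InO (x : Cantor) : ℕ → Prop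
  | one : InO x 1
  | succ {a : ℕ} : InO x a → InO x (2 ^ a)
  | lim {c : OCode} {f : ℕ → ℕ} (hf : ∀ n, f n ∈ c.eval x n) (hO : ∀ n, InO x (f n))
      (hlt : ∀ n, LtO x (f n) (f (n + 1))) : InO x (3 * 5 ^ c.index)

/-- the order `<_O` relative to the real `x` -/
inductive LtO (x : Cantor) : ℕ → ℕ → Prop
  | succ {a : ℕ} : InO x a → LtO x a (2 ^ a)
  | lim {c : OCode} {f : ℕ → ℕ} (hf : ∀ n, f n ∈ c.eval x n) (hO : ∀ n, InO x (f n))
      (hlt : ∀ n, LtO x (f n) (f (n + 1))) (n : ℕ) : LtO x (f n) (3 * 5 ^ c.index)
  | trans {a b c : ℕ} : LtO x a b → LtO x b c → LtO x a c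

end

/-- the functional `x ↦ O^x` (Kleene's `O` relative to `x`) -/
noncomputable def kleeneO (x : Cantor) : Cantor :=
  open Classical in fun n => decide (InO x n)

/-- the join `x ⊕ y` -/
def join (x y : Cantor) : Cantor := fun n => if n % 2 = 0 then x (n / 2) else y (n / 2)

/-- the total function `f` is Turing computable from the real `y` -/
def ComputableFrom (y : Cantor) (f : ℕ → ℕ) : Prop := ∃ c : OCode, ∀ n, f n ∈ c.eval y n

/-- the binary relation on `ℕ` coded by a real -/
def Rel (x : Cantor) (a b : ℕ) : Prop := x (Nat.pair a b) = true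

/-- The functional `F` clarifies the class of countable well-orderings: whenever `x`, `y` code
isomorphic well-orderings `(ℕ, <_x)`, `(ℕ, <_y)`, some isomorphism between them is computable
from `F x ⊕ F y`. -/
def ClarifiesWO (F : Cantor → Cantor) : Prop :=
  ∀ x y : Cantor, IsWellOrder ℕ (Rel x) → IsWellOrder ℕ (Rel y) → Nonempty (Rel x ≃r Rel y) →
    ∃ i : Rel x ≃r Rel y, ComputableFrom (join (F x) (F y)) i

end Pool.Agent.Helper9.Clar
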