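import Pool.Agent.Helper9.ClarTree

/-!
A functional that clarifies the class of countable well-orderings and to which Kleene's `O`
is not Borel reducible.
-/

namespace Pool.Agent.Helper9.Clar

open MeasureTheory Topology Filter

/-- order type of a code -/
noncomputable def ty (x : Cantor) (hx : IsWellOrder ℕ (Rel x)) : Ordinal.{0} :=
  @Ordinal.type ℕ (Rel x) hx

/-- a chosen copy of the ordinal `α` (if there is one) -/
noncomputable def Lc (α : Ordinal.{0}) : Cantor :=
  open Classical in
  if h : ∃ y : Cantor, ∃ hy : IsWellOrder ℕ (Rel y), ty y hy = α then h.choose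
  else fun _ => false

theorem Lc_spec {α : Ordinal.{0}} (h : ∃ y : Cantor, ∃ hy : IsWellOrder ℕ (Rel y), ty y hy = α) :
    ∃ hy : IsWellOrder ℕ (Rel (Lc α)), ty (Lc α) hy = α := by
  unfold Lc
  rw [dif_pos h]
  exact h.choose_spec

/-- the isomorphism onto the chosen copy -/
noncomputable def isoL (x : Cantor) (hx : IsWellOrder ℕ (Rel x)) :
    Rel x ≃r Rel (Lc (ty x hx)) :=
  haveI := hx
  haveI := (Lc_spec ⟨x, hx, rfl⟩).choose
  Classical.choice (Ordinal.type_eq.1 (Lc_spec ⟨x, hx, rfl⟩).choose_spec.symm)

/-- the functional -/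
noncomputable def FF (x : Cantor) : Cantor :=
  open Classical in
  if hx : IsWellOrder ℕ (Rel x) then fun n => !(decide (isoL x hx n.unpair.1 = n.unpair.2))
  else fun _ => false

/-! ### the functional clarifies well-orderings -/

/-- doubling -/
def dbl : OCode := .comp (.prec .zero (.comp (.comp .succ .succ) (.comp .right .right)))
  (.pair .zero (.pair .left .right))

theorem eval_dbl (x : Cantor) (n : ℕ) : dbl.eval x n = Part.some (2 * n) := by
  have h1 : (OCode.pair .zero (.pair .left .right)).eval x n = Part.some (Nat.pair 0 n) := by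
    show Nat.pair <$> OCode.eval x .zero n <*> (OCode.pair .left .right).eval x n = _
    rw [eval_id]
    simp [OCode.eval, Seq.seq, pure, PFun.pure]
  have h2 : ∀ m, (OCode.comp (.comp .succ .succ) (.comp .right .right)).eval x m =
      Part.some (m.unpair.2.unpair.2 + 2) := by
    intro m
    simp [OCode.eval]
  show ((OCode.pair .zero (.pair .left .right)).eval x n >>= OCode.eval x (.prec _ _)) = _
  rw [h1]
  simp only [Part.bind_eq_bind, Part.bind_some]
  simp only [OCode.eval, Nat.unpaired, Nat.unpair_pair]
  induction n with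
  | zero => rfl
  | succ n ih =>
    simp only
    rw [ih (by
      show Nat.pair <$> OCode.eval x .zero n <*> (OCode.pair .left .right).eval x n = _
      rw [eval_id]
      simp [OCode.eval, Seq.seq, pure, PFun.pure])]
    have h3 := h2 (Nat.pair 0 (Nat.pair n (2 * n)))
    simp only [OCode.eval] at h3
    simp only [Part.bind_eq_bind, Part.bind_some]
    simp only [Part.bind_eq_bind] at h3
    rw [h3]
    simp
    ring

/-- unbounded search -/
def search (q : OCode) : OCode := .comp (.rfind' q) (.pair (.pair .left .right) .zero)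

theorem search_spec {x : Cantor} {q : OCode} {n v : ℕ} {b : ℕ → Bool}
    (hq : ∀ k, q.eval x (Nat.pair n k) = Part.some (b k).toNat) (hv : b v = false)
    (hu : ∀ k, b k = false → k = v) : v ∈ (search q).eval x n := by
  have h4 : (OCode.pair (.pair .left .right) .zero).eval x n = Part.some (Nat.pair n 0) := by
    show Nat.pair <$> (OCode.pair .left .right).eval x n <*> OCode.eval x .zero n = _
    rw [eval_id]
    simp [OCode.eval, Seq.seq, pure, PFun.pure]
  have h3 : (search q).eval x n = Nat.rfind fun k =>
      (fun m => m = 0) <$> (Part.some (b k).toNat : Part ℕ) := by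
    show ((OCode.pair (.pair .left .right) .zero).eval x n >>= OCode.eval x (.rfind' _)) = _
    rw [h4]
    simp only [Part.bind_eq_bind, Part.bind_some]
    simp only [OCode.eval, Nat.unpaired, Nat.unpair_pair, Nat.add_zero]
    have h5 : ∀ p : Part ℕ, p.map (fun k => k) = p := by
      intro p; exact Part.map_id' (fun _ => rfl) p
    rw [h5]
    congr 1
    funext k
    rw [hq k]
  rw [h3, Nat.mem_rfind]
  simp only [Part.map_eq_map, Part.map_some, Part.mem_some_iff]
  refine ⟨by simp [hv], ?_⟩
  intro m hm
  have : b m = true := by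
    by_contra h6
    have := hu m (by simpa using h6)
    omega
  simp [this]

/-- change of the name of an ordinal -/
noncomputable def castIso {α β : Ordinal.{0}} (h : α = β) : Rel (Lc α) ≃r Rel (Lc β) :=
  h ▸ RelIso.refl _

theorem castIso_apply {α β : Ordinal.{0}} (h : α = β) (n : ℕ) : castIso h n = n := by
  subst h; rfl

theorem clarifies_FF : ClarifiesWO FF := by
  intro x y hx hy hxy
  have hty : ty x hx = ty y hy := by
    have := hx
    have := hy
    exact Ordinal.type_eq.2 hxy
  refine ⟨(isoL x hx).trans ((castIso hty).trans (isoL y hy).symm), ?_⟩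
  have hFx : ∀ n v, FF x (Nat.pair n v) = !(decide (isoL x hx n = v)) := by
    intro n v
    unfold FF
    rw [dif_pos hx]
    simp
  have hFy : ∀ n v, FF y (Nat.pair n v) = !(decide (isoL y hy n = v)) := by
    intro n v
    unfold FF
    rw [dif_pos hy]
    simp
  set J := join (FF x) (FF y) with hJ
  have hJ0 : ∀ m, J (2 * m) = FF x m := by
    intro m
    have h1 : 2 * m % 2 = 0 := by omega
    have h2 : 2 * m / 2 = m := by omega
    simp [hJ, join]
  have hJ1 : ∀ m, J (2 * m + 1) = FF y m := by
    intro m
    have h1 : (2 * m + 1) % 2 ≠ 0 := by omega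
    have h2 : (2 * m + 1) / 2 = m := by omega
    simp [hJ, join, h2]
  refine ⟨.comp (search (.comp .oracle (.comp .succ (.comp dbl (.pair .right .left)))))
    (search (.comp .oracle dbl)), fun n => ?_⟩
  have s1 : isoL x hx n ∈ (search (.comp .oracle dbl)).eval J n := by
    refine search_spec (b := fun k => !(decide (isoL x hx n = k))) ?_ (by simp) ?_
    · intro k
      show (dbl.eval J (Nat.pair n k) >>= OCode.eval J .oracle) = _
      rw [eval_dbl]
      simp only [Part.bind_eq_bind, Part.bind_some]
      show Part.some (J (2 * Nat.pair n k)).toNat = _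
      rw [hJ0, hFx]
    · intro k hk
      have h1 : isoL x hx n = k := by simpa using hk
      exact h1.symm
  have s2 : (isoL y hy).symm (isoL x hx n) ∈ (search (.comp .oracle (.comp .succ
      (.comp dbl (.pair .right .left))))).eval J (isoL x hx n) := by
    refine search_spec (b := fun k => !(decide (isoL y hy k = isoL x hx n))) ?_ (by simp) ?_
    · intro k
      have h1 : (OCode.pair .right .left).eval J (Nat.pair (isoL x hx n) k) =
          Part.some (Nat.pair k (isoL x hx n)) := by
        simp [OCode.eval, Seq.seq]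
      have h2 : (OCode.comp dbl (.pair .right .left)).eval J (Nat.pair (isoL x hx n) k) =
          Part.some (2 * Nat.pair k (isoL x hx n)) := by
        show ((OCode.pair .right .left).eval J _ >>= dbl.eval J) = _
        rw [h1]
        simp only [Part.bind_eq_bind, Part.bind_some]
        exact eval_dbl _ _
      have h3 : (OCode.comp .succ (.comp dbl (.pair .right .left))).eval J
          (Nat.pair (isoL x hx n) k) = Part.some (2 * Nat.pair k (isoL x hx n) + 1) := by
        show ((OCode.comp dbl (.pair .right .left)).eval J _ >>= OCode.eval J .succ) = _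
        rw [h2]
        simp [OCode.eval]
      show ((OCode.comp .succ (.comp dbl (.pair .right .left))).eval J _ >>=
        OCode.eval J .oracle) = _
      rw [h3]
      simp only [Part.bind_eq_bind, Part.bind_some]
      show Part.some (J (2 * Nat.pair k (isoL x hx n) + 1)).toNat = _
      rw [hJ1, hFy]
    · intro k hk
      have h1 : isoL y hy k = isoL x hx n := by simpa using hk
      rw [← h1]
      simp
  show _ ∈ ((search (.comp .oracle dbl)).eval J n >>= OCode.eval J _)
  have e1 : ((isoL x hx).trans ((castIso hty).trans (isoL y hy).symm)) n =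
      (isoL y hy).symm (isoL x hx n) := by
    show (isoL y hy).symm (castIso hty (isoL x hx n)) = _
    rw [castIso_apply]
  rw [e1, Part.bind_eq_bind, Part.mem_bind_iff]
  exact ⟨_, s1, s2⟩

/-! ### boundedness -/

theorem bounded {A : Set Cantor} (hA : AnalyticSet A) (hW : ∀ z ∈ A, IsWellOrder ℕ (Rel z)) :
    ∃ (y : Cantor) (hy : IsWellOrder ℕ (Rel y)), ∀ z (hz : z ∈ A),
      ty z (hW z hz) < ty y hy := by
  by_contra hcon
  push Not at hcon
  rw [AnalyticSet] at hA
  rcases hA with rfl | ⟨f, hf, hfr⟩
  · -- there is some well-order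
    have hy : IsWellOrder ℕ (Rel fun k => decide (k.unpair.1 < k.unpair.2)) := by
      have h1 : Rel (fun k => decide (k.unpair.1 < k.unpair.2)) = fun a b : ℕ => a < b := by
        funext a b
        simp [Rel]
      rw [h1]
      infer_instance
    obtain ⟨z, hz, -⟩ := hcon _ hy
    exact hz
  · apply not_analytic_WFT
    set S : Set (Cantor × (ℕ → ℕ) × (ℕ → ℕ)) := {p | ∀ (s : List ℕ) (n : ℕ),
      tm p.1 (n :: s) = true → Rel (f p.2.1) (p.2.2 (Encodable.encode (n :: s)))
        (p.2.2 (Encodable.encode s))} with hS
    have hclosed : IsClosed S := by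
      have h1 : S = ⋂ (s : List ℕ), ⋂ (n : ℕ), {p : Cantor × (ℕ → ℕ) × (ℕ → ℕ) |
          tm p.1 (n :: s) = true → Rel (f p.2.1) (p.2.2 (Encodable.encode (n :: s)))
            (p.2.2 (Encodable.encode s))} := by
        ext p
        simp [hS]
      rw [h1]
      refine isClosed_iInter fun s => isClosed_iInter fun n => ?_
      have c1 : Continuous fun p : Cantor × (ℕ → ℕ) × (ℕ → ℕ) => tm p.1 (n :: s) :=
        (continuous_tm (n :: s)).comp continuous_fst
      have ca : ∀ k, Continuous fun p : Cantor × (ℕ → ℕ) × (ℕ → ℕ) => p.2.2 k := fun k =>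
        (continuous_apply k).comp (continuous_snd.comp continuous_snd)
      have c0 : Continuous fun p : Cantor × (ℕ → ℕ) × (ℕ → ℕ) =>
          (p.2.2 (Encodable.encode (n :: s)), p.2.2 (Encodable.encode s)) :=
        (ca _).prodMk (ca _)
      have c2 : Continuous fun p : Cantor × (ℕ → ℕ) × (ℕ → ℕ) =>
          Nat.pair (p.2.2 (Encodable.encode (n :: s))) (p.2.2 (Encodable.encode s)) :=
        (continuous_of_discreteTopology (f := fun q : ℕ × ℕ => Nat.pair q.1 q.2)).comp c0
      have c3 : Continuous fun p : Cantor × (ℕ → ℕ) × (ℕ → ℕ) => f p.2.1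
          (Nat.pair (p.2.2 (Encodable.encode (n :: s))) (p.2.2 (Encodable.encode s))) :=
        continuous_eval2.comp
          ((hf.comp (continuous_fst.comp continuous_snd)).prodMk c2)
      have c4 := c1.prodMk c3
      have h2 : {p : Cantor × (ℕ → ℕ) × (ℕ → ℕ) |
          tm p.1 (n :: s) = true → Rel (f p.2.1) (p.2.2 (Encodable.encode (n :: s)))
            (p.2.2 (Encodable.encode s))} =
          (fun p : Cantor × (ℕ → ℕ) × (ℕ → ℕ) => (tm p.1 (n :: s), f p.2.1
          (Nat.pair (p.2.2 (Encodable.encode (n :: s))) (p.2.2 (Encodable.encode s))))) ⁻¹'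
          {q : Bool × Bool | q.1 = true → q.2 = true} := rfl
      rw [h2]
      exact (isClosed_discrete _).preimage c4
    have himg : WFT = Prod.fst '' S := by
      ext x
      constructor
      · intro hx
        have hwf : WellFounded (E x) := hx
        have : IsWellFounded (List ℕ) (E x) := ⟨hwf⟩
        set φ : ℕ → Ordinal.{0} × ℕ := fun a => (IsWellFounded.rank (E x) (lst a), a) with hφ
        have hφi : Function.Injective φ := by
          intro a b h
          simp only [hφ, Prod.mk.injEq] at h
          exact h.2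
        classical
        set y : Cantor := fun k => decide (Prod.Lex (· < ·) (· < ·) (φ k.unpair.1)
          (φ k.unpair.2)) with hy
        have hRel : ∀ a b, Rel y a b ↔ Prod.Lex (· < ·) (· < ·) (φ a) (φ b) := by
          intro a b
          simp [Rel, hy]
        have hyW : IsWellOrder ℕ (Rel y) := by
          let emb : Rel y ↪r (Prod.Lex (α := Ordinal.{0}) (β := ℕ) (· < ·) (· < ·)) :=
            ⟨⟨φ, hφi⟩, fun {a b} => (hRel a b).symm⟩
          exact emb.isWellOrder
        obtain ⟨z, hz, hle⟩ := hcon y hyW
        have := hyW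
        have := hW z hz
        obtain ⟨emb⟩ := Ordinal.type_le_iff'.1 hle
        rw [← hfr] at hz
        obtain ⟨u, rfl⟩ := hz
        refine ⟨(x, u, emb), ?_, rfl⟩
        intro s n hn
        show Rel (f u) (emb _) (emb _)
        rw [emb.map_rel_iff, hRel]
        refine Prod.Lex.left _ _ ?_
        rw [lst_encode, lst_encode]
        exact IsWellFounded.rank_lt_of_rel ⟨n, rfl, hn⟩
      · rintro ⟨⟨x', u, g⟩, hp, rfl⟩
        show WellFounded (E x')
        have hz : IsWellOrder ℕ (Rel (f u)) := hW _ (by rw [← hfr]; exact ⟨u, rfl⟩)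
        refine Subrelation.wf (r := InvImage (Rel (f u)) fun s => g (Encodable.encode s)) ?_
          (InvImage.wf _ hz.wf)
        rintro t s ⟨n, rfl, hn⟩
        exact hp s n hn
    rw [himg]
    exact hclosed.analyticSet.image_of_continuous continuous_fst

/-! ### the main argument -/

/-- the value of the functional given by the isomorphism -/
def cde (p : ℕ → ℕ) : Cantor := fun n => !(decide (p n.unpair.1 = n.unpair.2))

theorem measurable_cde : Measurable cde := by
  refine measurable_pi_lambda _ fun n => ?_
  exact (measurable_from_top (f := fun m : ℕ => !(decide (m = n.unpair.2)))).comp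
    (measurable_pi_apply n.unpair.1)

theorem no_reduction (R₀ R₁ : Cantor → Cantor) (h₀ : Measurable R₀) (h₁ : Measurable R₁) :
    ∃ x, R₁ (FF (R₀ x)) ≠ kleeneO x := by
  by_contra hcon
  push Not at hcon
  obtain ⟨e, he⟩ := WFT_iff
  set R : Cantor → Cantor := fun x => R₀ (hh x) with hR
  have hRm : Measurable R := h₀.comp continuous_hh.measurable
  have hRO : ∀ x m, R₁ (FF (R x)) m = true ↔ InO (hh x) m := by
    intro x m
    rw [hR, hcon]
    simp [kleeneO]
  set B : Set Cantor := {x | IsWellOrder ℕ (Rel (R x))} with hB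
  have hN : (Bᶜ).Subsingleton := by
    intro x hx x' hx'
    have h1 : FF (R x) = fun _ => false := by
      have hx1 : ¬ IsWellOrder ℕ (Rel (R x)) := hx
      unfold FF; rw [dif_neg hx1]
    have h2 : FF (R x') = fun _ => false := by
      have hx1 : ¬ IsWellOrder ℕ (Rel (R x')) := hx'
      unfold FF; rw [dif_neg hx1]
    funext m
    have h3 := InO_odd x m
    have h4 := InO_odd x' m
    rw [← hRO, h1] at h3
    rw [← hRO, h2] at h4
    rw [h3] at h4
    exact Bool.eq_iff_iff.2 h4
  have hBm : MeasurableSet B := by
    rw [← compl_compl B]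
    exact hN.measurableSet.compl
  have hA : AnalyticSet (R '' B) := hBm.analyticSet_image hRm
  have hW : ∀ z ∈ R '' B, IsWellOrder ℕ (Rel z) := by
    rintro z ⟨x, hx, rfl⟩; exact hx
  obtain ⟨y, hy, hbd⟩ := bounded hA hW
  set αn : ℕ → Ordinal.{0} := fun n => @Ordinal.typein ℕ (Rel y) hy n with hαn
  apply not_analytic_WFT
  set T : Option ℕ → Set Cantor := fun o => match o with
    | none => WFT ∩ Bᶜ
    | some n => Prod.fst '' {p : Cantor × (ℕ → ℕ) |
        (∃ z : Cantor, ∃ hz : IsWellOrder ℕ (Rel z), ty z hz = αn n) ∧ p.1 ∈ B ∧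
        (∀ a b, p.2 a = p.2 b → a = b) ∧ (∀ b, ∃ a, p.2 a = b) ∧
        (∀ a b, R p.1 (Nat.pair a b) = Lc (αn n) (Nat.pair (p.2 a) (p.2 b))) ∧
        R₁ (cde p.2) e = true} with hT
  have hWFT : WFT = ⋃ o, T o := by
    ext x
    simp only [Set.mem_iUnion]
    constructor
    · intro hx
      by_cases hxB : x ∈ B
      · have hz : R x ∈ R '' B := ⟨x, hxB, rfl⟩
        have hzW : IsWellOrder ℕ (Rel (R x)) := hxB
        have h1 : ty (R x) hzW < ty y hy := hbd _ hz
        have := hy
        obtain ⟨n, hn⟩ := Ordinal.typein_surj (Rel y) h1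
        have hn' : αn n = ty (R x) hzW := hn
        refine ⟨some n, (x, isoL (R x) hzW), ?_, rfl⟩
        refine ⟨⟨R x, hzW, hn'.symm⟩, hxB, ?_, ?_, ?_, ?_⟩
        · intro a b hab
          exact (isoL (R x) hzW).injective hab
        · intro b
          exact (isoL (R x) hzW).surjective b
        · intro a b
          have h2 := (isoL (R x) hzW).map_rel_iff (a := a) (b := b)
          rw [hn']
          exact Bool.eq_iff_iff.2 h2.symm
        · have h2 : cde (isoL (R x) hzW) = FF (R x) := by
            unfold FF cde
            rw [dif_pos hzW]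
          show R₁ (cde (isoL (R x) hzW)) e = true
          rw [h2, hRO, ← he]
          exact hx
      · exact ⟨none, hx, hxB⟩
    · rintro ⟨o, ho⟩
      cases o with
      | none => exact ho.1
      | some n =>
        obtain ⟨⟨x', p⟩, ⟨h1, h2, h3, h4, h5, h6⟩, rfl⟩ := ho
        simp only at h2 h3 h4 h5 h6 ⊢
        obtain ⟨hL, hLt⟩ := Lc_spec h1
        have hzW : IsWellOrder ℕ (Rel (R x')) := h2
        let i : Rel (R x') ≃r Rel (Lc (αn n)) :=
          ⟨Equiv.ofBijective p ⟨fun a b => h3 a b, h4⟩, fun {a b} => by
            show Rel (Lc (αn n)) (p a) (p b) ↔ Rel (R x') a b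
            unfold Rel
            rw [h5]⟩
        have hty : ty (R x') hzW = αn n := by
          rw [← hLt]
          have := hzW
          have := hL
          exact Ordinal.type_eq.2 ⟨i⟩
        have hiso : ∀ a, isoL (R x') hzW a = p a := by
          intro a
          have := hzW
          have := hL
          have h7 := InitialSeg.eq (((isoL (R x') hzW).trans (castIso hty)).toInitialSeg)
            i.toInitialSeg a
          have h8 : ((isoL (R x') hzW).trans (castIso hty)) a = i a := h7
          have h9 : castIso hty (isoL (R x') hzW a) = p a := h8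
          rwa [castIso_apply] at h9
        have h10 : FF (R x') = cde p := by
          unfold FF cde
          rw [dif_pos hzW]
          funext m
          rw [hiso]
        rw [he, ← hRO, h10]
        exact h6
  rw [hWFT]
  refine AnalyticSet.iUnion fun o => ?_
  cases o with
  | none => exact ((hN.anti Set.inter_subset_right).measurableSet).analyticSet
  | some n =>
    have m1 : ∀ a, Measurable fun p : Cantor × (ℕ → ℕ) => p.2 a := fun a =>
      (measurable_pi_apply a).comp measurable_snd
    have m2 : ∀ k, Measurable fun p : Cantor × (ℕ → ℕ) => R p.1 k := fun k =>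
      (measurable_pi_apply k).comp (hRm.comp measurable_fst)
    have m3 : ∀ a b, Measurable fun p : Cantor × (ℕ → ℕ) =>
        Lc (αn n) (Nat.pair (p.2 a) (p.2 b)) := by
      intro a b
      exact (measurable_from_top (f := fun q : ℕ × ℕ => Lc (αn n) (Nat.pair q.1 q.2))).comp
        (((m1 a).prodMk (m1 b)).mono le_rfl (by
          have : (Prod.instMeasurableSpace : MeasurableSpace (ℕ × ℕ)) = ⊤ :=
            MeasurableSpace.ext fun s => by simp [MeasurableSet.of_discrete]
          rw [this]))
    have m4 : Measurable fun p : Cantor × (ℕ → ℕ) => R₁ (cde p.2) e :=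
      (measurable_pi_apply e).comp (h₁.comp (measurable_cde.comp measurable_snd))
    have hset : MeasurableSet {p : Cantor × (ℕ → ℕ) |
        (∃ z : Cantor, ∃ hz : IsWellOrder ℕ (Rel z), ty z hz = αn n) ∧ p.1 ∈ B ∧
        (∀ a b, p.2 a = p.2 b → a = b) ∧ (∀ b, ∃ a, p.2 a = b) ∧
        (∀ a b, R p.1 (Nat.pair a b) = Lc (αn n) (Nat.pair (p.2 a) (p.2 b))) ∧
        R₁ (cde p.2) e = true} := by
      refine (MeasurableSet.const _).inter ((measurable_fst hBm).inter
        (MeasurableSet.inter ?_ (MeasurableSet.inter ?_ (MeasurableSet.inter ?_ ?_))))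
      · have : {p : Cantor × (ℕ → ℕ) | ∀ a b, p.2 a = p.2 b → a = b} =
            ⋂ a, ⋂ b, {p | p.2 a = p.2 b → a = b} := by ext p; simp
        show MeasurableSet {p : Cantor × (ℕ → ℕ) | ∀ a b, p.2 a = p.2 b → a = b}
        rw [this]
        refine MeasurableSet.iInter fun a => MeasurableSet.iInter fun b => ?_
        exact (measurableSet_eq_fun (m1 a) (m1 b)).imp (MeasurableSet.const _)
      · have : {p : Cantor × (ℕ → ℕ) | ∀ b, ∃ a, p.2 a = b} =
            ⋂ b, ⋃ a, {p | p.2 a = b} := by ext p; simp
        show MeasurableSet {p : Cantor × (ℕ → ℕ) | ∀ b, ∃ a, p.2 a = b}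
        rw [this]
        refine MeasurableSet.iInter fun b => MeasurableSet.iUnion fun a => ?_
        exact measurableSet_eq_fun (m1 a) measurable_const
      · have : {p : Cantor × (ℕ → ℕ) | ∀ a b, R p.1 (Nat.pair a b) =
            Lc (αn n) (Nat.pair (p.2 a) (p.2 b))} =
            ⋂ a, ⋂ b, {p | R p.1 (Nat.pair a b) = Lc (αn n) (Nat.pair (p.2 a) (p.2 b))} := by
          ext p; simp
        show MeasurableSet {p : Cantor × (ℕ → ℕ) | ∀ a b, R p.1 (Nat.pair a b) =
            Lc (αn n) (Nat.pair (p.2 a) (p.2 b))}
        rw [this]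
        refine MeasurableSet.iInter fun a => MeasurableSet.iInter fun b => ?_
        exact measurableSet_eq_fun (m2 _) (m3 a b)
      · exact measurableSet_eq_fun m4 measurable_const
    exact hset.analyticSet_image measurable_fst

end Pool.Agent.Helper9.Clar
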