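import Pool.Agent.Helper9.ClarDefs

/-!
The set of (codes of) well-founded trees is not analytic, and it reduces to Kleene's `O`.
-/

namespace Pool.Agent.Helper9.Clar

open MeasureTheory Topology Filter

instance instPolishCantor : PolishSpace (ℕ → Bool) := by
  have : TopologicalSpace.IsCompletelyMetrizableSpace (ℕ → Bool) :=
    TopologicalSpace.IsCompletelyMetrizableSpace.pi_countable
  exact instPolishSpaceOfSeparableSpaceOfIsCompletelyMetrizableSpace

/-! ### trees -/

/-- node `s` is in the tree coded by `x` -/
def tm (x : Cantor) : List ℕ → Bool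
  | [] => true
  | n :: s => x (Encodable.encode (n :: s)) && tm x s

/-- `t` is a child of `s` in the tree coded by `x` -/
def E (x : Cantor) (t s : List ℕ) : Prop := ∃ n, t = n :: s ∧ tm x t = true

/-- codes of well-founded trees -/
def WFT : Set Cantor := {x | WellFounded (E x)}

theorem wf_iff_acc (x : Cantor) : WellFounded (E x) ↔ Acc (E x) [] := by
  constructor
  · intro h; exact h.apply _
  · intro h
    have key : ∀ s, tm x s = true → Acc (E x) s := by
      intro s
      induction s with
      | nil => intro _; exact h
      | cons n s ih =>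
        intro hs
        have h1 : tm x s = true := by
          simp only [tm, Bool.and_eq_true] at hs
          exact hs.2
        exact (ih h1).inv ⟨n, rfl, hs⟩
    refine ⟨fun s => ?_⟩
    by_cases hs : tm x s = true
    · exact key s hs
    · refine Acc.intro _ ?_
      rintro t ⟨n, rfl, ht⟩
      simp only [tm, Bool.and_eq_true] at ht
      exact absurd ht.2 hs

/-- initial segments of a sequence, the last value first -/
def pre (y : ℕ → ℕ) : ℕ → List ℕ
  | 0 => []
  | n + 1 => y n :: pre y n

theorem pre_length (y : ℕ → ℕ) (n : ℕ) : (pre y n).length = n := by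
  induction n with
  | zero => rfl
  | succ n ih => simp [pre, ih]

theorem pre_eq {y y' : ℕ → ℕ} {n : ℕ} (h : pre y n = pre y' n) : ∀ i < n, y i = y' i := by
  induction n with
  | zero => intro i hi; omega
  | succ n ih =>
    simp only [pre, List.cons.injEq] at h
    intro i hi
    rcases Nat.lt_succ_iff_lt_or_eq.1 hi with hi | rfl
    · exact ih h.2 i hi
    · exact h.1

theorem not_acc_iff (x : Cantor) : ¬ Acc (E x) [] ↔
    ∃ y : ℕ → ℕ, ∀ n, x (Encodable.encode (pre y (n + 1))) = true := by
  rw [not_acc_iff_exists_descending_chain]
  constructor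
  · rintro ⟨f, h0, hf⟩
    choose y hy using hf
    have h1 : ∀ n, f n = pre y n := by
      intro n
      induction n with
      | zero => exact h0
      | succ n ih => rw [(hy n).1, ih]; rfl
    refine ⟨y, fun n => ?_⟩
    have h2 := (hy n).2
    rw [h1 (n + 1)] at h2
    simp only [pre, tm, Bool.and_eq_true] at h2
    exact h2.1
  · rintro ⟨y, hy⟩
    have h1 : ∀ n, tm x (pre y n) = true := by
      intro n
      induction n with
      | zero => rfl
      | succ n ih =>
        simp only [pre, tm, Bool.and_eq_true]
        exact ⟨hy n, ih⟩
    exact ⟨pre y, rfl, fun n => ⟨y n, rfl, h1 (n + 1)⟩⟩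

/-- number coding the first `n` bits of a real -/
def zc (z : Cantor) : ℕ → ℕ
  | 0 => 0
  | n + 1 => Nat.pair (z n).toNat (zc z n)

theorem zc_eq {z z' : Cantor} {n : ℕ} (h : zc z n = zc z' n) : ∀ i < n, z i = z' i := by
  induction n with
  | zero => intro i hi; omega
  | succ n ih =>
    simp only [zc, Nat.pair_eq_pair] at h
    intro i hi
    rcases Nat.lt_succ_iff_lt_or_eq.1 hi with hi | rfl
    · exact ih h.2 i hi
    · cases h1 : z i <;> cases h2 : z' i <;> simp [h1, h2] at h ⊢

theorem continuous_ev (i : ℕ) : Continuous fun z : Cantor => z i := continuous_apply i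

theorem continuous_zc (n : ℕ) : Continuous fun z => zc z n := by
  induction n with
  | zero => exact continuous_const
  | succ n ih =>
    exact (continuous_of_discreteTopology (f := fun p : Bool × ℕ => Nat.pair p.1.toNat p.2)).comp
      ((continuous_ev n).prodMk ih)

/-- the list coded by a number -/
def lst (k : ℕ) : List ℕ := (Encodable.decode k).getD []

@[simp] theorem lst_encode (s : List ℕ) : lst (Encodable.encode s) = s := by simp [lst]

/-- diagonal section -/
def diag (z : Cantor) : Cantor := fun k => z (Nat.pair (zc z (lst k).length) k)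

theorem continuous_eval2 : Continuous fun p : Cantor × ℕ => p.1 p.2 := by
  rw [continuous_prod_of_discrete_right]
  intro n
  exact continuous_apply n

theorem continuous_diag : Continuous diag := by
  refine continuous_pi fun k => ?_
  have h1 : Continuous fun z : Cantor => Nat.pair (zc z (lst k).length) k :=
    (continuous_of_discreteTopology (f := fun m : ℕ => Nat.pair m k)).comp (continuous_zc _)
  exact continuous_eval2.comp (continuous_id.prodMk h1)

theorem not_analytic_WFT : ¬ AnalyticSet WFT := by
  intro hA
  have hD : AnalyticSet (diag ⁻¹' WFT) := hA.preimage continuous_diag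
  have mem : ∀ z, z ∈ diag ⁻¹' WFT ↔
      ¬ ∃ y : ℕ → ℕ, ∀ n, z (Nat.pair (zc z (n + 1)) (Encodable.encode (pre y (n + 1)))) = true := by
    intro z
    have h1 : z ∈ diag ⁻¹' WFT ↔ Acc (E (diag z)) [] := wf_iff_acc _
    rw [h1, ← not_not (a := Acc (E (diag z)) []), not_acc_iff]
    simp only [diag, lst_encode, pre_length]
  rw [AnalyticSet] at hD
  rcases hD with hD | ⟨f, hf, hfr⟩
  · have h1 : (fun _ => false : Cantor) ∈ diag ⁻¹' WFT := by
      rw [mem]; simp
    rw [hD] at h1
    exact h1
  · classical
    set z0 : Cantor := fun k => decide (∃ (n : ℕ) (y : ℕ → ℕ),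
      k = Nat.pair (zc (f y) n) (Encodable.encode (pre y n))) with hz0
    have key : z0 ∈ diag ⁻¹' WFT ↔
        ∃ y : ℕ → ℕ, ∀ n, z0 (Nat.pair (zc z0 (n + 1)) (Encodable.encode (pre y (n + 1)))) = true := by
      rw [← hfr]
      constructor
      · rintro ⟨y, hy⟩
        refine ⟨y, fun n => ?_⟩
        rw [hz0]
        simp only [decide_eq_true_eq]
        exact ⟨n + 1, y, by rw [hy]⟩
      · rintro ⟨y, hy⟩
        have h1 : ∀ n, ∃ y' : ℕ → ℕ, (∀ i < n + 1, y' i = y i) ∧ ∀ i < n + 1, f y' i = z0 i := by
          intro n
          have h2 := hy n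
          rw [hz0] at h2
          simp only [decide_eq_true_eq] at h2
          rw [← hz0] at h2
          obtain ⟨n', y', h3⟩ := h2
          rw [Nat.pair_eq_pair] at h3
          have h4 := Encodable.encode_injective h3.2
          have h5 : n + 1 = n' := by
            have := congrArg List.length h4
            simpa [pre_length] using this
          subst h5
          exact ⟨y', fun i hi => (pre_eq h4 i hi).symm, fun i hi => (zc_eq h3.1 i hi).symm⟩
        choose y' h2 h3 using h1
        have t1 : Tendsto y' atTop (𝓝 y) := by
          rw [tendsto_pi_nhds]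
          intro i
          refine tendsto_const_nhds.congr' ?_
          filter_upwards [eventually_ge_atTop i] with n hn
          exact (h2 n i (by omega)).symm
        have t2 : Tendsto (fun n => f (y' n)) atTop (𝓝 (f y)) := (hf.tendsto y).comp t1
        have t3 : Tendsto (fun n => f (y' n)) atTop (𝓝 z0) := by
          rw [tendsto_pi_nhds]
          intro i
          refine tendsto_const_nhds.congr' ?_
          filter_upwards [eventually_ge_atTop i] with n hn
          exact (h3 n i (by omega)).symm
        exact ⟨y, tendsto_nhds_unique t2 t3⟩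
    have h6 := mem z0
    rw [key] at h6
    exact (iff_not_self h6)

/-! ### the reduction to Kleene's `O` -/

/-- constant programs -/
def const : ℕ → OCode
  | 0 => .zero
  | n + 1 => .comp .succ (const n)

theorem eval_const (x : Cantor) (k n : ℕ) : (const k).eval x n = Part.some k := by
  induction k with
  | zero => rfl
  | succ k ih =>
    simp only [const, OCode.eval, ih]
    simp [Part.bind_some]

/-- the program reading row `r` of the table given by the oracle -/
def cd (r : ℕ) : OCode :=
  .comp (.rfind' (.comp .oracle (.pair (const r) (.pair .left .right))))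
    (.pair (.pair .left .right) .zero)

theorem eval_id (x : Cantor) (n : ℕ) : (OCode.pair .left .right).eval x n = Part.some n := by
  simp [OCode.eval, Seq.seq]

theorem mem_eval_cd {x : Cantor} {r n v : ℕ}
    (huniq : ∀ v', x (Nat.pair r (Nat.pair n v')) = false → v' = v) :
    v ∈ (cd r).eval x n ↔ x (Nat.pair r (Nat.pair n v)) = false := by
  have h1 : ∀ m, (OCode.comp .oracle (.pair (const r) (.pair .left .right))).eval x m =
      Part.some (x (Nat.pair r m)).toNat := by
    intro m
    have h2 : (OCode.pair (const r) (.pair .left .right)).eval x m =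
        Part.some (Nat.pair r m) := by
      show Nat.pair <$> (const r).eval x m <*> (OCode.pair .left .right).eval x m = _
      rw [eval_const, eval_id]
      simp [Seq.seq]
    show ((OCode.pair (const r) (.pair .left .right)).eval x m >>= OCode.eval x .oracle) = _
    rw [h2]
    simp [OCode.eval]
  have h3 : (cd r).eval x n = Nat.rfind fun k =>
      (fun m => m = 0) <$> (Part.some (x (Nat.pair r (Nat.pair n k))).toNat : Part ℕ) := by
    have h4 : (OCode.pair (.pair .left .right) .zero).eval x n = Part.some (Nat.pair n 0) := by
      show Nat.pair <$> (OCode.pair .left .right).eval x n <*> OCode.eval x .zero n = _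
      rw [eval_id]
      simp [OCode.eval, Seq.seq, pure, PFun.pure]
    show ((OCode.pair (.pair .left .right) .zero).eval x n >>= OCode.eval x (.rfind' _)) = _
    rw [h4]
    simp only [Part.bind_eq_bind, Part.bind_some]
    simp only [OCode.eval, Nat.unpaired, Nat.unpair_pair, Nat.add_zero]
    have h5 : ∀ p : Part ℕ, p.map (fun k => k) = p := by
      intro p; exact Part.map_id' (fun _ => rfl) p
    rw [h5]
    congr 1
    funext k
    have := h1 (Nat.pair n k)
    simp only [OCode.eval] at this
    rw [this]
  rw [h3, Nat.mem_rfind]
  simp only [Part.map_eq_map, Part.map_some, Part.mem_some_iff]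
  constructor
  · rintro ⟨h5, -⟩
    simpa using h5
  · intro h5
    refine ⟨by simp [h5], ?_⟩
    intro m hm
    have : x (Nat.pair r (Nat.pair n m)) = true := by
      by_contra h6
      have := huniq m (by simpa using h6)
      omega
    simp [this]

theorem cd_injective : Function.Injective cd := by
  have h1 : Function.Injective const := by
    intro a b h
    induction a generalizing b with
    | zero =>
      cases b with
      | zero => rfl
      | succ b => simp [const] at h
    | succ a ih =>
      cases b with
      | zero => simp [const] at h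
      | succ b =>
        simp only [const, OCode.comp.injEq, true_and] at h
        rw [ih h]
  intro a b h
  simp only [cd, OCode.comp.injEq, OCode.rfind'.injEq, OCode.pair.injEq, and_true,
    true_and] at h
  exact h1 h

theorem index_injective : Function.Injective OCode.index := by
  intro f
  induction f with
  | zero => intro g h; cases g <;> simp [OCode.index] at h ⊢
  | succ => intro g h; cases g <;> simp [OCode.index] at h ⊢
  | left => intro g h; cases g <;> simp [OCode.index] at h ⊢
  | right => intro g h; cases g <;> simp [OCode.index] at h ⊢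
  | oracle => intro g h; cases g <;> simp [OCode.index] at h ⊢
  | pair f1 f2 h1 h2 =>
    intro g h
    cases g with
    | pair g1 g2 =>
      simp only [OCode.index] at h
      have h3 : Nat.pair f1.index f2.index = Nat.pair g1.index g2.index := by omega
      rw [Nat.pair_eq_pair] at h3
      rw [h1 h3.1, h2 h3.2]
    | _ => simp only [OCode.index] at h; omega
  | comp f1 f2 h1 h2 =>
    intro g h
    cases g with
    | comp g1 g2 =>
      simp only [OCode.index] at h
      have h3 : Nat.pair f1.index f2.index = Nat.pair g1.index g2.index := by omega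
      rw [Nat.pair_eq_pair] at h3
      rw [h1 h3.1, h2 h3.2]
    | _ => simp only [OCode.index] at h; omega
  | prec f1 f2 h1 h2 =>
    intro g h
    cases g with
    | prec g1 g2 =>
      simp only [OCode.index] at h
      have h3 : Nat.pair f1.index f2.index = Nat.pair g1.index g2.index := by omega
      rw [Nat.pair_eq_pair] at h3
      rw [h1 h3.1, h2 h3.2]
    | _ => simp only [OCode.index] at h; omega
  | rfind' f1 h1 =>
    intro g h
    cases g with
    | rfind' g1 =>
      simp only [OCode.index] at h
      have h3 : f1.index = g1.index := by omega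
      rw [h1 h3]
    | _ => simp only [OCode.index] at h; omega

/-- notation for the code of row `r` -/
def nt (r : ℕ) : ℕ := 3 * 5 ^ (cd r).index

theorem nt_injective : Function.Injective nt := by
  intro a b h
  unfold nt at h
  have h1 : 5 ^ (cd a).index = 5 ^ (cd b).index := by omega
  exact cd_injective (index_injective (Nat.pow_right_injective (le_refl 2 |>.trans (by omega)) h1))

/-- row belonging to the node `s` and the number `a` -/
def row (s : List ℕ) (a : ℕ) : ℕ := 2 * Nat.pair (Encodable.encode s) a

/-- the sequences of notations -/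
def g (x : Cantor) (s : List ℕ) (a : ℕ) : ℕ → ℕ
  | 0 => a
  | n + 1 => if tm x (n :: s) = true then nt (row (n :: s) (g x s a n)) else 2 ^ (g x s a n)

/-- notations of the natural numbers -/
def fin : ℕ → ℕ
  | 0 => 1
  | n + 1 => 2 ^ fin n

/-- the table -/
def G (x : Cantor) (r n : ℕ) : Option ℕ :=
  if r % 2 = 0 then some (g x (lst (r / 2).unpair.1) (r / 2).unpair.2 n)
  else if x (r / 2) = true then some (fin n) else none

theorem G_row (x : Cantor) (s : List ℕ) (a n : ℕ) : G x (row s a) n = some (g x s a n) := by
  have h1 : row s a % 2 = 0 := by unfold row; omega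
  have h2 : row s a / 2 = Nat.pair (Encodable.encode s) a := by unfold row; omega
  simp [G, h1, h2]

theorem G_odd (x : Cantor) (m n : ℕ) :
    G x (2 * m + 1) n = if x m = true then some (fin n) else none := by
  have h1 : (2 * m + 1) % 2 ≠ 0 := by omega
  have h2 : (2 * m + 1) / 2 = m := by omega
  simp [G, h2]

/-- the reduction -/
def hh (x : Cantor) : Cantor := fun k =>
  !(decide (G x k.unpair.1 k.unpair.2.unpair.1 = some k.unpair.2.unpair.2))

theorem hh_eq (x : Cantor) (r n v : ℕ) :
    hh x (Nat.pair r (Nat.pair n v)) = false ↔ G x r n = some v := by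
  simp [hh]

theorem mem_cd_iff (x : Cantor) (r n v : ℕ) : v ∈ (cd r).eval (hh x) n ↔ G x r n = some v := by
  rcases hG : G x r n with _ | w
  · rw [mem_eval_cd (fun v' h => by rw [hh_eq, hG] at h; exact absurd h (by simp)), hh_eq, hG]
  · constructor
    · intro hv
      by_cases hvw : w = v
      · rw [hvw]
      · exfalso
        have h1 : w ∈ (cd r).eval (hh x) n := by
          rw [mem_eval_cd (fun v' h => by
            rw [hh_eq, hG] at h; simpa using h.symm), hh_eq, hG]
        exact hvw (Part.mem_unique h1 hv)
    · intro hv
      rw [Option.some.injEq] at hv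
      subst hv
      rw [mem_eval_cd (fun v' h => by
        rw [hh_eq, hG] at h; simpa using h.symm), hh_eq, hG]

theorem one_ne_three (c : ℕ) : (1 : ℕ) ≠ 3 * 5 ^ c := by
  have : 0 < 5 ^ c := by positivity
  omega

theorem pow_ne_three (a c : ℕ) : (2 : ℕ) ^ a ≠ 3 * 5 ^ c := by
  intro h
  have h1 : (3 : ℕ) ∣ 2 ^ a := ⟨_, h⟩
  have h2 := Nat.Prime.dvd_of_dvd_pow Nat.prime_three h1
  omega

/-- what membership of a limit notation means -/
theorem InO_lim_inv {x : Cantor} {m : ℕ} (h : InO x m) : ∀ c : OCode, m = 3 * 5 ^ c.index →
    ∃ f : ℕ → ℕ, (∀ n, f n ∈ c.eval x n) ∧ ∀ n, InO x (f n) := by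
  cases h with
  | one => intro c hc; exact absurd hc (one_ne_three _)
  | succ _ => intro c hc; exact absurd hc (pow_ne_three _ _)
  | @lim c' f hf hO hlt =>
    intro c hc
    have h1 : 5 ^ c'.index = 5 ^ c.index := by omega
    have h2 : c' = c := index_injective (Nat.pow_right_injective (by omega) h1)
    subst h2
    exact ⟨f, hf, hO⟩

theorem InO_fin (x : Cantor) (n : ℕ) : InO x (fin n) := by
  induction n with
  | zero => exact InO.one
  | succ n ih => exact InO.succ ih

/-- the set `O^{hh x}` determines `x` -/
theorem InO_odd (x : Cantor) (m : ℕ) : InO (hh x) (nt (2 * m + 1)) ↔ x m = true := by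
  constructor
  · intro h
    obtain ⟨f, hf, -⟩ := InO_lim_inv h _ rfl
    have h1 := hf 0
    rw [mem_cd_iff, G_odd] at h1
    by_contra h2
    simp [h2] at h1
  · intro h
    refine InO.lim (f := fin) (fun n => ?_) (InO_fin _) (fun n => LtO.succ (InO_fin _ n))
    rw [mem_cd_iff, G_odd]
    simp [h]

theorem acc_to_O {x : Cantor} {s : List ℕ} (h : Acc (E x) s) : ∀ a, InO (hh x) a →
    (∀ n, InO (hh x) (g x s a n)) ∧ ∀ n, LtO (hh x) (g x s a n) (g x s a (n + 1)) := by
  induction h with
  | intro s _ ih =>
    intro a ha
    have key : ∀ n, InO (hh x) (g x s a n) → InO (hh x) (g x s a (n + 1)) ∧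
        LtO (hh x) (g x s a n) (g x s a (n + 1)) := by
      intro n hn
      by_cases ht : tm x (n :: s) = true
      · obtain ⟨h1, h2⟩ := ih (n :: s) ⟨n, rfl, ht⟩ (g x s a n) hn
        have h3 : ∀ m, g x (n :: s) (g x s a n) m ∈
            (cd (row (n :: s) (g x s a n))).eval (hh x) m := by
          intro m
          rw [mem_cd_iff, G_row]
        have h4 : g x s a (n + 1) = nt (row (n :: s) (g x s a n)) := by
          simp [g, ht]
        rw [h4]
        exact ⟨InO.lim h3 h1 h2, LtO.lim h3 h1 h2 0⟩
      · have h4 : g x s a (n + 1) = 2 ^ (g x s a n) := by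
          simp [g, ht]
        rw [h4]
        exact ⟨InO.succ hn, LtO.succ hn⟩
    have h1 : ∀ n, InO (hh x) (g x s a n) := by
      intro n
      induction n with
      | zero => exact ha
      | succ n ih' => exact (key n ih').1
    exact ⟨h1, fun n => (key n (h1 n)).2⟩

theorem O_to_acc {x : Cantor} {m : ℕ} (h : InO (hh x) m) : ∀ (s : List ℕ) (a : ℕ),
    m = nt (row s a) → Acc (E x) s := by
  refine InO.rec (motive_1 := fun m _ => ∀ (s : List ℕ) (a : ℕ), m = nt (row s a) → Acc (E x) s)
    (motive_2 := fun _ _ _ => True) ?_ ?_ ?_ ?_ ?_ ?_ h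
  · intro s a hm
    exact absurd hm (one_ne_three _)
  · intro a _ _ s a' hm
    exact absurd hm (pow_ne_three _ _)
  · intro c f hf hO hlt ih _ s a hm
    have h1 : 5 ^ c.index = 5 ^ (cd (row s a)).index := by
      unfold nt at hm; omega
    have h2 : c = cd (row s a) := index_injective (Nat.pow_right_injective (by omega) h1)
    subst h2
    have h3 : ∀ n, f n = g x s a n := by
      intro n
      have h4 := hf n
      rw [mem_cd_iff, G_row] at h4
      simpa using h4.symm
    refine Acc.intro _ ?_
    rintro t ⟨n, rfl, ht⟩
    refine ih (n + 1) (n :: s) (g x s a n) ?_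
    rw [h3]
    simp [g, ht]
  · intros; trivial
  · intros; trivial
  · intros; trivial

/-- well-foundedness reduces to Kleene's `O` -/
theorem WFT_iff' (x : Cantor) (a : ℕ) (ha : InO (hh x) a) :
    x ∈ WFT ↔ InO (hh x) (nt (row [] a)) := by
  have h1 : x ∈ WFT ↔ Acc (E x) [] := wf_iff_acc x
  rw [h1]
  constructor
  · intro h
    obtain ⟨h2, h3⟩ := acc_to_O h a ha
    exact InO.lim (fun n => by rw [mem_cd_iff, G_row]) h2 h3
  · intro h
    exact O_to_acc h [] a rfl

/-- well-foundedness reduces to Kleene's `O` -/
theorem WFT_iff : ∃ e : ℕ, ∀ x : Cantor, x ∈ WFT ↔ InO (hh x) e :=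
  ⟨nt (row [] 1), fun x => WFT_iff' x 1 InO.one⟩

/-! ### continuity of the reduction -/

theorem continuous_tm (s : List ℕ) : Continuous fun x : Cantor => tm x s := by
  induction s with
  | nil => exact continuous_const
  | cons n s ih =>
    exact (continuous_of_discreteTopology (f := fun p : Bool × Bool => p.1 && p.2)).comp
      ((continuous_ev _).prodMk ih)

theorem continuous_g (s : List ℕ) (a n : ℕ) : Continuous fun x : Cantor => g x s a n := by
  induction n with
  | zero => exact continuous_const
  | succ n ih =>
    exact (continuous_of_discreteTopology (f := fun p : Bool × ℕ =>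
      if p.1 = true then nt (row (n :: s) p.2) else 2 ^ p.2)).comp
        ((continuous_tm (n :: s)).prodMk ih)

theorem continuous_hh : Continuous hh := by
  refine continuous_pi fun k => ?_
  by_cases hr : k.unpair.1 % 2 = 0
  · have h1 : (fun x => hh x k) = fun x => !(decide (g x (lst (k.unpair.1 / 2).unpair.1)
        (k.unpair.1 / 2).unpair.2 k.unpair.2.unpair.1 = k.unpair.2.unpair.2)) := by
      funext x
      simp only [hh, G, hr, if_true, Option.some.injEq]
    rw [h1]
    exact (continuous_of_discreteTopology (f := fun m : ℕ =>
      !(decide (m = k.unpair.2.unpair.2)))).comp (continuous_g _ _ _)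
  · have h1 : (fun x => hh x k) = fun x => !(decide ((if x (k.unpair.1 / 2) = true then
        some (fin k.unpair.2.unpair.1) else none) = some k.unpair.2.unpair.2)) := by
      funext x
      simp only [hh, G, hr, if_false]
    rw [h1]
    exact (continuous_of_discreteTopology (f := fun b : Bool => !(decide ((if b = true then
        some (fin k.unpair.2.unpair.1) else none) = some k.unpair.2.unpair.2)))).comp
        (continuous_ev _)

end Pool.Agent.Helper9.Clar
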