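import Mathlib

namespace Pool.Agent.Helper9.Salem

open Filter Polynomial

/-- `distInt x` is the distance from the real number `x` to the nearest integer. -/
noncomputable def distInt (x : ℝ) : ℝ := |x - round x|

/-- `lagSpec α` is the set of all values `limsup_{n → ∞} distInt (ξ * α ^ n)`, `ξ` a real number. -/
noncomputable def lagSpec (α : ℝ) : Set ℝ :=
  Set.range fun ξ : ℝ => limsup (fun n : ℕ => distInt (ξ * α ^ n)) atTop

/-- `IsSalem α`: the real number `α > 1` is an algebraic integer all of whose other conjugates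
(complex roots of its minimal polynomial over `ℚ`) have absolute value at most `1`, and at least one
of them has absolute value exactly `1`. -/
def IsSalem (α : ℝ) : Prop :=
  1 < α ∧ IsIntegral ℤ α ∧
  (∀ z : ℂ, aeval z (minpoly ℚ α) = 0 → z ≠ (α : ℂ) → ‖z‖ ≤ 1) ∧
  ∃ z : ℂ, aeval z (minpoly ℚ α) = 0 ∧ z ≠ (α : ℂ) ∧ ‖z‖ = 1

end Pool.Agent.Helper9.Salem
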