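import Mathlib
import Pool.Agent.Helper9.SalemDefs

namespace Pool.Agent.Helper9.Salem

open Filter Polynomial Topology

lemma distInt_nonneg (x : ℝ) : 0 ≤ distInt x := abs_nonneg _

lemma distInt_le_half (x : ℝ) : distInt x ≤ 1 / 2 := abs_sub_round x

/-- If `|x - s| < 1/2` with `s` an integer, then `s` is the nearest integer. -/
lemma distInt_eq_of_abs_lt {x : ℝ} {s : ℤ} (h : |x - s| < 1 / 2) : distInt x = |x - s| := by
  have : round x = s := by
    rw [round_eq_iff]
    rw [abs_lt] at h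
    constructor <;> linarith [h.1, h.2]
  unfold distInt
  rw [this]

lemma bddAbove_dist (u : ℕ → ℝ) :
    IsBoundedUnder (· ≤ ·) atTop (fun n : ℕ => distInt (u n)) :=
  isBoundedUnder_of ⟨1 / 2, fun n => distInt_le_half _⟩

lemma bddBelow_dist (u : ℕ → ℝ) :
    IsCoboundedUnder (· ≤ ·) atTop (fun n : ℕ => distInt (u n)) :=
  (isBoundedUnder_of ⟨0, fun n => distInt_nonneg _⟩ :
    IsBoundedUnder (· ≥ ·) atTop (fun n : ℕ => distInt (u n))).isCoboundedUnder_le

/-- Scaling: if the value `x = limsup ‖ξ α^n‖` satisfies `m x < 1/2`, then `m x` is again a value. -/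
lemma mul_mem_L {α x : ℝ} (hx : x ∈ lagSpec α) (m : ℕ) (hm : (m : ℝ) * x < 1 / 2) :
    (m : ℝ) * x ∈ lagSpec α := by
  obtain ⟨ξ, rfl⟩ := hx
  simp only at hm ⊢
  refine ⟨m * ξ, ?_⟩
  simp only
  rcases Nat.eq_zero_or_pos m with rfl | hmpos
  · have : (fun n : ℕ => distInt (((0 : ℕ) : ℝ) * ξ * α ^ n)) = fun _ => (0 : ℝ) := by
      funext n; simp [distInt]
    rw [this]; simp
  have hm0 : (0 : ℝ) < m := by exact_mod_cast hmpos
  set u : ℕ → ℝ := fun n => distInt (ξ * α ^ n) with hu
  have hlt : limsup u atTop < 1 / (2 * m) := by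
    rw [lt_div_iff₀ (by positivity)]
    linarith
  have hev : ∀ᶠ n in atTop, u n < 1 / (2 * m) :=
    eventually_lt_of_limsup_lt hlt (bddAbove_dist _)
  have hev2 : ∀ᶠ n in atTop, distInt (m * ξ * α ^ n) = m * u n := by
    filter_upwards [hev] with n hn
    have h1 : |(m * ξ * α ^ n) - (((m : ℤ) * round (ξ * α ^ n) : ℤ) : ℝ)| = m * u n := by
      simp only [hu, distInt]
      push_cast
      rw [show (m : ℝ) * ξ * α ^ n - m * round (ξ * α ^ n) = m * (ξ * α ^ n - round (ξ * α ^ n)) by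
        ring, abs_mul, abs_of_pos hm0]
    rw [distInt_eq_of_abs_lt, h1]
    rw [h1]
    rw [lt_div_iff₀ (by positivity)] at hn
    linarith
  rw [limsup_congr hev2]
  have hmono : Monotone fun x : ℝ => (m : ℝ) * x := fun a b hab =>
    mul_le_mul_of_nonneg_left hab hm0.le
  have hcont : ContinuousAt (fun x : ℝ => (m : ℝ) * x) (limsup u atTop) := by fun_prop
  exact (hmono.map_limsup_of_continuousAt u hcont (bddAbove_dist _) (bddBelow_dist _)).symm

/-- If `lagSpec α` has arbitrarily small positive elements, it is dense in `(0, 1/2)`. -/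
lemma dense_L {α : ℝ} (h : ∀ ε > 0, ∃ x ∈ lagSpec α, 0 < x ∧ x < ε) {y z : ℝ} (hy : 0 ≤ y)
    (hyz : y < z) (hz : z ≤ 1 / 2) : ∃ x ∈ lagSpec α, y < x ∧ x < z := by
  obtain ⟨x, hx, hx0, hxe⟩ := h (z - y) (by linarith)
  set m : ℕ := ⌊y / x⌋₊ + 1 with hm
  have h1 : y / x < m := by
    rw [hm]; push_cast; exact Nat.lt_floor_add_one _
  have h2 : (m : ℝ) ≤ y / x + 1 := by
    rw [hm]; push_cast
    have := Nat.floor_le (div_nonneg hy hx0.le)
    linarith
  have h3 : y < m * x := by
    rwa [div_lt_iff₀ hx0] at h1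
  have h4 : (m : ℝ) * x ≤ y + x := by
    calc (m : ℝ) * x ≤ (y / x + 1) * x := mul_le_mul_of_nonneg_right h2 hx0.le
      _ = y + x := by field_simp
  exact ⟨m * x, mul_mem_L hx m (by linarith), h3, by linarith⟩

/-- The limsup is eventually an upper bound up to epsilon, countability of the small values. -/
lemma countable_small {α : ℝ} (hα1 : 1 < α) (P : ℤ[X]) (hP : P.Monic)
    (hroot : aeval α P = 0) :
    ∃ c > 0, (lagSpec α ∩ Set.Iio c).Countable := by
  set d := P.natDegree with hd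
  set S : ℝ := ∑ i ∈ Finset.range (d + 1), |(P.coeff i : ℝ)| with hS
  have hSpos : 1 ≤ S := by
    have h1 : |(P.coeff d : ℝ)| = 1 := by
      rw [hd, hP.coeff_natDegree]; simp
    calc (1 : ℝ) = |(P.coeff d : ℝ)| := h1.symm
      _ ≤ S := Finset.single_le_sum (f := fun i => |(P.coeff i : ℝ)|)
          (fun i _ => abs_nonneg _) (Finset.mem_range.mpr (Nat.lt_succ_self d))
  have hSpos' : 0 < S := by linarith
  refine ⟨1 / S, by positivity, ?_⟩
  -- sets of good ξ
  set B : ℕ → Set ℝ := fun N => {ξ : ℝ | ∀ n ≥ N, distInt (ξ * α ^ n) < 1 / S} with hB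
  have hsub : lagSpec α ∩ Set.Iio (1 / S) ⊆
      (fun ξ : ℝ => limsup (fun n : ℕ => distInt (ξ * α ^ n)) atTop) '' (⋃ N, B N) := by
    rintro x ⟨⟨ξ, rfl⟩, hx⟩
    simp only [Set.mem_Iio] at hx
    have hev := eventually_lt_of_limsup_lt hx (bddAbove_dist _)
    rw [eventually_atTop] at hev
    obtain ⟨N, hN⟩ := hev
    exact ⟨ξ, Set.mem_iUnion.mpr ⟨N, hN⟩, rfl⟩
  refine Set.Countable.mono hsub (Set.Countable.image ?_ _)
  refine Set.countable_iUnion fun N => ?_
  -- the recurrence
  have hrec : ∀ ξ ∈ B N, ∀ n ≥ N,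
      ∑ i ∈ Finset.range (d + 1), P.coeff i * round (ξ * α ^ (n + i)) = 0 := by
    intro ξ hξ n hn
    set s : ℕ → ℤ := fun n => round (ξ * α ^ n) with hs
    have hzero : ∑ i ∈ Finset.range (d + 1), (P.coeff i : ℝ) * (ξ * α ^ (n + i)) = 0 := by
      have h1 : ∑ i ∈ Finset.range (d + 1), (P.coeff i : ℝ) * (ξ * α ^ (n + i)) =
          ξ * α ^ n * ∑ i ∈ Finset.range (d + 1), (P.coeff i : ℝ) * α ^ i := by
        rw [Finset.mul_sum]
        refine Finset.sum_congr rfl fun i _ => ?_
        rw [pow_add]; ring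
      have h2 : ∑ i ∈ Finset.range (d + 1), (P.coeff i : ℝ) * α ^ i = 0 := by
        rw [← hroot, aeval_eq_sum_range]
        refine Finset.sum_congr rfl fun i _ => ?_
        simp [Algebra.smul_def]
      rw [h1, h2, mul_zero]
    have habs : |((∑ i ∈ Finset.range (d + 1), P.coeff i * s (n + i) : ℤ) : ℝ)| < 1 := by
      have h1 : ((∑ i ∈ Finset.range (d + 1), P.coeff i * s (n + i) : ℤ) : ℝ) =
          - ∑ i ∈ Finset.range (d + 1), (P.coeff i : ℝ) * (ξ * α ^ (n + i) - s (n + i)) := by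
        push_cast
        have : ∑ i ∈ Finset.range (d + 1), (P.coeff i : ℝ) * (ξ * α ^ (n + i) - s (n + i)) =
          ∑ i ∈ Finset.range (d + 1), (P.coeff i : ℝ) * (ξ * α ^ (n + i)) -
          ∑ i ∈ Finset.range (d + 1), (P.coeff i : ℝ) * (s (n + i)) := by
          rw [← Finset.sum_sub_distrib]
          refine Finset.sum_congr rfl fun i _ => ?_
          ring
        rw [this, hzero]; ring
      rw [h1, abs_neg]
      calc |∑ i ∈ Finset.range (d + 1), (P.coeff i : ℝ) * (ξ * α ^ (n + i) - s (n + i))|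
          ≤ ∑ i ∈ Finset.range (d + 1), |(P.coeff i : ℝ) * (ξ * α ^ (n + i) - s (n + i))| :=
            Finset.abs_sum_le_sum_abs _ _
        _ < ∑ i ∈ Finset.range (d + 1), |(P.coeff i : ℝ)| * (1 / S) := by
            refine Finset.sum_lt_sum (fun i _ => ?_) ⟨d, Finset.mem_range.mpr (Nat.lt_succ_self d), ?_⟩
            · rw [abs_mul]
              exact mul_le_mul_of_nonneg_left (hξ (n + i) (by omega)).le (abs_nonneg _)
            · rw [abs_mul]
              refine mul_lt_mul_of_pos_left (hξ (n + d) (by omega)) ?_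
              rw [hd, hP.coeff_natDegree]; simp
        _ = 1 := by
            rw [← Finset.sum_mul, ← hS]
            field_simp
    have h3 : |(∑ i ∈ Finset.range (d + 1), P.coeff i * s (n + i) : ℤ)| < 1 := by
      have : ((|(∑ i ∈ Finset.range (d + 1), P.coeff i * s (n + i) : ℤ)| : ℤ) : ℝ) < 1 := by
        rw [Int.cast_abs]; exact habs
      exact_mod_cast this
    exact Int.abs_lt_one_iff.mp h3
  -- injectivity of the initial data
  refine Set.MapsTo.countable_of_injOn (t := (Set.univ : Set (Fin d → ℤ)))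
    (f := fun ξ : ℝ => fun i : Fin d => round (ξ * α ^ (N + i))) (fun _ _ => Set.mem_univ _) ?_
    (Set.countable_univ)
  intro ξ hξ ξ' hξ' heq
  have heq' : ∀ i < d, round (ξ * α ^ (N + i)) = round (ξ' * α ^ (N + i)) := fun i hi =>
    congrFun heq ⟨i, hi⟩
  have hall : ∀ k, round (ξ * α ^ (N + k)) = round (ξ' * α ^ (N + k)) := by
    intro k
    induction k using Nat.strong_induction_on with
    | _ k ih =>
      rcases lt_or_ge k d with hk | hk
      · exact heq' k hk
      · have e1 := hrec ξ hξ (N + (k - d)) (by omega)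
        have e2 := hrec ξ' hξ' (N + (k - d)) (by omega)
        rw [Finset.sum_range_succ] at e1 e2
        rw [hd, hP.coeff_natDegree, ← hd, one_mul] at e1 e2
        have h4 : ∑ i ∈ Finset.range d, P.coeff i * round (ξ * α ^ (N + (k - d) + i)) =
            ∑ i ∈ Finset.range d, P.coeff i * round (ξ' * α ^ (N + (k - d) + i)) := by
          refine Finset.sum_congr rfl fun i hi => ?_
          rw [Finset.mem_range] at hi
          have := ih (k - d + i) (by omega)
          rw [add_assoc, this]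
        rw [h4] at e1
        have h5 : N + (k - d) + d = N + k := by omega
        rw [h5] at e1 e2
        linarith
  -- conclude
  by_contra hne
  have hpos : 0 < |ξ - ξ'| := abs_pos.mpr (sub_ne_zero.mpr hne)
  obtain ⟨n, hn⟩ := pow_unbounded_of_one_lt (1 / |ξ - ξ'|) hα1
  have hn' : 1 < |ξ - ξ'| * α ^ (N + n) := by
    have h6 : α ^ n ≤ α ^ (N + n) := pow_le_pow_right₀ hα1.le (by omega)
    rw [div_lt_iff₀ hpos] at hn
    calc 1 < α ^ n * |ξ - ξ'| := hn
      _ ≤ α ^ (N + n) * |ξ - ξ'| := mul_le_mul_of_nonneg_right h6 hpos.le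
      _ = _ := mul_comm _ _
  have h7 : |ξ - ξ'| * α ^ (N + n) ≤ 1 := by
    have hα0 : 0 < α ^ (N + n) := by positivity
    calc |ξ - ξ'| * α ^ (N + n) = |ξ * α ^ (N + n) - ξ' * α ^ (N + n)| := by
          rw [← sub_mul, abs_mul, abs_of_pos hα0]
      _ = |(ξ * α ^ (N + n) - round (ξ * α ^ (N + n))) -
            (ξ' * α ^ (N + n) - round (ξ' * α ^ (N + n)))| := by
          rw [hall n]; ring_nf
      _ ≤ |ξ * α ^ (N + n) - round (ξ * α ^ (N + n))| +
            |ξ' * α ^ (N + n) - round (ξ' * α ^ (N + n))| := abs_sub _ _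
      _ ≤ 1 / 2 + 1 / 2 := add_le_add (abs_sub_round _) (abs_sub_round _)
      _ = 1 := by norm_num
  linarith

/-- Main reduction. -/
lemma not_isClosed_L {α : ℝ} (hα1 : 1 < α) (hint : IsIntegral ℤ α)
    (h : ∀ ε > 0, ∃ x ∈ lagSpec α, 0 < x ∧ x < ε) : ¬ IsClosed (lagSpec α) := by
  intro hcl
  obtain ⟨c, hc, hcount⟩ := countable_small hα1 (minpoly ℤ α) (minpoly.monic hint)
    (minpoly.aeval ℤ α)
  set b := min c (1 / 2) with hb
  have hb0 : 0 < b := lt_min hc (by norm_num)
  have hsub : Set.Ioo 0 b ⊆ lagSpec α ∩ Set.Iio c := by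
    intro y hy
    refine ⟨?_, lt_of_lt_of_le hy.2 (min_le_left _ _)⟩
    rw [← hcl.closure_eq, Metric.mem_closure_iff]
    intro ε hε
    obtain ⟨x, hx, h1, h2⟩ := dense_L h (y := y) (z := min (y + ε) b) hy.1.le
      (lt_min (by linarith) hy.2) ((min_le_right _ _).trans (min_le_right _ _))
    refine ⟨x, hx, ?_⟩
    rw [Real.dist_eq, abs_lt]
    have := lt_of_lt_of_le h2 (min_le_left _ _)
    constructor <;> linarith
  have hco : (Set.Ioo 0 b).Countable := hcount.mono hsub
  have : ¬ (Set.Ioo (0 : ℝ) b).Countable := by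
    intro hc'
    rw [← Cardinal.le_aleph0_iff_set_countable, Cardinal.mk_Ioo_real hb0] at hc'
    exact absurd hc' (not_le.mpr Cardinal.aleph0_lt_continuum)
  exact this hco

end Pool.Agent.Helper9.Salem
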