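import Mathlib
import Pool.Agent.Helper9.SalemA

namespace Pool.Agent.Helper9.Salem

open Filter Polynomial Topology IntermediateField NumberField

/-- Minkowski: nonzero integers small at all places but one. -/
lemma exists_small_integer (K : Type*) [Field K] [NumberField K] (w₀ : InfinitePlace K) {δ : ℝ}
    (hδ : 0 < δ) : ∃ ζ : 𝓞 K, ζ ≠ 0 ∧ ∀ w : InfinitePlace K, w ≠ w₀ → w ζ < δ := by
  classical
  obtain ⟨B, hB⟩ : ∃ B : ℕ, mixedEmbedding.minkowskiBound K 1 <
      (mixedEmbedding.convexBodyLTFactor K) * B := by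
    conv => congr; ext; rw [mul_comm]
    exact ENNReal.exists_nat_mul_gt
      (ENNReal.coe_ne_zero.mpr (mixedEmbedding.convexBodyLTFactor_ne_zero K))
      (ne_of_lt (mixedEmbedding.minkowskiBound_lt_top K 1))
  let f : InfinitePlace K → NNReal := fun _ => ⟨δ, hδ.le⟩
  have hf : ∀ w, w ≠ w₀ → f w ≠ 0 := by
    intro w _ h
    have : (f w : ℝ) = 0 := by rw [h]; rfl
    exact hδ.ne' this
  obtain ⟨g, h_geqf, h_gprod⟩ := mixedEmbedding.adjust_f K B hf
  obtain ⟨y, h_ynz, h_yle⟩ := mixedEmbedding.exists_ne_zero_mem_ringOfIntegers_lt K (f := g)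
      (by rw [mixedEmbedding.convexBodyLT_volume]; convert! hB
          exact congr_arg ((↑) : NNReal → ENNReal) h_gprod)
  refine ⟨y, h_ynz, fun w hw => ?_⟩
  have := h_yle w
  rw [h_geqf w hw] at this
  exact this

lemma exists_small {α : ℝ} (hS : IsSalem α) : ∀ ε > 0, ∃ x ∈ lagSpec α, 0 < x ∧ x < ε := by
  classical
  intro ε hε
  obtain ⟨hα1, hint, hconj, β, hβroot, hβne, hβ1⟩ := hS
  have hintQ : IsIntegral ℚ α := hint.tower_top
  -- the number field
  let K := ℚ⟮α⟯
  have : FiniteDimensional ℚ K := adjoin.finiteDimensional hintQ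
  have : NumberField K := ⟨⟩
  let a : K := AdjoinSimple.gen ℚ α
  have ha : (a : ℝ) = α := AdjoinSimple.coe_gen ℚ α
  have hainj : Function.Injective (algebraMap K ℝ) := (algebraMap K ℝ).injective
  have haInt : IsIntegral ℤ a := by
    rw [← isIntegral_algebraMap_iff hainj]
    exact hint
  -- the identity embedding
  let φ₀ : K →ₐ[ℚ] ℂ := (Complex.ofRealAm.restrictScalars ℚ).comp K.val
  have hφ₀ : ∀ x : K, φ₀ x = ((x : ℝ) : ℂ) := fun x => rfl
  -- roots
  have hroot : ∀ σ : K →ₐ[ℚ] ℂ, aeval (σ a) (minpoly ℚ α) = 0 := by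
    intro σ
    rw [aeval_algHom_apply]
    have : aeval a (minpoly ℚ α) = 0 := by
      apply hainj
      rw [map_zero, ← aeval_algebraMap_apply]
      exact minpoly.aeval ℚ α
    rw [this, map_zero]
  have hext : ∀ σ τ : K →ₐ[ℚ] ℂ, σ a = τ a → σ = τ := by
    intro σ τ h
    refine (adjoin.powerBasis hintQ).algHom_ext ?_
    exact h
  have hnorm : ∀ σ : K →ₐ[ℚ] ℂ, σ ≠ φ₀ → ‖σ a‖ ≤ 1 := by
    intro σ hσ
    refine hconj _ (hroot σ) fun h => hσ (hext σ φ₀ ?_)
    rw [h, hφ₀, ha]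
  obtain ⟨τ, hτ⟩ : ∃ τ : K →ₐ[ℚ] ℂ, τ a = β := by
    refine ⟨(adjoin.powerBasis hintQ).lift β ?_, ?_⟩
    · rw [adjoin.powerBasis_gen, minpoly_gen]
      exact hβroot
    · have := (adjoin.powerBasis hintQ).lift_gen β (by
        rw [adjoin.powerBasis_gen, minpoly_gen]; exact hβroot)
      exact this
  have hτne : τ ≠ φ₀ := by
    intro h
    apply hβne
    rw [← hτ, h, hφ₀, ha]
  -- choose δ
  set D : ℝ := (Fintype.card (K →ₐ[ℚ] ℂ) : ℝ) with hD
  have hDpos : 0 ≤ D := by positivity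
  set δ : ℝ := min ε (1 / 2) / (D + 1) with hδ
  have hmin : 0 < min ε (1 / 2) := lt_min hε (by norm_num)
  have hδpos : 0 < δ := by positivity
  -- Minkowski
  let w₀ : InfinitePlace K := InfinitePlace.mk φ₀.toRingHom
  obtain ⟨ζ, hζ0, hζ⟩ := exists_small_integer K w₀ hδpos
  have hζK : (ζ : K) ≠ 0 := RingOfIntegers.coe_ne_zero_iff.mpr hζ0
  have hζσ : ∀ σ : K →ₐ[ℚ] ℂ, σ ≠ φ₀ → ‖σ (ζ : K)‖ < δ := by
    intro σ hσ
    have h1 : InfinitePlace.mk σ.toRingHom ≠ w₀ := by
      intro h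
      rw [InfinitePlace.mk_eq_iff] at h
      rcases h with h | h
      · apply hσ
        ext x
        exact congrArg (fun f : K →+* ℂ => f x) h
      · apply hσ
        ext x
        have h2 : (starRingEnd ℂ) (σ x) = φ₀ x := congrArg (fun f : K →+* ℂ => f x) h
        have h3 : σ x = (starRingEnd ℂ) (φ₀ x) := by rw [← h2]; simp
        rw [h3, hφ₀]; simp
    exact hζ _ h1
  -- the integer approximations
  have htr : ∀ n : ℕ, ∃ s : ℤ, (s : ℚ) = Algebra.trace ℚ K ((ζ : K) * a ^ n) := by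
    intro n
    have h1 : IsIntegral ℤ (Algebra.trace ℚ K ((ζ : K) * a ^ n)) :=
      Algebra.isIntegral_trace ((RingOfIntegers.isIntegral_coe ζ).mul (haInt.pow n))
    obtain ⟨s, hs⟩ := IsIntegrallyClosed.isIntegral_iff.mp h1
    exact ⟨s, by simpa using hs⟩
  choose s hs using htr
  set ξ : ℝ := ((ζ : K) : ℝ) with hξ
  set e : ℕ → ℝ := fun n => ξ * α ^ n - s n with he
  have heC : ∀ n, ((e n : ℝ) : ℂ) = - ∑ σ ∈ Finset.univ.erase φ₀, σ (ζ : K) * (σ a) ^ n := by
    intro n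
    have h1 : ((s n : ℤ) : ℂ) = ∑ σ : K →ₐ[ℚ] ℂ, σ (ζ : K) * (σ a) ^ n := by
      have h2 := trace_eq_sum_embeddings (K := ℚ) (L := K) ℂ (x := (ζ : K) * a ^ n)
      rw [← hs n] at h2
      simp only [map_mul, map_pow] at h2
      rw [← h2]; simp
    have h3 := Finset.add_sum_erase Finset.univ (fun σ : K →ₐ[ℚ] ℂ => σ (ζ : K) * (σ a) ^ n)
      (Finset.mem_univ φ₀)
    simp only [he]
    push_cast
    rw [h1, ← h3, hφ₀, hφ₀, ha, ← hξ]
    ring
  have heabs : ∀ n, |e n| ≤ D * δ := by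
    intro n
    have h1 : |e n| = ‖((e n : ℝ) : ℂ)‖ := by rw [Complex.norm_real, Real.norm_eq_abs]
    rw [h1, heC, norm_neg]
    calc ‖∑ σ ∈ Finset.univ.erase φ₀, σ (ζ : K) * (σ a) ^ n‖
        ≤ ∑ σ ∈ Finset.univ.erase φ₀, ‖σ (ζ : K) * (σ a) ^ n‖ := norm_sum_le _ _
      _ ≤ ∑ σ ∈ Finset.univ.erase φ₀, δ := by
          refine Finset.sum_le_sum fun σ hσ => ?_
          rw [norm_mul, norm_pow]
          have hσ' := Finset.ne_of_mem_erase hσ
          calc ‖σ (ζ : K)‖ * ‖σ a‖ ^ n ≤ δ * 1 :=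
                mul_le_mul (hζσ σ hσ').le (pow_le_one₀ (norm_nonneg _) (hnorm σ hσ'))
                  (by positivity) hδpos.le
            _ = δ := mul_one _
      _ ≤ ∑ σ : K →ₐ[ℚ] ℂ, δ := Finset.sum_le_sum_of_subset_of_nonneg (Finset.erase_subset _ _)
          (fun _ _ _ => hδpos.le)
      _ = D * δ := by rw [Finset.sum_const, Finset.card_univ, nsmul_eq_mul]
  have hDδ : D * δ < min ε (1 / 2) := by
    rw [hδ, mul_div_assoc', div_lt_iff₀ (by positivity)]
    nlinarith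
  have hdist : ∀ n, distInt (ξ * α ^ n) = |e n| := by
    intro n
    exact distInt_eq_of_abs_lt (lt_of_le_of_lt (heabs n) (lt_of_lt_of_le hDδ (min_le_right _ _)))
  refine ⟨limsup (fun n : ℕ => distInt (ξ * α ^ n)) atTop, ⟨ξ, rfl⟩, ?_, ?_⟩
  · -- positivity
    by_contra hle
    push Not at hle
    -- the annihilating polynomial
    let R : ℂ[X] := ∏ σ ∈ Finset.univ.erase τ, (X - C (σ a))
    have hReval : ∀ σ : K →ₐ[ℚ] ℂ, σ ≠ τ → R.eval (σ a) = 0 := by
      intro σ hσ
      simp only [R, eval_prod, eval_sub, eval_X, eval_C]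
      exact Finset.prod_eq_zero (Finset.mem_erase.mpr ⟨hσ, Finset.mem_univ _⟩) (sub_self _)
    have hRτ : R.eval (τ a) ≠ 0 := by
      simp only [R, eval_prod, eval_sub, eval_X, eval_C]
      refine Finset.prod_ne_zero_iff.mpr fun σ hσ => ?_
      intro h
      exact (Finset.ne_of_mem_erase hσ) (hext σ τ (sub_eq_zero.mp h).symm)
    set κ : ℝ := ‖τ (ζ : K)‖ * ‖R.eval (τ a)‖ with hκ
    have hκpos : 0 < κ := by
      have h1 : 0 < ‖τ (ζ : K)‖ := norm_pos_iff.mpr (by
        rw [map_ne_zero_iff τ τ.toRingHom.injective]; exact hζK)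
      have h2 : 0 < ‖R.eval (τ a)‖ := norm_pos_iff.mpr hRτ
      positivity
    have hkey : ∀ n, ‖∑ i ∈ Finset.range (R.natDegree + 1), R.coeff i * ((e (n + i) : ℝ) : ℂ)‖
        = κ := by
      intro n
      have h1 : ∑ i ∈ Finset.range (R.natDegree + 1), R.coeff i * ((e (n + i) : ℝ) : ℂ) =
          - ∑ σ ∈ Finset.univ.erase φ₀, σ (ζ : K) * (σ a) ^ n * R.eval (σ a) := by
        simp_rw [heC]
        simp_rw [mul_neg, Finset.mul_sum]
        rw [Finset.sum_neg_distrib, Finset.sum_comm]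
        congr 1
        refine Finset.sum_congr rfl fun σ _ => ?_
        rw [eval_eq_sum_range, Finset.mul_sum]
        refine Finset.sum_congr rfl fun i _ => ?_
        rw [pow_add]; ring
      have h2 : ∑ σ ∈ Finset.univ.erase φ₀, σ (ζ : K) * (σ a) ^ n * R.eval (σ a) =
          τ (ζ : K) * (τ a) ^ n * R.eval (τ a) := by
        refine Finset.sum_eq_single_of_mem τ (Finset.mem_erase.mpr ⟨hτne, Finset.mem_univ _⟩) ?_
        intro σ _ hσ
        rw [hReval σ hσ, mul_zero]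
      rw [h1, h2, norm_neg, norm_mul, norm_mul, norm_pow, hτ, hβ1, one_pow, mul_one, hκ, hτ]
    set M : ℝ := ∑ i ∈ Finset.range (R.natDegree + 1), ‖R.coeff i‖ with hM
    have hM0 : 0 ≤ M := Finset.sum_nonneg fun _ _ => norm_nonneg _
    have hlt : limsup (fun n : ℕ => distInt (ξ * α ^ n)) atTop < κ / (M + 1) :=
      lt_of_le_of_lt hle (by positivity)
    have hev := eventually_lt_of_limsup_lt hlt (bddAbove_dist _)
    rw [eventually_atTop] at hev
    obtain ⟨N, hN⟩ := hev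
    have h3 : κ ≤ M * (κ / (M + 1)) := by
      calc κ = ‖∑ i ∈ Finset.range (R.natDegree + 1), R.coeff i * ((e (N + i) : ℝ) : ℂ)‖ :=
            (hkey N).symm
        _ ≤ ∑ i ∈ Finset.range (R.natDegree + 1), ‖R.coeff i * ((e (N + i) : ℝ) : ℂ)‖ :=
            norm_sum_le _ _
        _ ≤ ∑ i ∈ Finset.range (R.natDegree + 1), ‖R.coeff i‖ * (κ / (M + 1)) := by
            refine Finset.sum_le_sum fun i _ => ?_
            rw [norm_mul, Complex.norm_real, Real.norm_eq_abs]
            refine mul_le_mul_of_nonneg_left ?_ (norm_nonneg _)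
            have := hN (N + i) (by omega)
            rw [hdist] at this
            exact this.le
        _ = M * (κ / (M + 1)) := by rw [← Finset.sum_mul]
    rw [mul_div_assoc', le_div_iff₀ (by positivity)] at h3
    nlinarith
  · -- smallness
    refine lt_of_le_of_lt ?_ (lt_of_lt_of_le hDδ (min_le_left _ _))
    refine limsup_le_of_le (bddBelow_dist _) (Eventually.of_forall fun n => ?_)
    rw [hdist]
    exact heabs n

/-- For every Salem number the set `lagSpec α` is not closed. -/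
theorem not_isClosed_L_of_isSalem {α : ℝ} (hS : IsSalem α) : ¬ IsClosed (lagSpec α) :=
  not_isClosed_L hS.1 hS.2.1 (exists_small hS)

end Pool.Agent.Helper9.Salem
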