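import Mathlib
import Pool.Agent.Helper9.SalemB

namespace Pool.Agent.Helper9.Salem

open Filter Polynomial Topology IntermediateField NumberField

/-- the quartic `x^4 - x^3 - x^2 - x + 1` -/
noncomputable def qf : ℤ[X] := X ^ 4 - X ^ 3 - X ^ 2 - X + 1

lemma qf_natDegree : qf.natDegree = 4 := by
  unfold qf; compute_degree!

lemma qf_monic : qf.Monic := by
  unfold qf; monicity!

lemma qf_ne_one : qf ≠ 1 := by
  intro h
  have := qf_natDegree
  rw [h, natDegree_one] at this
  omega

lemma qf_coeffs {e3 e2 e1 e0 : ℤ}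
    (h : qf = X ^ 4 + C e3 * X ^ 3 + C e2 * X ^ 2 + C e1 * X + C e0) :
    e3 = -1 ∧ e2 = -1 ∧ e1 = -1 ∧ e0 = 1 := by
  refine ⟨?_, ?_, ?_, ?_⟩
  · have := congrArg (fun p => coeff p 3) h
    simpa [qf, coeff_X, coeff_one, coeff_C, coeff_X_pow, -eq_intCast] using this.symm
  · have := congrArg (fun p => coeff p 2) h
    simpa [qf, coeff_X, coeff_one, coeff_C, coeff_X_pow, -eq_intCast] using this.symm
  · have := congrArg (fun p => coeff p 1) h
    simpa [qf, coeff_X, coeff_one, coeff_C, coeff_X_pow, -eq_intCast] using this.symm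
  · have := congrArg (fun p => coeff p 0) h
    simpa [qf, coeff_X, coeff_one, coeff_C, coeff_X_pow, -eq_intCast] using this.symm

lemma qf_irreducible : Irreducible qf := by
  rw [qf_monic.irreducible_iff_lt_natDegree_lt qf_ne_one]
  intro q hq hdeg hdvd
  rw [qf_natDegree, Finset.mem_Ioc] at hdeg
  obtain ⟨g, hg⟩ := hdvd
  have hgm : g.Monic := hq.of_mul_monic_left (hg ▸ qf_monic)
  have hsum : q.natDegree + g.natDegree = 4 := by
    rw [← hq.natDegree_mul hgm, ← hg, qf_natDegree]
  have hcases : q.natDegree = 1 ∨ q.natDegree = 2 := by omega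
  rcases hcases with h1 | h2
  · -- linear factor
    have hq1 : q = X + C (q.coeff 0) := by
      conv_lhs => rw [hq.as_sum, h1]
      simp
    set b := q.coeff 0 with hb
    have h0 : (eval (-b) qf) = 0 := by
      rw [hg, hq1]; simp
    have h3 : b ^ 4 + b ^ 3 - b ^ 2 + b + 1 = 0 := by
      have : eval (-b) qf = (-b) ^ 4 - (-b) ^ 3 - (-b) ^ 2 - (-b) + 1 := by
        simp [qf]
      rw [this] at h0
      linarith [h0, show (-b) ^ 4 - (-b) ^ 3 - (-b) ^ 2 - (-b) + 1 = b ^ 4 + b ^ 3 - b ^ 2 + b + 1 by ring]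
    have hdiv : b ∣ 1 := ⟨-(b ^ 3 + b ^ 2 - b + 1), by linarith [h3, show b * -(b ^ 3 + b ^ 2 - b + 1) = -(b ^ 4 + b ^ 3 - b ^ 2 + b) by ring]⟩
    rcases Int.isUnit_iff.mp (isUnit_of_dvd_one hdiv) with hb1 | hb1 <;> rw [hb1] at h3 <;> norm_num at h3
  · -- quadratic factor
    have hg2 : g.natDegree = 2 := by omega
    have hq2 : q = X ^ 2 + C (q.coeff 1) * X + C (q.coeff 0) := by
      conv_lhs => rw [hq.as_sum, h2]
      simp [Finset.sum_range_succ]; ring
    have hg3 : g = X ^ 2 + C (g.coeff 1) * X + C (g.coeff 0) := by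
      conv_lhs => rw [hgm.as_sum, hg2]
      simp [Finset.sum_range_succ]; ring
    set a := q.coeff 1
    set b := q.coeff 0
    set c := g.coeff 1
    set d := g.coeff 0
    have hprod : qf = X ^ 4 + C (a + c) * X ^ 3 + C (b + a * c + d) * X ^ 2 +
        C (a * d + b * c) * X + C (b * d) := by
      rw [hg, hq2, hg3]
      simp only [C_add, C_mul]
      ring
    obtain ⟨k3, k2, k1, k0⟩ := qf_coeffs hprod
    rcases Int.isUnit_iff.mp (isUnit_of_dvd_one ⟨d, k0.symm⟩) with hb1 | hb1
    · rw [hb1] at k0 k1 k2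
      have hd1 : d = 1 := by linarith
      rw [hd1] at k1 k2
      have hc : c = -1 - a := by linarith
      rw [hc] at k2
      have : a * a + a = 3 := by nlinarith
      rcases le_or_gt a 0 with h | h
      · rcases le_or_gt a (-3) with h' | h'
        · nlinarith
        · interval_cases a <;> omega
      · rcases le_or_gt 2 a with h' | h'
        · nlinarith
        · interval_cases a; omega
    · rw [hb1] at k0 k1 k2
      have hd1 : d = -1 := by linarith
      rw [hd1] at k1 k2
      linarith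

/-- the trace `t = (1 + sqrt 13)/2` -/
noncomputable def tt : ℝ := (1 + Real.sqrt 13) / 2

/-- the Salem number `(t + sqrt (t^2 - 4))/2` -/
noncomputable def sal : ℝ := (tt + Real.sqrt (tt ^ 2 - 4)) / 2

lemma sqrt13_sq : Real.sqrt 13 ^ 2 = 13 := Real.sq_sqrt (by norm_num)

lemma sqrt13_bd : 3.6 < Real.sqrt 13 ∧ Real.sqrt 13 < 3.61 := by
  constructor
  · rw [Real.lt_sqrt (by norm_num)]; norm_num
  · rw [Real.sqrt_lt' (by norm_num)]; norm_num

lemma tt_bd : 2.3 < tt ∧ tt < 2.31 := by
  have := sqrt13_bd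
  unfold tt
  constructor <;> linarith [this.1, this.2]

lemma tt_sq : tt ^ 2 = tt + 3 := by
  unfold tt
  nlinarith [sqrt13_sq]

lemma sal_quad : sal ^ 2 - tt * sal + 1 = 0 := by
  have h : 0 ≤ tt ^ 2 - 4 := by rw [tt_sq]; linarith [tt_bd.1]
  have h2 := Real.sq_sqrt h
  unfold sal
  nlinarith [h2]

lemma sal_gt_one : 1 < sal := by
  have h1 := tt_bd.1
  have h2 := Real.sqrt_nonneg (tt ^ 2 - 4)
  unfold sal
  linarith

lemma aeval_sal : aeval sal qf = 0 := by
  have h1 := sal_quad
  have h2 := tt_sq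
  simp only [qf, map_add, map_sub, map_pow, aeval_X, map_one]
  have : sal ^ 4 - sal ^ 3 - sal ^ 2 - sal + 1 =
    (sal ^ 2 - tt * sal + 1) * (sal ^ 2 - (1 - tt) * sal + 1) + (tt ^ 2 - tt - 3) * sal ^ 2 := by
    ring
  rw [this, h1, h2]; ring

lemma sal_int : IsIntegral ℤ sal := ⟨qf, qf_monic, by simpa [aeval_def] using aeval_sal⟩

lemma minpoly_sal : minpoly ℚ sal = qf.map (algebraMap ℤ ℚ) := by
  symm
  refine minpoly.eq_of_irreducible_of_monic ?_ ?_ (qf_monic.map _)
  · exact (qf_monic.irreducible_iff_irreducible_map_fraction_map).1 qf_irreducible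
  · rw [aeval_map_algebraMap]; exact aeval_sal

lemma minpoly_root_iff (z : ℂ) : aeval z (minpoly ℚ sal) = 0 ↔
    z ^ 4 - z ^ 3 - z ^ 2 - z + 1 = 0 := by
  rw [minpoly_sal, aeval_map_algebraMap]
  simp [qf]

lemma factor (z : ℂ) : z ^ 4 - z ^ 3 - z ^ 2 - z + 1 =
    (z ^ 2 - tt * z + 1) * (z ^ 2 - (1 - tt) * z + 1) := by
  have h2 : (tt : ℂ) ^ 2 = tt + 3 := by exact_mod_cast tt_sq
  have : (z ^ 2 - tt * z + 1) * (z ^ 2 - (1 - tt) * z + 1) =
    z ^ 4 - z ^ 3 + (2 + tt - (tt : ℂ) ^ 2) * z ^ 2 - z + 1 := by ring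
  rw [this, h2]; ring

lemma isSalem_sal : IsSalem sal := by
  refine ⟨sal_gt_one, sal_int, ?_, ?_⟩
  · intro z hz hne
    rw [minpoly_root_iff, factor, mul_eq_zero] at hz
    rcases hz with hz | hz
    · -- z = 1/sal
      have hq : (sal : ℂ) ^ 2 - tt * sal + 1 = 0 := by exact_mod_cast sal_quad
      have h1 : (z - sal) * (z + sal - tt) = 0 := by
        linear_combination hz - hq
      rcases mul_eq_zero.mp h1 with h | h
      · exact absurd (sub_eq_zero.mp h) hne
      · have h3 : z * sal = 1 := by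
          have : z = tt - sal := by linear_combination h
          rw [this]; linear_combination -hq
        have h4 : ‖z‖ * sal = 1 := by
          have := congrArg norm h3
          rwa [norm_mul, Complex.norm_real, Real.norm_eq_abs,
            abs_of_pos (by linarith [sal_gt_one]), norm_one] at this
        by_contra hcon
        push Not at hcon
        nlinarith [sal_gt_one]
    · -- unimodular
      have h5 : z.im = 0 ∨ z.im ≠ 0 := em _
      have hre := congrArg Complex.re hz
      have him := congrArg Complex.im hz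
      simp [pow_two] at hre him
      rcases h5 with h5 | h5
      · rw [h5] at hre
        nlinarith [tt_bd.1, tt_bd.2, sq_nonneg (z.re - (1 - tt) / 2)]
      · have h6 : 2 * z.re = 1 - tt := by
          have : z.im * (2 * z.re - (1 - tt)) = 0 := by linarith
          rcases mul_eq_zero.mp this with h | h
          · exact absurd h h5
          · linarith
        have h7 : z.re * z.re + z.im * z.im = 1 := by
          have h70 : (1 - tt) * z.re = 2 * z.re * z.re := by rw [← h6]
          linarith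
        have h8 : ‖z‖ ^ 2 = 1 := by
          rw [← Complex.normSq_eq_norm_sq, Complex.normSq_apply]; exact h7
        nlinarith [norm_nonneg z]
  · -- existence
    set u : ℝ := (1 - tt) / 2 with hu
    have hu2 : 0 ≤ 1 - u ^ 2 := by nlinarith [tt_bd.1, tt_bd.2]
    set v : ℝ := Real.sqrt (1 - u ^ 2) with hv
    have hv2 : v ^ 2 = 1 - u ^ 2 := Real.sq_sqrt hu2
    have hn : ‖(⟨u, v⟩ : ℂ)‖ = 1 := by
      have h8 : ‖(⟨u, v⟩ : ℂ)‖ ^ 2 = 1 := by
        rw [← Complex.normSq_eq_norm_sq, Complex.normSq_apply]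
        simp only
        nlinarith
      have h9 := norm_nonneg (⟨u, v⟩ : ℂ)
      nlinarith
    refine ⟨⟨u, v⟩, ?_, ?_, hn⟩
    · rw [minpoly_root_iff, factor]
      have : (⟨u, v⟩ : ℂ) ^ 2 - (1 - tt) * ⟨u, v⟩ + 1 = 0 := by
        apply Complex.ext
        · simp [pow_two]
          have h70 : (1 - tt) * u = 2 * u * u := by rw [hu]; ring
          nlinarith
        · simp [pow_two]
          have h70 : (1 - tt) * v = 2 * u * v := by rw [hu]; ring
          nlinarith
      rw [this, mul_zero]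
    · intro h
      rw [h, Complex.norm_real, Real.norm_eq_abs, abs_of_pos (by linarith [sal_gt_one])] at hn
      linarith [sal_gt_one]

end Pool.Agent.Helper9.Salem
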