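import Pool.Agent.Helper72.Blocks

/-!
Simulation of one step of a Turing machine of Mathlib (TM2 model) by a loop-free program of the
internal language.
-/

namespace Pool.Agent.Helper9.TM2Sim

open Function Turing Pool.Agent.Helper72

/-! ### loop-free programs -/

/-- loop-free programs -/
def noLoop : Cmd → Bool
  | .nop => true
  | .push _ _ => true
  | .pop _ => true
  | .seq c d => noLoop c && noLoop d
  | .ite _ c0 c1 c2 => noLoop c0 && noLoop c1 && noLoop c2
  | .loop _ _ _ => false

theorem noLoop_ok {c : Cmd} (h : noLoop c = true) : c.ok = true := by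
  induction c with
  | nop => rfl
  | push r b => rfl
  | pop r => rfl
  | seq c d hc hd =>
    simp only [noLoop, Bool.and_eq_true] at h
    simp [Cmd.ok, hc h.1, hd h.2]
  | ite r c0 c1 c2 h0 h1 h2 =>
    simp only [noLoop, Bool.and_eq_true] at h
    simp [Cmd.ok, h0 h.1.1, h1 h.1.2, h2 h.2]
  | loop r c0 c1 h0 h1 => simp [noLoop] at h

theorem noLoop_LB {c : Cmd} (h : noLoop c = true) (L : ℕ) (s : St) : c.LB L s := by
  induction c generalizing s with
  | nop => trivial
  | push r b => trivial
  | pop r => trivial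
  | seq c d hc hd =>
    simp only [noLoop, Bool.and_eq_true] at h
    exact ⟨hc h.1 _, hd h.2 _⟩
  | ite r c0 c1 c2 h0 h1 h2 =>
    simp only [noLoop, Bool.and_eq_true] at h
    rcases hs : s r with _ | ⟨_ | _, l⟩
    · simpa only [Cmd.LB, hs] using h0 h.1.1 s
    · simpa only [Cmd.LB, hs] using h1 h.1.2 s
    · simpa only [Cmd.LB, hs] using h2 h.2 s
  | loop r c0 c1 h0 h1 => simp [noLoop] at h

theorem noLoop_pushL (r : ℕ) (l : List Bool) : noLoop (Cmd.pushL r l) = true := by
  induction l with
  | nil => rfl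
  | cons b l ih => simp [Cmd.pushL, noLoop, ih]

/-! ### decision trees -/

/-- run `cs[i]` when register `r` contains `1^i`, after emptying `r` -/
def stTree (r : ℕ) : List Cmd → Cmd
  | [] => .nop
  | c :: cs => .ite r c .nop (.seq (.pop r) (stTree r cs))

theorem eval_stTree (r : ℕ) : ∀ (cs : List Cmd) (i : ℕ) (c : Cmd) (s : St), cs[i]? = some c →
    s r = un i → (stTree r cs).eval s = c.eval (update s r [])
  | [], i, c, s, h, _ => by simp at h
  | c' :: cs, 0, c, s, h, hs => by
    simp only [List.getElem?_cons_zero, Option.some.injEq] at h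
    subst h
    have h1 : update s r [] = s := by
      conv_rhs => rw [← update_eq_self r s]
      rw [hs]; rfl
    rw [h1]
    simp only [stTree, Cmd.eval, hs]
    rfl
  | c' :: cs, i + 1, c, s, h, hs => by
    simp only [List.getElem?_cons_succ] at h
    have hs' : s r = true :: un i := hs
    simp only [stTree, Cmd.eval, hs']
    rw [eval_stTree r cs i c _ h (by simp)]
    simp

theorem noLoop_stTree (r : ℕ) (cs : List Cmd) (h : ∀ c ∈ cs, noLoop c = true) :
    noLoop (stTree r cs) = true := by
  induction cs with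
  | nil => rfl
  | cons c cs ih =>
    simp only [stTree, noLoop, Bool.and_eq_true, and_true, true_and]
    exact ⟨h c (by simp), ih fun c hc => h c (by simp [hc])⟩

theorem wr_stTree {r x : ℕ} (hx : x ≠ r) (cs : List Cmd) (h : ∀ c ∈ cs, c.wr x = false) :
    (stTree r cs).wr x = false := by
  induction cs with
  | nil => rfl
  | cons c cs ih =>
    simp only [stTree, Cmd.wr, Bool.or_eq_false_iff, beq_eq_false_iff_ne, and_true]
    exact ⟨h c (by simp), hx, ih fun c hc => h c (by simp [hc])⟩

/-- block of index `i` -/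
def blk (i : ℕ) : List Bool := un i ++ [false]

/-- run `cs[i]` when register `r` starts with the block of index `i`, after popping the block -/
def symTree (r : ℕ) : List Cmd → Cmd
  | [] => .nop
  | c :: cs => .ite r .nop (.seq (.pop r) c) (.seq (.pop r) (symTree r cs))

theorem eval_symTree (r : ℕ) : ∀ (cs : List Cmd) (i : ℕ) (c : Cmd) (l : List Bool) (s : St),
    cs[i]? = some c → s r = blk i ++ l → (symTree r cs).eval s = c.eval (update s r l)
  | [], i, c, l, s, h, _ => by simp at h
  | c' :: cs, 0, c, l, s, h, hs => by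
    simp only [List.getElem?_cons_zero, Option.some.injEq] at h
    subst h
    have hs' : s r = false :: l := hs
    simp only [symTree, Cmd.eval, hs']
    simp
  | c' :: cs, i + 1, c, l, s, h, hs => by
    simp only [List.getElem?_cons_succ] at h
    have hs' : s r = true :: (blk i ++ l) := by
      rw [hs]; simp [blk, un, List.replicate_succ]
    simp only [symTree, Cmd.eval, hs']
    rw [eval_symTree r cs i c l _ h (by simp)]
    simp

theorem noLoop_symTree (r : ℕ) (cs : List Cmd) (h : ∀ c ∈ cs, noLoop c = true) :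
    noLoop (symTree r cs) = true := by
  induction cs with
  | nil => rfl
  | cons c cs ih =>
    simp only [symTree, noLoop, Bool.and_eq_true, true_and]
    exact ⟨h c (by simp), ih fun c hc => h c (by simp [hc])⟩

theorem wr_symTree {r x : ℕ} (hx : x ≠ r) (cs : List Cmd) (h : ∀ c ∈ cs, c.wr x = false) :
    (symTree r cs).wr x = false := by
  induction cs with
  | nil => rfl
  | cons c cs ih =>
    simp only [symTree, Cmd.wr, Bool.or_eq_false_iff, beq_eq_false_iff_ne, true_and]
    exact ⟨⟨hx, h c (by simp)⟩, hx, ih fun c hc => h c (by simp [hc])⟩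

theorem blk_cons_ne_nil (i : ℕ) (l : List Bool) : blk i ++ l ≠ [] := by
  simp [blk]

/-! ### machines -/

section

variable {K : Type} {Γ : K → Type} {Λ σ : Type}

/-- the symbols written by a statement -/
def syms : TM2.Stmt Γ Λ σ → Set (Σ k, Γ k)
  | .push k f q => Set.range (fun v => (⟨k, f v⟩ : Σ k, Γ k)) ∪ syms q
  | .peek _ _ q => syms q
  | .pop _ _ q => syms q
  | .load _ q => syms q
  | .branch _ q₁ q₂ => syms q₁ ∪ syms q₂
  | .goto _ => ∅
  | .halt => ∅

theorem syms_finite [Finite σ] (q : TM2.Stmt Γ Λ σ) : (syms q).Finite := by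
  induction q with
  | push k f q ih => exact (Set.finite_range _).union ih
  | peek k f q ih => exact ih
  | pop k f q ih => exact ih
  | load f q ih => exact ih
  | branch f q₁ q₂ h₁ h₂ => exact h₁.union h₂
  | goto f => exact Set.finite_empty
  | halt => exact Set.finite_empty

variable (Γ Λ σ) in
/-- data for the encoding of a machine -/
structure Enc where
  /-- register of the state -/
  st : ℕ
  /-- registers of the stacks -/
  reg : K → ℕ
  inj : Injective reg
  ne : ∀ k, reg k ≠ st
  /-- list of all possible stack symbols -/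
  L : List (Σ k, Γ k)
  /-- number of states -/
  N : ℕ
  eqv : Λ × σ ≃ Fin N

variable (e : Enc Γ Λ σ)

/-- index of a symbol -/
noncomputable def Enc.idx (k : K) (x : Γ k) : ℕ :=
  letI := Classical.decEq (Σ k, Γ k)
  e.L.idxOf ⟨k, x⟩

/-- number of a state; halted states have number `0` -/
def Enc.ei : Option Λ → σ → ℕ
  | none, _ => 0
  | some l, v => (e.eqv (l, v)).val + 1

/-- encoding of a stack -/
noncomputable def Enc.stk (k : K) (l : List (Γ k)) : List Bool := l.flatMap fun x => blk (e.idx k x)

theorem Enc.stk_nil (k : K) : e.stk k [] = [] := rfl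

theorem Enc.stk_cons (k : K) (x : Γ k) (l : List (Γ k)) :
    e.stk k (x :: l) = blk (e.idx k x) ++ e.stk k l := by
  simp [Enc.stk]

theorem Enc.get_idx {k : K} {x : Γ k} (h : (⟨k, x⟩ : Σ k, Γ k) ∈ e.L) :
    e.L[e.idx k x]? = some ⟨k, x⟩ := by
  letI := Classical.decEq (Σ k, Γ k)
  have h1 : e.L.idxOf (⟨k, x⟩ : Σ k, Γ k) < e.L.length := List.idxOf_lt_length_of_mem h
  show e.L[e.L.idxOf (⟨k, x⟩ : Σ k, Γ k)]? = _
  rw [List.getElem?_eq_getElem h1, List.getElem_idxOf h1]

/-- the symbol as a symbol of stack `k` -/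
noncomputable def dec (k : K) (p : Σ k, Γ k) : Option (Γ k) :=
  open Classical in if h : p.1 = k then some (h ▸ p.2) else none

theorem dec_self (k : K) (x : Γ k) : dec k ⟨k, x⟩ = some x := by simp [dec]

/-- the stacks are encoded in their registers -/
def Enc.RelS (S : ∀ k, List (Γ k)) (s : St) : Prop :=
  ∀ k, s (e.reg k) = e.stk k (S k) ∧ ∀ x ∈ S k, (⟨k, x⟩ : Σ k, Γ k) ∈ e.L

/-- the state `s` encodes the configuration `cfg` -/
def Enc.Rel (cfg : TM2.Cfg Γ Λ σ) (s : St) : Prop :=
  s e.st = un (e.ei cfg.l cfg.var) ∧ e.RelS cfg.stk s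

/-- program for a statement at a known value of the internal variable -/
noncomputable def compS : TM2.Stmt Γ Λ σ → σ → Cmd
  | .push k f q, v => .seq (Cmd.pushL (e.reg k) (blk (e.idx k (f v)))) (compS q v)
  | .peek k f q, v =>
    .ite (e.reg k) (compS q (f v none))
      (symTree (e.reg k) (e.L.map fun p =>
        .seq (Cmd.pushL (e.reg k) (blk (e.idx p.1 p.2))) (compS q (f v (dec k p)))))
      (symTree (e.reg k) (e.L.map fun p =>
        .seq (Cmd.pushL (e.reg k) (blk (e.idx p.1 p.2))) (compS q (f v (dec k p)))))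
  | .pop k f q, v =>
    .ite (e.reg k) (compS q (f v none))
      (symTree (e.reg k) (e.L.map fun p => compS q (f v (dec k p))))
      (symTree (e.reg k) (e.L.map fun p => compS q (f v (dec k p))))
  | .load a q, v => compS q (a v)
  | .branch f q₁ q₂, v => if f v then compS q₁ v else compS q₂ v
  | .goto f, v => Cmd.pushL e.st (un (e.ei (some (f v)) v))
  | .halt, _ => .nop

theorem noLoop_compS (q : TM2.Stmt Γ Λ σ) (v : σ) : noLoop (compS e q v) = true := by
  induction q generalizing v with
  | push k f q ih => simp [compS, noLoop, noLoop_pushL, ih]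
  | peek k f q ih =>
    simp only [compS, noLoop, ih, Bool.true_and, Bool.and_eq_true, and_self]
    apply noLoop_symTree
    intro c hc
    obtain ⟨p, -, rfl⟩ := List.mem_map.1 hc
    simp [noLoop, noLoop_pushL, ih]
  | pop k f q ih =>
    simp only [compS, noLoop, ih, Bool.true_and, Bool.and_eq_true, and_self]
    apply noLoop_symTree
    intro c hc
    obtain ⟨p, -, rfl⟩ := List.mem_map.1 hc
    exact ih _
  | load f q ih => exact ih _
  | branch f q₁ q₂ h₁ h₂ =>
    simp only [compS]
    split
    · exact h₁ v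
    · exact h₂ v
  | goto f => exact noLoop_pushL _ _
  | halt => rfl

theorem wr_compS {x : ℕ} (h0 : x ≠ e.st) (h1 : ∀ k, x ≠ e.reg k) (q : TM2.Stmt Γ Λ σ) (v : σ) :
    (compS e q v).wr x = false := by
  induction q generalizing v with
  | push k f q ih => simp [compS, Cmd.wr, Cmd.wr_pushL _ (h1 k), ih]
  | peek k f q ih =>
    have key : (symTree (e.reg k) (e.L.map fun p =>
        Cmd.seq (Cmd.pushL (e.reg k) (blk (e.idx p.1 p.2))) (compS e q (f v (dec k p))))).wr x
          = false := by
      apply wr_symTree (h1 k)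
      intro c hc
      obtain ⟨p, -, rfl⟩ := List.mem_map.1 hc
      simp [Cmd.wr, Cmd.wr_pushL _ (h1 k), ih]
    simp only [compS, Cmd.wr, ih, key]
    rfl
  | pop k f q ih =>
    have key : (symTree (e.reg k) (e.L.map fun p => compS e q (f v (dec k p)))).wr x
          = false := by
      apply wr_symTree (h1 k)
      intro c hc
      obtain ⟨p, -, rfl⟩ := List.mem_map.1 hc
      exact ih _
    simp only [compS, Cmd.wr, ih, key]
    rfl
  | load f q ih => exact ih _
  | branch f q₁ q₂ h₁ h₂ =>
    simp only [compS]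
    split
    · exact h₁ v
    · exact h₂ v
  | goto f => exact Cmd.wr_pushL _ h0
  | halt => rfl

variable [DecidableEq K]

theorem RelS_push {e : Enc Γ Λ σ} {S : ∀ k, List (Γ k)} {s : St} (hS : e.RelS S s) (k : K)
    (x : Γ k) (hx : (⟨k, x⟩ : Σ k, Γ k) ∈ e.L) :
    e.RelS (update S k (x :: S k)) (update s (e.reg k) (blk (e.idx k x) ++ s (e.reg k))) := by
  intro k'
  by_cases h : k' = k
  · subst h
    rw [update_self, update_self, e.stk_cons, (hS k').1]
    refine ⟨rfl, ?_⟩
    intro y hy
    rcases List.mem_cons.1 hy with rfl | hy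
    · exact hx
    · exact (hS k').2 y hy
  · rw [update_of_ne h, update_of_ne (e.inj.ne h)]
    exact hS k'

theorem RelS_pop {e : Enc Γ Λ σ} {S : ∀ k, List (Γ k)} {s : St} (hS : e.RelS S s) (k : K)
    {x : Γ k} {l : List (Γ k)} (hx : S k = x :: l) :
    e.RelS (update S k l) (update s (e.reg k) (e.stk k l)) := by
  intro k'
  by_cases h : k' = k
  · subst h
    rw [update_self, update_self]
    refine ⟨rfl, fun y hy => (hS k').2 y ?_⟩
    rw [hx]; exact List.mem_cons_of_mem _ hy
  · rw [update_of_ne h, update_of_ne (e.inj.ne h)]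
    exact hS k'

theorem compS_rel (q : TM2.Stmt Γ Λ σ) (hq : ∀ p ∈ syms q, p ∈ e.L) :
    ∀ (v : σ) (S : ∀ k, List (Γ k)) (s : St), s e.st = [] → e.RelS S s →
      e.Rel (TM2.stepAux q v S) ((compS e q v).eval s) := by
  induction q with
  | push k f q ih =>
    intro v S s hst hS
    have hx : (⟨k, f v⟩ : Σ k, Γ k) ∈ e.L := hq _ (Or.inl ⟨v, rfl⟩)
    rw [TM2.stepAux, compS, Cmd.eval_seq, Cmd.eval_pushL]
    refine ih (fun p hp => hq p (Or.inr hp)) _ _ _ ?_ (RelS_push hS k _ hx)
    rw [update_of_ne (e.ne k).symm, hst]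
  | peek k f q ih =>
    intro v S s hst hS
    have ih := ih hq
    rw [TM2.stepAux]
    obtain ⟨l, hl⟩ : ∃ l, S k = l := ⟨_, rfl⟩
    rcases l with _ | ⟨x, l⟩
    · have h1 : s (e.reg k) = [] := by rw [(hS k).1, hl, e.stk_nil]
      simp only [compS, Cmd.eval, h1, hl, List.head?_nil]
      exact ih _ _ _ hst hS
    · have h1 : s (e.reg k) = blk (e.idx k x) ++ e.stk k l := by
        rw [(hS k).1, hl, e.stk_cons]
      have hx : (⟨k, x⟩ : Σ k, Γ k) ∈ e.L := (hS k).2 x (by rw [hl]; simp)
      have h2 := eval_symTree (e.reg k) (e.L.map fun p =>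
        Cmd.seq (Cmd.pushL (e.reg k) (blk (e.idx p.1 p.2))) (compS e q (f v (dec k p))))
        (e.idx k x) _ _ s (by rw [List.getElem?_map, e.get_idx hx]; rfl) h1
      have h3 : (compS e (.peek k f q) v).eval s = (symTree (e.reg k) (e.L.map fun p =>
        Cmd.seq (Cmd.pushL (e.reg k) (blk (e.idx p.1 p.2))) (compS e q (f v (dec k p))))).eval s := by
        have hne : s (e.reg k) ≠ [] := by rw [h1]; exact blk_cons_ne_nil _ _
        rcases hb : s (e.reg k) with _ | ⟨_ | _, l'⟩
        · exact absurd hb hne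
        · simp only [compS, Cmd.eval, hb]
        · simp only [compS, Cmd.eval, hb]
      rw [h3, h2, Cmd.eval_seq, Cmd.eval_pushL, update_self, update_idem, dec_self]
      have h4 : update s (e.reg k) (blk (e.idx k x) ++ e.stk k l) = s := by
        rw [← h1, update_eq_self]
      dsimp only
      rw [h4, hl, List.head?_cons]
      exact ih _ _ _ hst hS
  | pop k f q ih =>
    intro v S s hst hS
    have ih := ih hq
    rw [TM2.stepAux]
    obtain ⟨l, hl⟩ : ∃ l, S k = l := ⟨_, rfl⟩
    rcases l with _ | ⟨x, l⟩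
    · have h1 : s (e.reg k) = [] := by rw [(hS k).1, hl, e.stk_nil]
      simp only [compS, Cmd.eval, h1, hl, List.head?_nil, List.tail_nil]
      have h5 : update S k [] = S := by
        rw [← hl, update_eq_self]
      rw [h5]
      exact ih _ _ _ hst hS
    · have h1 : s (e.reg k) = blk (e.idx k x) ++ e.stk k l := by
        rw [(hS k).1, hl, e.stk_cons]
      have hx : (⟨k, x⟩ : Σ k, Γ k) ∈ e.L := (hS k).2 x (by rw [hl]; simp)
      have h2 := eval_symTree (e.reg k) (e.L.map fun p => compS e q (f v (dec k p)))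
        (e.idx k x) _ _ s (by rw [List.getElem?_map, e.get_idx hx]; rfl) h1
      have h3 : (compS e (.pop k f q) v).eval s =
          (symTree (e.reg k) (e.L.map fun p => compS e q (f v (dec k p)))).eval s := by
        have hne : s (e.reg k) ≠ [] := by rw [h1]; exact blk_cons_ne_nil _ _
        rcases hb : s (e.reg k) with _ | ⟨_ | _, l'⟩
        · exact absurd hb hne
        · simp only [compS, Cmd.eval, hb]
        · simp only [compS, Cmd.eval, hb]
      rw [h3, h2]
      dsimp only
      rw [dec_self, hl, List.head?_cons, List.tail_cons]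
      refine ih _ _ _ ?_ (RelS_pop hS k hl)
      rw [update_of_ne (e.ne k).symm, hst]
  | load f q ih =>
    intro v S s hst hS
    rw [TM2.stepAux, compS]
    exact ih hq _ _ _ hst hS
  | branch f q₁ q₂ h₁ h₂ =>
    intro v S s hst hS
    rw [TM2.stepAux, compS]
    cases f v
    · exact h₂ (fun p hp => hq p (Or.inr hp)) _ _ _ hst hS
    · exact h₁ (fun p hp => hq p (Or.inl hp)) _ _ _ hst hS
  | goto f =>
    intro v S s hst hS
    rw [TM2.stepAux, compS, Cmd.eval_pushL, hst, List.append_nil]
    refine ⟨by rw [update_self], fun k => ?_⟩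
    rw [update_of_ne (e.ne k)]
    exact hS k
  | halt =>
    intro v S s hst hS
    rw [TM2.stepAux, compS, Cmd.eval_nop]
    exact ⟨hst, hS⟩

/-- total step function -/
def tstep (m : Λ → TM2.Stmt Γ Λ σ) (c : TM2.Cfg Γ Λ σ) : TM2.Cfg Γ Λ σ := (TM2.step m c).getD c

omit [DecidableEq K] in
/-- program for one step; it does nothing on halted configurations -/
noncomputable def stepCmd (m : Λ → TM2.Stmt Γ Λ σ) : Cmd :=
  stTree e.st (.nop :: List.ofFn fun i : Fin e.N =>
    compS e (m (e.eqv.symm i).1) (e.eqv.symm i).2)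

theorem stepCmd_rel (m : Λ → TM2.Stmt Γ Λ σ) (hm : ∀ l, ∀ p ∈ syms (m l), p ∈ e.L)
    (cfg : TM2.Cfg Γ Λ σ) (s : St) (h : e.Rel cfg s) :
    e.Rel (tstep m cfg) ((stepCmd e m).eval s) := by
  obtain ⟨l, v, S⟩ := cfg
  obtain ⟨h1, h2⟩ := h
  cases l with
  | none =>
    rw [stepCmd, eval_stTree e.st _ 0 .nop s rfl h1]
    refine ⟨by simp [tstep, TM2.step, Enc.ei], fun k => ?_⟩
    rw [Cmd.eval_nop, update_of_ne (e.ne k)]
    exact h2 k
  | some l =>
    have h3 : (Cmd.nop :: List.ofFn fun i : Fin e.N =>
      compS e (m (e.eqv.symm i).1) (e.eqv.symm i).2)[(e.eqv (l, v)).val + 1]? =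
        some (compS e (m l) v) := by
      rw [List.getElem?_cons_succ, List.getElem?_eq_getElem (by simp)]
      simp
    rw [stepCmd, eval_stTree e.st _ _ _ s h3 h1]
    apply compS_rel e (m l) (hm l) v S
    · simp
    · intro k
      rw [update_of_ne (e.ne k)]
      exact h2 k

omit [DecidableEq K] in
theorem noLoop_stepCmd (m : Λ → TM2.Stmt Γ Λ σ) : noLoop (stepCmd e m) = true := by
  apply noLoop_stTree
  intro c hc
  rcases List.mem_cons.1 hc with rfl | hc
  · rfl
  · rw [List.mem_ofFn] at hc
    obtain ⟨i, rfl⟩ := hc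
    exact noLoop_compS e _ _

omit [DecidableEq K] in
theorem wr_stepCmd {x : ℕ} (h0 : x ≠ e.st) (h1 : ∀ k, x ≠ e.reg k) (m : Λ → TM2.Stmt Γ Λ σ) :
    (stepCmd e m).wr x = false := by
  apply wr_stTree h0
  intro c hc
  rcases List.mem_cons.1 hc with rfl | hc
  · rfl
  · rw [List.mem_ofFn] at hc
    obtain ⟨i, rfl⟩ := hc
    exact wr_compS e h0 h1 _ _

end

end Pool.Agent.Helper9.TM2Sim
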